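import Pool.Agent.Lib.MP_8b1d3b_lc.NG.AnnihA

/-! The relation kills the counting measure of the zero set. -/

open MvPolynomial
open scoped Polynomial

namespace Pool.Agent.Lib.MP_8b1d3b_lc.NG

variable {τ : Type} [Fintype τ] [DecidableEq τ]

/-- The substitution `X i ↦ C (x i) - X i`. -/
noncomputable def annih_sx {F : Type} [Field F] (x : τ → F) :
    MvPolynomial τ F →+* MvPolynomial τ F :=
  (map (eval x)).comp (trn : MvPolynomial τ F →ₐ[F] MvPolynomial τ (MvPolynomial τ F)).toRingHom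

omit [Fintype τ] [DecidableEq τ] in
theorem annih_coeff {F : Type} [Field F] (x : τ → F) (a : τ →₀ ℕ) (ψ : MvPolynomial τ F) :
    eval x (coeff a (trn ψ)) = coeff a (annih_sx x ψ) := by
  simp [annih_sx, coeff_map]

omit [Fintype τ] [DecidableEq τ] in
theorem annih_lin {F : Type} [Field F] (x : τ → F) (i : τ) (c : F) :
    annih_sx x (X i - C c) = C (x i - c) - X i := by
  simp only [annih_sx, trn, RingHom.comp_apply, AlgHom.toRingHom_eq_coe, RingHom.coe_coe, map_sub,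
    aeval_X, aeval_C, map_C, map_X, eval_X]
  have h : (algebraMap F (MvPolynomial τ (MvPolynomial τ F))) c = C (C c) := rfl
  rw [h, map_C, eval_C]
  ring

omit [DecidableEq τ] in
theorem annih_mono {F : Type} [Field F] (P : τ → F) (a₁ : τ →₀ ℕ) :
    annih_sx P (∏ i, (X i - C (P i)) ^ a₁ i) = monomial a₁ ((-1) ^ ∑ i, a₁ i) := by
  rw [map_prod, monomial_eq, Finsupp.prod_fintype _ _ (fun i => pow_zero _), map_pow,
    ← Finset.prod_pow_eq_pow_sum, ← Finset.prod_mul_distrib]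
  refine Finset.prod_congr rfl fun i _ => ?_
  rw [map_pow, annih_lin, ← mul_pow]
  congr 1
  simp

/-- Paper A4. `ψ = ∏ i, (X i - C (P i)) ^ a₁ i * ∏ Q ∈ Z.erase P, (X (i Q) - C (Q (i Q))) ^ (T + 1)`
with `Q (i Q) ≠ P (i Q)`. `eval x (coeff a (trn ψ)) = coeff a (map (eval x) (trn ψ))`, and
`map (eval x) ∘ trn` is the substitution `X i ↦ C (x i) - X i`; `coeff_pow_low`. -/
theorem jet {F : Type} [Field F] (Z : Finset (τ → F)) (P : τ → F) (a₁ : τ →₀ ℕ) {T : ℕ}
    (h1 : ∑ i, a₁ i ≤ T) : ∃ ψ : MvPolynomial τ F, ψ.totalDegree ≤ T + (T + 1) * Z.card ∧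
      (∀ x ∈ Z, x ≠ P → ∀ a : τ →₀ ℕ, ∑ i, a i ≤ T → eval x (coeff a (trn ψ)) = 0) ∧
      (∀ a : τ →₀ ℕ, ∑ i, a i ≤ ∑ i, a₁ i → a ≠ a₁ → eval P (coeff a (trn ψ)) = 0) ∧
      eval P (coeff a₁ (trn ψ)) ≠ 0 := by
  classical
  have hdeg : ∀ (i : τ) (c : F), (X i - C c : MvPolynomial τ F).totalDegree ≤ 1 := fun i c =>
    (totalDegree_sub_C_le _ _).trans (totalDegree_X i).le
  have hL : ∀ Q : τ → F, Q ≠ P → ∃ L : MvPolynomial τ F, L.totalDegree ≤ 1 ∧
      constantCoeff (annih_sx Q L) = 0 ∧ constantCoeff (annih_sx P L) ≠ 0 := by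
    intro Q hQ
    obtain ⟨i, hi⟩ := Function.ne_iff.1 hQ
    refine ⟨X i - C (Q i), hdeg _ _, ?_, ?_⟩
    · rw [annih_lin]; simp
    · rw [annih_lin]
      simpa [sub_eq_zero] using hi.symm
  choose! L hL1 hL2 hL3 using hL
  refine ⟨(∏ i, (X i - C (P i)) ^ a₁ i) * ∏ Q ∈ Z.erase P, L Q ^ (T + 1), ?_, ?_, ?_, ?_⟩
  · refine (totalDegree_mul _ _).trans (add_le_add ?_ ?_)
    · refine (totalDegree_finsetProd _ _).trans (le_trans (Finset.sum_le_sum fun i _ => ?_) h1)
      refine (totalDegree_pow _ _).trans ?_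
      exact (Nat.mul_le_mul_left _ (hdeg _ _)).trans (mul_one _).le
    · refine (totalDegree_finsetProd _ _).trans ?_
      refine (Finset.sum_le_card_nsmul _ _ (T + 1) fun Q hQ => ?_).trans ?_
      · refine (totalDegree_pow _ _).trans ?_
        exact (Nat.mul_le_mul_left _ (hL1 Q (Finset.ne_of_mem_erase hQ))).trans (mul_one _).le
      · rw [smul_eq_mul, mul_comm]
        exact Nat.mul_le_mul_left _ Finset.card_erase_le
  · intro x hx hxP a ha
    rw [annih_coeff, ← Finset.prod_erase_mul _ _ (Finset.mem_erase.2 ⟨hxP, hx⟩), ← mul_assoc,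
      map_mul, map_pow]
    exact coeff_pow_low (hL2 x hxP) _ (Nat.lt_succ_of_le ha)
  · intro a ha hne
    rw [annih_coeff, map_mul, annih_mono, coeff_monomial_mul', if_neg]
    intro hle
    apply hne
    have h2 : ∀ i ∈ (Finset.univ : Finset τ), a₁ i ≤ a i := fun i _ => hle i
    have h3 := (Finset.sum_eq_sum_iff_of_le h2).1 (le_antisymm (Finset.sum_le_sum h2) ha)
    ext i
    exact (h3 i (Finset.mem_univ i)).symm
  · rw [annih_coeff, map_mul, annih_mono, coeff_monomial_mul', if_pos le_rfl, tsub_self,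
      ← constantCoeff_eq, map_prod, map_prod]
    refine mul_ne_zero (pow_ne_zero _ (neg_ne_zero.2 one_ne_zero)) ?_
    refine Finset.prod_ne_zero_iff.2 fun Q hQ => ?_
    rw [map_pow, map_pow]
    exact pow_ne_zero _ (hL3 Q (Finset.ne_of_mem_erase hQ))

end Pool.Agent.Lib.MP_8b1d3b_lc.NG
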