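import Pool.Agent.Lib.MP_8b1d3b_lc.NG.LamA

/-! The Cartier functionals. -/

open MvPolynomial
open scoped Polynomial

namespace Pool.Agent.Lib.MP_8b1d3b_lc.NG

variable {τ A : Type} [Fintype τ] [DecidableEq τ] [CommRing A]

/-- Power sums over the prime field. -/
theorem lam_pow (q : ℕ) [Fact q.Prime] (R : ℕ) {e : ℕ} (he : e ≤ R * (q - 1)) :
    ∑ t : ZMod q, t ^ e = -∑ r : Fin R, if e = (q - 1) * (r + 1) then (1 : ZMod q) else 0 := by
  have hq : 0 < q - 1 := Nat.sub_pos_of_lt (Fact.out : q.Prime).one_lt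
  rcases Nat.eq_zero_or_pos e with rfl | h0
  · rw [Finset.sum_eq_zero (s := Finset.univ) (f := fun r : Fin R =>
      if 0 = (q - 1) * (r + 1) then (1 : ZMod q) else 0)
      fun r _ => if_neg (Nat.mul_pos hq (Nat.succ_pos _)).ne]
    simp
  have h1 : ∑ t : ZMod q, t ^ e = ∑ x : (ZMod q)ˣ, (x : ZMod q) ^ e := by
    rw [← Finset.add_sum_erase _ _ (Finset.mem_univ (0 : ZMod q)), zero_pow h0.ne', zero_add]
    symm
    refine Finset.sum_bij (fun x _ => (x : ZMod q)) (fun x _ => by simp)
      (fun x _ y _ h => Units.ext h) (fun t ht => ?_) fun _ _ => rfl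
    exact ⟨Units.mk0 t (Finset.ne_of_mem_erase ht), Finset.mem_univ _, rfl⟩
  rw [h1, FiniteField.sum_pow_units, ZMod.card]
  split_ifs with hd
  · obtain ⟨k, rfl⟩ := hd
    have hk0 : 0 < k := Nat.pos_of_mul_pos_left h0
    have hk : k ≤ R := Nat.le_of_mul_le_mul_left (by rwa [mul_comm R] at he) hq
    rw [Finset.sum_eq_single (⟨k - 1, by omega⟩ : Fin R), if_pos (by congr 1; simp; omega)]
    · intro r _ hr
      refine if_neg fun h => hr (Fin.ext ?_)
      have := Nat.eq_of_mul_eq_mul_left hq h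
      simp only
      omega
    · simp
  · rw [Finset.sum_eq_zero fun r _ => if_neg fun h => hd ⟨_, h⟩, neg_zero]

omit [DecidableEq τ] in
theorem lam_shift (q : ℕ) (hq : 0 < q) (b : τ → ℕ) (v : MvPolynomial τ A) :
    lam q b (monomial (fs b) 1 * v) = coeff (fs fun i => (q - 1) * (b i + 1)) v := by
  have h : (fs fun i => q * (b i + 1) - 1) = fs b + fs fun i => (q - 1) * (b i + 1) := by
    ext i
    obtain ⟨k, rfl⟩ := Nat.exists_eq_succ_of_ne_zero hq.ne'
    simp only [fs_apply, Finsupp.add_apply, Nat.succ_eq_add_one, Nat.add_sub_cancel]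
    exact Nat.sub_eq_of_eq_add (by ring)
  rw [lam, h, coeff_monomial_mul, one_mul]

/-- Both sides are linear; for a monomial the sum is a product of power sums
(`FiniteField.sum_pow_units`), which is `(-1) ^ card τ` if all exponents are positive multiples of
`q - 1` and zero otherwise. -/
theorem lam_sum (q : ℕ) [Fact q.Prime] (R : ℕ) {v : MvPolynomial τ (ZMod q)}
    (hv : v.totalDegree ≤ R * (q - 1)) : ∑ x : τ → ZMod q, eval x v = (-1) ^ Fintype.card τ *
      ∑ b : τ → Fin R, lam q (fun i => b i) (monomial (fs fun i => b i) 1 * v) := by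
  have hq : 0 < q := (Fact.out : q.Prime).pos
  have h1 : ∀ b : τ → Fin R, coeff (fs fun i => (q - 1) * (b i + 1)) v = ∑ γ ∈ v.support,
      coeff γ v * ∏ i, if γ i = (q - 1) * (b i + 1) then (1 : ZMod q) else 0 := fun b => by
    rw [Finset.sum_eq_single (fs fun i => (q - 1) * (b i + 1))]
    · simp
    · intro γ _ hγ
      obtain ⟨i, hi⟩ := DFunLike.ne_iff.1 hγ
      rw [Finset.prod_eq_zero (Finset.mem_univ i) (if_neg hi), mul_zero]
    · intro h
      rw [notMem_support_iff.1 h, zero_mul]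
  simp only [lam_shift q hq, h1, eval_eq']
  rw [Finset.sum_comm, Finset.sum_comm (s := (Finset.univ : Finset (τ → Fin R))), Finset.mul_sum]
  refine Finset.sum_congr rfl fun γ hγ => ?_
  have h2 : ∀ i, γ i ≤ R * (q - 1) := fun i =>
    ((monomial_le_degreeOf i hγ).trans (degreeOf_le_totalDegree v i)).trans hv
  rw [← Finset.mul_sum, ← Finset.mul_sum, mul_left_comm]
  congr 1
  have h3 := Finset.prod_univ_sum (fun _ : τ => (Finset.univ : Finset (ZMod q)))
    fun i t => t ^ γ i
  have h4 := Finset.prod_univ_sum (fun _ : τ => (Finset.univ : Finset (Fin R)))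
    fun i r => if γ i = (q - 1) * (r + 1) then (1 : ZMod q) else 0
  rw [Fintype.piFinset_univ] at h3 h4
  rw [← h3, ← h4, ← Finset.card_univ, ← Finset.prod_const, ← Finset.prod_mul_distrib]
  exact Finset.prod_congr rfl fun i _ => by rw [lam_pow q R (h2 i), neg_one_mul]

end Pool.Agent.Lib.MP_8b1d3b_lc.NG
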