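import Pool.Agent.Lib.MP_8b1d3b_lc.NG.Hasse
import Pool.Agent.Lib.MP_8b1d3b_lc.NG.Lam

/-! The relation kills the counting measure of the zero set. -/

open MvPolynomial
open scoped Polynomial

namespace Pool.Agent.Lib.MP_8b1d3b_lc.NG

variable {τ : Type} [Fintype τ] [DecidableEq τ]

omit [DecidableEq τ] in
theorem anniha_C {A : Type} [CommRing A] (q : ℕ) (b : τ → ℕ) (c : A) (v : MvPolynomial τ A) :
    lam q b (C c * v) = c * lam q b v := coeff_C_mul _ _ _

omit [DecidableEq τ] in
theorem anniha_sum {A ι : Type} [CommRing A] (q : ℕ) (b : τ → ℕ) (s : Finset ι)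
    (v : ι → MvPolynomial τ A) : lam q b (∑ u ∈ s, v u) = ∑ u ∈ s, lam q b (v u) :=
  coeff_sum _ _ _

theorem anniha_one (q : ℕ) [Fact q.Prime] {ι : Type} [Fintype ι] (G : MvPolynomial τ (ZMod q))
    (w : ι → MvPolynomial τ (ZMod q)) (a : ι → τ →₀ ℕ) (c : ι → ZMod q) {R E n : ℕ}
    (ha : ∀ u i, a u i < q) (hG : G.totalDegree ≤ E) (hw : ∀ u, (w u).totalDegree ≤ n)
    (h : ∀ b : τ → Fin R, ∑ u, C (c u) *
      coeff (a u) (tr (w u * monomial (fs fun i => b i) 1 * G)) = 0)
    (ψ : MvPolynomial τ (ZMod q)) (hψ : ψ.totalDegree + n + E ≤ R * (q - 1)) :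
    ∑ x : τ → ZMod q, eval x G *
      ∑ u, c u * eval x (w u) * eval x (coeff (a u) (trn ψ)) = 0 := by
  have hv : (∑ u, C (c u) * (coeff (a u) (trn ψ) * w u * G)).totalDegree ≤ R * (q - 1) := by
    refine totalDegree_finsetSum_le fun u _ => (totalDegree_mul _ _).trans ?_
    rw [totalDegree_C, zero_add]
    have h1 := totalDegree_mul (coeff (a u) (trn ψ) * w u) G
    have h2 := totalDegree_mul (coeff (a u) (trn ψ)) (w u)
    have h3 := trn_degree ψ (a u)
    have h4 := hw u
    omega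
  have h1 := lam_sum q R hv
  have h2 : ∀ b : τ → Fin R, lam q (fun i => b i) (monomial (fs fun i => b i) 1 *
      ∑ u, C (c u) * (coeff (a u) (trn ψ) * w u * G)) = 0 := by
    intro b
    have h3 : ∀ u, lam q (fun i => b i) (monomial (fs fun i => b i) 1 *
        (C (c u) * (coeff (a u) (trn ψ) * w u * G))) = lam q (fun i => b i) (ψ * (C (c u) *
          coeff (a u) (tr (w u * monomial (fs fun i => b i) 1 * G)))) := by
      intro u
      have h4 := lam_adj q (fun i => (b i : ℕ)) (ha u) ψ (w u * monomial (fs fun i => b i) 1 * G)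
      have h6 : monomial (fs fun i => b i) 1 * (C (c u) * (coeff (a u) (trn ψ) * w u * G)) =
          C (c u) * (coeff (a u) (trn ψ) * (w u * monomial (fs fun i => b i) 1 * G)) := by ring
      rw [h6, mul_left_comm ψ, anniha_C, anniha_C, h4]
    have h5 : lam q (fun i => b i) (ψ * ∑ u, C (c u) *
        coeff (a u) (tr (w u * monomial (fs fun i => b i) 1 * G))) = 0 := by
      rw [h b, mul_zero, lam, coeff_zero]
    rw [Finset.mul_sum, anniha_sum] at h5
    rw [Finset.mul_sum, anniha_sum, ← h5]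
    exact Finset.sum_congr rfl fun u _ => h3 u
  rw [Finset.sum_eq_zero fun b _ => h2 b, mul_zero] at h1
  rw [← h1]
  refine Finset.sum_congr rfl fun x _ => ?_
  rw [map_sum, Finset.mul_sum]
  refine Finset.sum_congr rfl fun u _ => ?_
  simp only [map_mul, eval_C]
  ring

/-- Paper A3. The indicator of `Z` is `∏ j, (1 - g j ^ (q - 1)) = ∑ I, (-1) ^ card I *
(∏ j ∈ I, g j) ^ (q - 1)` (`Finset.prod_one_sub` or `Finset.prod_add`); for each `I` use `lam_sum`,
`lam_adj` backwards and `h`. -/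
theorem annih (q : ℕ) [Fact q.Prime] {J ι : Type} [Fintype J] [Fintype ι]
    (g : J → MvPolynomial τ (ZMod q)) (w : ι → MvPolynomial τ (ZMod q)) (a : ι → τ →₀ ℕ)
    (c : ι → ZMod q) {R D n : ℕ} (ha : ∀ u i, a u i < q) (hg : ∀ j, (g j).totalDegree ≤ D)
    (hw : ∀ u, (w u).totalDegree ≤ n)
    (h : ∀ (I : Finset J) (b : τ → Fin R), ∑ u, C (c u) *
      coeff (a u) (tr (w u * monomial (fs fun i => b i) 1 * (∏ j ∈ I, g j) ^ (q - 1))) = 0)
    (ψ : MvPolynomial τ (ZMod q))
    (hψ : ψ.totalDegree + n + Fintype.card J * D * (q - 1) ≤ R * (q - 1))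
    (Z : Finset (τ → ZMod q)) (hZ : ∀ x, x ∈ Z ↔ ∀ j, eval x (g j) = 0) :
    ∑ x ∈ Z, ∑ u, c u * eval x (w u) * eval x (coeff (a u) (trn ψ)) = 0 := by
  classical
  have hq : q - 1 ≠ 0 := by
    have := (Fact.out : q.Prime).two_le
    omega
  have h1 : ∀ I : Finset J, ∑ x : τ → ZMod q, (∏ j ∈ I, eval x (g j) ^ (q - 1)) *
      ∑ u, c u * eval x (w u) * eval x (coeff (a u) (trn ψ)) = 0 := by
    intro I
    have hG : ((∏ j ∈ I, g j) ^ (q - 1)).totalDegree ≤ Fintype.card J * D * (q - 1) := by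
      refine (totalDegree_pow _ _).trans ?_
      rw [mul_comm]
      refine Nat.mul_le_mul_right _ ((totalDegree_finsetProd _ _).trans ?_)
      refine (Finset.sum_le_card_nsmul _ _ D fun j _ => hg j).trans ?_
      rw [smul_eq_mul]
      exact Nat.mul_le_mul_right _ (Finset.card_le_univ _)
    have h2 := anniha_one q ((∏ j ∈ I, g j) ^ (q - 1)) w a c ha hG hw (h I) ψ hψ
    simpa only [map_pow, map_prod, Finset.prod_pow] using h2
  have h3 : ∀ x : τ → ZMod q, ∏ j, (1 - eval x (g j) ^ (q - 1)) = if x ∈ Z then 1 else 0 := by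
    intro x
    split_ifs with hx
    · refine Finset.prod_eq_one fun j _ => ?_
      rw [(hZ x).1 hx j, zero_pow hq, sub_zero]
    · rw [hZ, not_forall] at hx
      obtain ⟨j, hj⟩ := hx
      refine Finset.prod_eq_zero (Finset.mem_univ j) ?_
      rw [ZMod.pow_card_sub_one_eq_one hj, sub_self]
  calc ∑ x ∈ Z, ∑ u, c u * eval x (w u) * eval x (coeff (a u) (trn ψ))
      = ∑ x : τ → ZMod q, (∏ j, (1 - eval x (g j) ^ (q - 1))) *
          ∑ u, c u * eval x (w u) * eval x (coeff (a u) (trn ψ)) := by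
        simp only [h3, ite_mul, one_mul, zero_mul]
        rw [Finset.sum_ite_mem, Finset.univ_inter]
    _ = ∑ I ∈ (Finset.univ : Finset J).powerset, (-1) ^ I.card *
          ∑ x : τ → ZMod q, (∏ j ∈ I, eval x (g j) ^ (q - 1)) *
            ∑ u, c u * eval x (w u) * eval x (coeff (a u) (trn ψ)) := by
        simp only [Finset.prod_sub, Finset.prod_const_one, mul_one]
        simp only [Finset.sum_mul (s := (Finset.univ : Finset J).powerset)]
        rw [Finset.sum_comm]
        refine Finset.sum_congr rfl fun I _ => ?_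
        rw [Finset.mul_sum]
        exact Finset.sum_congr rfl fun x _ => mul_assoc _ _ _
    _ = 0 := Finset.sum_eq_zero fun I _ => by rw [h1, mul_zero]

end Pool.Agent.Lib.MP_8b1d3b_lc.NG
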