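import Pool.Agent.Lib.MP_8b1d3b_lc.NG.Def

/-! Restriction to a generic line. -/

open Polynomial

namespace Pool.Agent.Lib.MP_8b1d3b_lc.NG

theorem bertini_frac {A K : Type} [CommRing A] [IsDomain A] [IsIntegrallyClosed A[X]] [Field K]
    [Algebra A K] [IsFractionRing A K] {p : A[X][X]} (hm : p.Monic) (hi : Irreducible p) :
    Irreducible (p.map (mapRingHom (algebraMap A K))) := by
  have hg : Function.Injective ((algebraMap A[X] (FractionRing A[X])).comp C) :=
    (IsFractionRing.injective A[X] (FractionRing A[X])).comp C_injective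
  refine Monic.irreducible_of_irreducible_map
    (eval₂RingHom (IsFractionRing.lift hg) (algebraMap A[X] (FractionRing A[X]) X)) _ (hm.map _) ?_
  have e : (eval₂RingHom (IsFractionRing.lift (K := K) hg)
      (algebraMap A[X] (FractionRing A[X]) X)).comp (mapRingHom (algebraMap A K)) =
      algebraMap A[X] (FractionRing A[X]) :=
    Polynomial.ringHom_ext (fun a => by simp) (by simp)
  rw [Polynomial.map_map, e]
  exact (hm.irreducible_iff_irreducible_map_fraction_map).1 hi

theorem bertini_shift {σ Ω : Type} [CommRing Ω] (α : σ → Ω) :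
    ∃ e : MvPolynomial σ Ω ≃+* MvPolynomial σ Ω, (evalRingHom 1).comp
      (ln MvPolynomial.C (fun i => MvPolynomial.C (α i)) MvPolynomial.X) = e.toRingHom := by
  refine ⟨RingEquiv.ofRingHom
    (MvPolynomial.eval₂Hom MvPolynomial.C fun i => MvPolynomial.C (α i) + MvPolynomial.X i)
    (MvPolynomial.eval₂Hom MvPolynomial.C fun i => MvPolynomial.X i - MvPolynomial.C (α i))
    ?_ ?_, ?_⟩
  all_goals exact MvPolynomial.ringHom_ext (fun a => by simp [ln]) (fun i => by simp [ln])

/-- With `A = MvPolynomial σ Ω`: the restriction to the line is irreducible in `A[X][X]`, because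
`s ↦ 1` turns a monic factorisation into one of the translate of `Ψ`. A monic factorisation over
`K[X]` descends to `A[X]`, which is integrally closed with a fraction field containing `K[X]`. -/
theorem bertini {σ Ω K : Type} [Field Ω] [Field K] [Algebra (MvPolynomial σ Ω) K]
    [IsFractionRing (MvPolynomial σ Ω) K] {Ψ : (MvPolynomial σ Ω)[X]} (hm : Ψ.Monic)
    (hi : Irreducible Ψ) (α : σ → Ω) :
    Irreducible (Ψ.map (ln ((algebraMap (MvPolynomial σ Ω) K).comp MvPolynomial.C)
      (fun i => algebraMap (MvPolynomial σ Ω) K (MvPolynomial.C (α i)))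
      (fun i => algebraMap (MvPolynomial σ Ω) K (MvPolynomial.X i)))) := by
  obtain ⟨e, he⟩ := bertini_shift α
  have h1 : Irreducible (Ψ.map (ln (MvPolynomial.C : Ω →+* MvPolynomial σ Ω)
      (fun i => MvPolynomial.C (α i)) MvPolynomial.X)) := by
    refine Monic.irreducible_of_irreducible_map (evalRingHom 1) _ (hm.map _) ?_
    rw [Polynomial.map_map, he]
    exact (MulEquiv.irreducible_iff (mapEquiv e)).2 hi
  have h2 := bertini_frac (K := K) (hm.map _) h1
  rw [Polynomial.map_map] at h2
  convert h2 using 2
  exact MvPolynomial.ringHom_ext (fun a => by simp [ln]) (fun i => by simp [ln])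

end Pool.Agent.Lib.MP_8b1d3b_lc.NG
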