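import Pool.Agent.Lib.MP_8b1d3b_lc.NG.BoolO

/-! Circuits of negated conjunctions. -/

open Set

namespace Pool.Agent.Lib.MP_8b1d3b_lc.NG

variable {Ω : Type}

variable {A A' B B' : Set (Ω → Bool)} {n k : ℕ} {f g s : Ω → Bool}

theorem bool_aux {ι : Type} [Fintype ι] (L : List ((ι → Bool) → Bool))
    (h : Ok (range fun v A => A v) L) : ∃ w : ℕ → (ι → Bool) → Bool,
      (∀ i < Fintype.card ι + L.length, (∃ v, w i = fun A => A v) ∨ (∃ b, w i = fun _ => b) ∨
        ∃ a b, a < i ∧ b < i ∧ w i = fun A => !(w a A && w b A)) ∧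
      ∀ f, f ∈ range (fun (v : ι) (A : ι → Bool) => A v) ∨ f ∈ L →
        ∃ i < Fintype.card ι + L.length, w i = f := by
  induction L with
  | nil =>
    refine ⟨fun i => if h : i < Fintype.card ι then fun A => A ((Fintype.equivFin ι).symm ⟨i, h⟩)
      else fun _ => false, fun i hi => Or.inl ⟨_, dif_pos hi⟩, ?_⟩
    rintro _ (⟨v, rfl⟩ | h)
    · exact ⟨Fintype.equivFin ι v, (Fintype.equivFin ι v).2, by simp⟩
    · simp at h
  | cons f L ih =>
    obtain ⟨w, h1, h2⟩ := ih h.1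
    have e : ∀ i < Fintype.card ι + L.length,
        Function.update w (Fintype.card ι + L.length) f i = w i :=
      fun i hi => Function.update_of_ne hi.ne _ _
    refine ⟨Function.update w (Fintype.card ι + L.length) f, fun i hi => ?_, fun g hg => ?_⟩
    · rcases (Nat.lt_succ_iff.1 hi).lt_or_eq with hi | rfl
      · rw [e i hi]
        refine (h1 i hi).imp_right (Or.imp_right ?_)
        rintro ⟨a, b, ha, hb, h3⟩
        exact ⟨a, b, ha, hb, by rw [e a (ha.trans hi), e b (hb.trans hi), h3]⟩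
      · rw [Nat.add_eq, Function.update_self]
        refine Or.inr (h.2.imp_right ?_)
        rintro ⟨g, g', hg, hg', h3⟩
        obtain ⟨a, ha, rfl⟩ := h2 g hg
        obtain ⟨b, hb, rfl⟩ := h2 g' hg'
        exact ⟨a, b, ha, hb, by rw [e a ha, e b hb, h3]⟩
    · by_cases h3 : g = f
      · exact ⟨_, Nat.lt_succ_self _, (Function.update_self _ _ _).trans h3.symm⟩
      · obtain ⟨i, hi, rfl⟩ := h2 g (hg.imp_right fun h4 => (List.mem_cons.1 h4).resolve_left h3)
        exact ⟨i, Nat.lt_succ_of_lt hi, e i hi⟩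

/-- Number the inputs first, then the list from its end. -/
theorem cmp_out {ι : Type} [Fintype ι] {B : Set ((ι → Bool) → Bool)}
    (h : Cmp (range fun v A => A v) n B) : ∃ (M : ℕ) (w : Fin M → (ι → Bool) → Bool),
      M ≤ Fintype.card ι + n ∧ (∀ i, (∃ v, w i = fun A => A v) ∨ (∃ b, w i = fun _ => b) ∨
        ∃ a b, a < i ∧ b < i ∧ w i = fun A => !(w a A && w b A)) ∧ ∀ f ∈ B, ∃ i, w i = f := by
  obtain ⟨L, h1, h2, h3⟩ := h
  obtain ⟨w, h4, h5⟩ := bool_aux L h1
  refine ⟨Fintype.card ι + L.length, fun i => w i, Nat.add_le_add_left h2 _, fun i => ?_,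
    fun f hf => ?_⟩
  · refine (h4 i i.2).imp_right (Or.imp_right ?_)
    rintro ⟨a, b, ha, hb, h6⟩
    exact ⟨⟨a, ha.trans i.2⟩, ⟨b, hb.trans i.2⟩, ha, hb, h6⟩
  · obtain ⟨i, hi, e⟩ := h5 f (h3 f hf)
    exact ⟨⟨i, hi⟩, e⟩

end Pool.Agent.Lib.MP_8b1d3b_lc.NG
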