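import Pool.Agent.Lib.MP_8b1d3b_lc.NG.Bool

/-! Addition. -/

open Set

namespace Pool.Agent.Lib.MP_8b1d3b_lc.NG

variable {Ω : Type} {A : Set (Ω → Bool)} {X Y : Ω → ℕ} {r p : ℕ} {s : Ω → Bool}

theorem cmp_num (A : Set (Ω → Bool)) (a : ℕ) : Cmp A 2 (bits fun _ => a) := by
  refine ((cmp_const A true).trans (cmp_const _ false)).mono subset_rfl le_rfl ?_
  rintro _ ⟨k, rfl⟩
  beta_reduce
  cases a.testBit k <;> simp

/-- The carry into place `j`. -/
def boola_carry (x y j : ℕ) : Bool := decide (2 ^ j ≤ x % 2 ^ j + y % 2 ^ j)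

theorem boola_zero (x y : ℕ) : boola_carry x y 0 = false := by
  simp [boola_carry, Nat.mod_one]

theorem boola_bit (x y j : ℕ) :
    (x + y).testBit j = ((x.testBit j ^^ y.testBit j) ^^ boola_carry x y j) := by
  simp only [Nat.testBit_eq_decide_div_mod_eq, boola_carry, Nat.add_div (Nat.two_pow_pos j)]
  generalize x / 2 ^ j = a
  generalize y / 2 ^ j = b
  by_cases h : 2 ^ j ≤ x % 2 ^ j + y % 2 ^ j <;> rcases Nat.mod_two_eq_zero_or_one a with ha | ha <;>
    rcases Nat.mod_two_eq_zero_or_one b with hb | hb <;> simp [h, ha, hb] <;> omega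

theorem boola_succ (x y j : ℕ) : boola_carry x y (j + 1) =
    if (x.testBit j ^^ y.testBit j) then boola_carry x y j else x.testBit j := by
  have hx := Nat.mod_lt x (Nat.two_pow_pos j)
  have hy := Nat.mod_lt y (Nat.two_pow_pos j)
  simp only [Nat.testBit_eq_decide_div_mod_eq, boola_carry, Nat.mod_pow_succ]
  rw [pow_succ]
  rcases Nat.mod_two_eq_zero_or_one (x / 2 ^ j) with ha | ha <;>
    rcases Nat.mod_two_eq_zero_or_one (y / 2 ^ j) with hb | hb <;> simp [ha, hb] <;> omega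

/-- Ripple carry: the carry into place `j` is `decide (2 ^ j ≤ X % 2 ^ j + Y % 2 ^ j)`
(`BitVec.carry`, `Nat.testBit_add`-type facts, or `Nat.mod_pow_succ`); `cmp_iter` with the digits
below `j` and the carry. -/
theorem cmp_add (hX : bits X ⊆ A) (hY : bits Y ⊆ A) (h1 : ∀ ω, X ω < 2 ^ r)
    (h2 : ∀ ω, Y ω < 2 ^ r) : Cmp A (20 * (r + 1)) (bits fun ω => X ω + Y ω) := by
  have h3 := cmp_iter (A := A ∪ {fun _ => false}) (k := 12)
    (fun j => (fun k ω => (X ω + Y ω).testBit k) '' Iio j ∪ {fun ω => boola_carry (X ω) (Y ω) j})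
    (by
      rintro f (⟨k, hk, -⟩ | rfl)
      · exact absurd hk (Nat.not_lt_zero k)
      · exact Or.inr (funext fun ω => boola_zero _ _)) (r + 1) fun j _ => by
      have hx : (fun ω => (X ω).testBit j) ∈ A := hX ⟨j, rfl⟩
      have hy : (fun ω => (Y ω).testBit j) ∈ A := hY ⟨j, rfl⟩
      refine (((cmp_xor (Or.inl (Or.inl hx)) (Or.inl (Or.inl hy))).trans
        (cmp_xor (Or.inr rfl) (Or.inl (Or.inr (Or.inr rfl))))).trans
        (cmp_mux (Or.inr (Or.inl rfl)) (Or.inl (Or.inr (Or.inr rfl)))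
          (Or.inl (Or.inl (Or.inl hx))))).mono subset_rfl le_rfl ?_
      rintro f (⟨k, hk, rfl⟩ | rfl)
      · rcases Nat.lt_succ_iff_lt_or_eq.1 hk with hk | rfl
        · exact Or.inl (Or.inr (Or.inl ⟨k, hk, rfl⟩))
        · exact Or.inr (Or.inl (Or.inr (funext fun ω => boola_bit _ _ _)))
      · exact Or.inr (Or.inr (funext fun ω => boola_succ _ _ _))
  refine (cmp_bits (r := r + 1) (n := 1 + (r + 1) * 12) (fun ω => ?_)
    (((cmp_const A false).trans h3).mono subset_rfl le_rfl fun f hf =>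
      Or.inr (Or.inr (Or.inl hf)))).mono subset_rfl (by omega) subset_union_right
  have := h1 ω
  have := h2 ω
  omega

theorem cmp_ite (hs : s ∈ A) (hX : bits X ⊆ A) (hY : bits Y ⊆ A) (h1 : ∀ ω, X ω < 2 ^ r)
    (h2 : ∀ ω, Y ω < 2 ^ r) : Cmp A (4 * r + 1) (bits fun ω => if s ω then X ω else Y ω) := by
  rw [mul_comm]
  refine cmp_bits (r := r) (fun ω => ?_) (cmp_all _ r fun j _ => ?_)
  · split_ifs
    exacts [h1 ω, h2 ω]
  · simp only [apply_ite (Nat.testBit · j)]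
    exact cmp_mux hs (hX ⟨j, rfl⟩) (hY ⟨j, rfl⟩)

theorem cmp_low (hX : bits X ⊆ A) (r : ℕ) : Cmp A 1 (bits fun ω => X ω % 2 ^ r) := by
  refine cmp_bits (r := r) (n := 0) (fun ω => Nat.mod_lt _ (Nat.two_pow_pos r)) (cmp_refl ?_)
  rintro _ ⟨k, hk, rfl⟩
  refine hX ⟨k, funext fun ω => ?_⟩
  simp [Nat.testBit_mod_two_pow, mem_Iio.1 hk]

end Pool.Agent.Lib.MP_8b1d3b_lc.NG
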