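import Pool.Agent.Lib.MP_8b1d3b_lc.NG.BoolN

/-! Arithmetic modulo a number. -/

open Set

namespace Pool.Agent.Lib.MP_8b1d3b_lc.NG

variable {Ω : Type} {A : Set (Ω → Bool)} {X Y : Ω → ℕ} {r p : ℕ}

theorem boolm_bit [Fact p.Prime] {f : Ω → Bool} (hf : f ∈ A) :
    Cmp A 1 (bits fun ω => (((f ω).toNat : ℕ) : ZMod p).val) := by
  refine (cmp_const A false).mono subset_rfl le_rfl ?_
  have e : ∀ b : Bool, ((b.toNat : ℕ) : ZMod p).val = b.toNat := fun b =>
    ZMod.val_cast_of_lt ((Bool.toNat_le b).trans_lt (Fact.out : p.Prime).one_lt)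
  rintro _ ⟨k, rfl⟩
  rcases k with _ | k
  · refine Or.inl ?_
    have e1 : (fun ω => Nat.testBit (((f ω).toNat : ℕ) : ZMod p).val 0) = f := funext fun ω => by
      rw [e]
      cases f ω <;> rfl
    exact (congrArg (· ∈ A) e1).mpr hf
  · refine Or.inr (funext fun ω => ?_)
    show Nat.testBit (((f ω).toNat : ℕ) : ZMod p).val (k + 1) = false
    rw [e]
    cases f ω <;> simp [Nat.testBit_succ]

/-- `cmp_iter` with the digits of the values of all steps below `j` (`ZMod.val_add`,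
`ZMod.val_mul`). -/
theorem cmp_slp {υ : Type} {m : ℕ} [Fact p.Prime] (hp : p ≤ 2 ^ r)
    {g : Fin (m + 1) → MvPolynomial υ (ZMod p)} (h : Slp g) (i : Fin (m + 1)) :
    Cmp (range fun (v : υ) (B : υ → Bool) => B v) ((m + 1) * (300 * (r + 1) ^ 2))
      (bits fun B => (MvPolynomial.eval (fun v => ((B v).toNat : ZMod p)) (g i)).val) := by
  have hp0 : NeZero p := ⟨(Fact.out : p.Prime).ne_zero⟩
  let V : Fin (m + 1) → (υ → Bool) → ℕ := fun a B =>
    (MvPolynomial.eval (fun v => ((B v).toNat : ZMod p)) (g a)).val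
  let S : ℕ → Set ((υ → Bool) → Bool) := fun j =>
    {f | ∃ a : Fin (m + 1), (a : ℕ) < j ∧ f ∈ bits (V a)}
  have hV : ∀ a B, V a B < p := fun a B => ZMod.val_lt _
  have hr : r + 1 ≤ (r + 1) ^ 2 := Nat.le_self_pow two_ne_zero _
  refine (cmp_iter S (fun f ⟨a, ha, _⟩ => absurd ha (Nat.not_lt_zero _)) (m + 1)
    fun j hj => ?_).mono subset_rfl le_rfl fun f hf => Or.inr ⟨i, i.2, hf⟩
  have hS : ∀ a : Fin (m + 1), a < ⟨j, hj⟩ →
      bits (V a) ⊆ (range fun (v : υ) (B : υ → Bool) => B v) ∪ S j :=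
    fun a ha f hf => Or.inr ⟨a, ha, hf⟩
  have key : Cmp ((range fun (v : υ) (B : υ → Bool) => B v) ∪ S j) (300 * (r + 1) ^ 2)
      (bits (V ⟨j, hj⟩)) := by
    rcases h ⟨j, hj⟩ with ⟨v, e⟩ | ⟨c, e⟩ | ⟨a, b, ha, hb, e | e⟩
    · have e' : V ⟨j, hj⟩ = fun B => (((B v).toNat : ℕ) : ZMod p).val := funext fun B => by
        simp only [V, e, MvPolynomial.eval_X]
      rw [e']
      exact (boolm_bit (f := fun B : υ → Bool => B v) (Or.inl ⟨v, rfl⟩)).mono subset_rfl
        (by omega) subset_union_right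
    · have e' : V ⟨j, hj⟩ = fun _ => c.val := funext fun B => by
        simp only [V, e, MvPolynomial.eval_C]
      rw [e']
      exact (cmp_num _ _).mono subset_rfl (by omega) subset_union_right
    · have e' : V ⟨j, hj⟩ = fun B => (V a B + V b B) % p := funext fun B => by
        simp only [V, e, map_add, ZMod.val_add]
      rw [e']
      exact (cmp_addmod hp (hS a ha) (hS b hb) (hV a) (hV b)).mono subset_rfl (by omega)
        subset_union_right
    · have e' : V ⟨j, hj⟩ = fun B => (V a B * V b B) % p := funext fun B => by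
        simp only [V, e, map_mul, ZMod.val_mul]
      rw [e']
      exact cmp_mulmod hp (hS a ha) (hS b hb) (hV a) (hV b)
  refine key.mono subset_rfl le_rfl ?_
  rintro f ⟨a, ha, hf⟩
  rcases Nat.lt_succ_iff_lt_or_eq.1 ha with k | k
  · exact Or.inl (Or.inr ⟨a, k, hf⟩)
  · subst k
    exact Or.inr hf

end Pool.Agent.Lib.MP_8b1d3b_lc.NG
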