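import Pool.Agent.Lib.MP_8b1d3b_lc.NG.UnivA

/-! The shape of a program. -/

open MvPolynomial
open scoped Polynomial

namespace Pool.Agent.Lib.MP_8b1d3b_lc.NG

theorem bd_per (n : ℕ) : Bd (per n ℤ) n n.factorial := by
  have h := bd_sum (Finset.univ : Finset (Equiv.Perm (Fin n)))
    (F := fun s => ∏ i : Fin n, (X (s i, i) : MvPolynomial (Fin n × Fin n) ℤ))
    (fun s _ => bd_prod Finset.univ fun i _ => bd_X (s i, i))
  simp only [Finset.card_univ, Fintype.card_perm, Fintype.card_fin, mul_one, one_pow] at h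
  exact h

theorem sp_per {σ K : Type} [CommRing K] (n : ℕ) (x : σ → K) :
    sp x (rename Sum.inl (per n ℤ)) = per n K := by
  simp only [Matrix.permanent, map_sum, map_prod, Matrix.of_apply, rename_X, sp_inl]

theorem eval_per (n : ℕ) (K : Type) [CommRing K] (A : Fin n × Fin n → Bool) :
    eval (fun v => ((A v).toNat : K)) (per n K) =
      ((Matrix.permanent (Matrix.of fun i j => (A (i, j)).toNat) : ℕ) : K) := by
  simp only [Matrix.permanent, map_sum, map_prod, Matrix.of_apply, eval_X, Nat.cast_sum,
    Nat.cast_prod]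

theorem per_le (n : ℕ) (A : Fin n × Fin n → Bool) :
    Matrix.permanent (Matrix.of fun i j => (A (i, j)).toNat) ≤ n.factorial := by
  have h := Finset.sum_le_card_nsmul (Finset.univ : Finset (Equiv.Perm (Fin n)))
    (fun s => ∏ i : Fin n, (A (s i, i)).toNat) 1
    (fun s _ => Finset.prod_le_one' fun i _ => Bool.toNat_le _)
  simp only [Finset.card_univ, Fintype.card_perm, Fintype.card_fin, smul_eq_mul, mul_one] at h
  exact h

end Pool.Agent.Lib.MP_8b1d3b_lc.NG
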