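import Pool.Agent.Lib.MP_8b1d3b_lc.NG.BoolA
import Pool.Agent.Lib.MP_8b1d3b_lc.NG.Univ

/-! Arithmetic modulo a number. -/

open Set

namespace Pool.Agent.Lib.MP_8b1d3b_lc.NG

variable {Ω : Type} {A : Set (Ω → Bool)} {X Y : Ω → ℕ} {r p : ℕ}

/-- `S = X + Y`, `T = S + (2 ^ (r + 1) - p)`; digit `r + 1` of `T` says `p ≤ S`, and then
`T % 2 ^ (r + 1) = S - p`. -/
theorem cmp_addmod (hp : p ≤ 2 ^ r) (hX : bits X ⊆ A) (hY : bits Y ⊆ A) (h1 : ∀ ω, X ω < p)
    (h2 : ∀ ω, Y ω < p) : Cmp A (100 * (r + 1)) (bits fun ω => (X ω + Y ω) % p) := by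
  have e2 : 2 ^ (r + 1) = 2 * 2 ^ r := by rw [pow_succ]; ring
  have hS : ∀ ω, X ω + Y ω < 2 ^ (r + 1) := fun ω => by
    have := h1 ω
    have := h2 ω
    omega
  have hc : ∀ ω : Ω, (fun _ : Ω => 2 ^ (r + 1) - p) ω < 2 ^ (r + 1) := fun ω => by
    have := h1 ω
    show 2 ^ (r + 1) - p < 2 ^ (r + 1)
    omega
  have c1 : Cmp A (20 * (r + 1)) (bits fun ω => X ω + Y ω) :=
    cmp_add hX hY (fun ω => (h1 ω).trans_le hp) fun ω => (h2 ω).trans_le hp
  have c2 := c1.trans (cmp_num _ (2 ^ (r + 1) - p))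
  have c3 := c2.trans (cmp_add (X := fun ω => X ω + Y ω) (Y := fun _ => 2 ^ (r + 1) - p)
    (r := r + 1) (fun f hf => Or.inr (Or.inl hf)) (fun f hf => Or.inr (Or.inr hf)) hS hc)
  have c4 := c3.trans (cmp_low (X := fun ω => X ω + Y ω + (2 ^ (r + 1) - p))
    (fun f hf => Or.inr (Or.inr hf)) (r + 1))
  have c5 := c4.trans (cmp_ite
    (s := fun ω => (X ω + Y ω + (2 ^ (r + 1) - p)).testBit (r + 1))
    (X := fun ω => (X ω + Y ω + (2 ^ (r + 1) - p)) % 2 ^ (r + 1)) (Y := fun ω => X ω + Y ω)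
    (r := r + 1) (Or.inr (Or.inl (Or.inr ⟨r + 1, rfl⟩))) (fun f hf => Or.inr (Or.inr hf))
    (fun f hf => Or.inr (Or.inl (Or.inl (Or.inl hf))))
    (fun ω => Nat.mod_lt _ (Nat.two_pow_pos _)) hS)
  have e : (fun ω => (X ω + Y ω) % p) = fun ω =>
      if (X ω + Y ω + (2 ^ (r + 1) - p)).testBit (r + 1) then
        (X ω + Y ω + (2 ^ (r + 1) - p)) % 2 ^ (r + 1) else X ω + Y ω := by
    funext ω
    have a1 := h1 ω
    have a2 := h2 ω
    by_cases hs : X ω + Y ω < p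
    · rw [Nat.testBit_lt_two_pow (by omega), Nat.mod_eq_of_lt hs]
      simp
    · have a3 : X ω + Y ω + (2 ^ (r + 1) - p) = 2 ^ (r + 1) + (X ω + Y ω - p) := by omega
      have a4 : X ω + Y ω - p < 2 ^ (r + 1) := by omega
      rw [a3, Nat.testBit_two_pow_add_eq, Nat.testBit_lt_two_pow a4, Nat.add_mod_left,
        Nat.mod_eq_of_lt a4, Nat.mod_eq_sub_mod (not_lt.1 hs), Nat.mod_eq_of_lt (by omega)]
      simp
  rw [e]
  exact c5.mono subset_rfl (by omega) fun f hf => Or.inr (Or.inr hf)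

/-- `cmp_iter` with the digits of `X * 2 ^ j % p` and of `X * (Y % 2 ^ j) % p`. -/
theorem cmp_mulmod (hp : p ≤ 2 ^ r) (hX : bits X ⊆ A) (hY : bits Y ⊆ A) (h1 : ∀ ω, X ω < p)
    (h2 : ∀ ω, Y ω < p) : Cmp A (300 * (r + 1) ^ 2) (bits fun ω => (X ω * Y ω) % p) := by
  have hp0 : ∀ ω : Ω, 0 < p := fun ω => (Nat.zero_le _).trans_lt (h1 ω)
  have c0 := cmp_num A 0
  have c1 : Cmp (A ∪ bits fun _ => 0) (r * (204 * r + 201))
      ((bits fun ω => X ω * 2 ^ r % p) ∪ bits fun ω => X ω * (Y ω % 2 ^ r) % p) := by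
    refine cmp_iter (fun j => (bits fun ω => X ω * 2 ^ j % p) ∪
      bits fun ω => X ω * (Y ω % 2 ^ j) % p) ?_ r fun j _ => ?_
    · have e1 : (fun ω => X ω * 2 ^ 0 % p) = X := funext fun ω => by
        rw [pow_zero, mul_one, Nat.mod_eq_of_lt (h1 ω)]
      have e2 : (fun ω => X ω * (Y ω % 2 ^ 0) % p) = fun _ => 0 := funext fun ω => by
        rw [pow_zero, Nat.mod_one, mul_zero, Nat.zero_mod]
      show (bits fun ω => X ω * 2 ^ 0 % p) ∪ (bits fun ω => X ω * (Y ω % 2 ^ 0) % p) ⊆ _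
      rw [e1, e2]
      exact union_subset_union_left _ hX
    · have hU : ∀ ω, X ω * 2 ^ j % p < p := fun ω => Nat.mod_lt _ (hp0 ω)
      have hV : ∀ ω, X ω * (Y ω % 2 ^ j) % p < p := fun ω => Nat.mod_lt _ (hp0 ω)
      have d1 : Cmp ((A ∪ bits fun _ => 0) ∪ ((bits fun ω => X ω * 2 ^ j % p) ∪
          bits fun ω => X ω * (Y ω % 2 ^ j) % p)) (100 * (r + 1))
          (bits fun ω => (X ω * 2 ^ j % p + X ω * 2 ^ j % p) % p) :=
        cmp_addmod hp (fun f hf => Or.inr (Or.inl hf)) (fun f hf => Or.inr (Or.inl hf)) hU hU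
      have d2 := d1.trans (cmp_ite (s := fun ω => (Y ω).testBit j)
        (X := fun ω => X ω * 2 ^ j % p) (Y := fun _ => 0) (r := r)
        (Or.inl (Or.inl (Or.inl (hY ⟨j, rfl⟩)))) (fun f hf => Or.inl (Or.inr (Or.inl hf)))
        (fun f hf => Or.inl (Or.inl (Or.inr hf))) (fun ω => (hU ω).trans_le hp)
        fun ω => Nat.two_pow_pos _)
      have d3 := d2.trans (cmp_addmod (X := fun ω => X ω * (Y ω % 2 ^ j) % p)
        (Y := fun ω => if (Y ω).testBit j then X ω * 2 ^ j % p else 0) hp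
        (fun f hf => Or.inl (Or.inr (Or.inr hf))) (fun f hf => Or.inr (Or.inr hf)) hV fun ω => by
          split_ifs
          · exact hU ω
          · exact hp0 ω)
      have e1 : (fun ω => X ω * 2 ^ (j + 1) % p) =
          fun ω => (X ω * 2 ^ j % p + X ω * 2 ^ j % p) % p := funext fun ω => by
        rw [← Nat.add_mod, pow_succ, ← mul_assoc, mul_two]
      have e2 : (fun ω => X ω * (Y ω % 2 ^ (j + 1)) % p) = fun ω => (X ω * (Y ω % 2 ^ j) % p +
          if (Y ω).testBit j then X ω * 2 ^ j % p else 0) % p := funext fun ω => by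
        rw [Nat.mod_pow_succ, Nat.testBit_eq_decide_div_mod_eq]
        rcases Nat.mod_two_eq_zero_or_one (Y ω / 2 ^ j) with h | h
        · rw [h]
          simp
        · rw [h, mul_one, mul_add, Nat.add_mod]
          simp
      show Cmp _ _ ((bits fun ω => X ω * 2 ^ (j + 1) % p) ∪
        bits fun ω => X ω * (Y ω % 2 ^ (j + 1)) % p)
      rw [e1, e2]
      refine d3.mono subset_rfl (by omega) fun f hf => ?_
      rcases hf with hf | hf
      · exact Or.inr (Or.inl (Or.inl hf))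
      · exact Or.inr (Or.inr hf)
  have e : (fun ω => X ω * Y ω % p) = fun ω => X ω * (Y ω % 2 ^ r) % p := funext fun ω => by
    rw [Nat.mod_eq_of_lt ((h2 ω).trans_le hp)]
  rw [e]
  exact (c0.trans c1).mono subset_rfl (by nlinarith) fun f hf => Or.inr (Or.inr (Or.inr hf))

end Pool.Agent.Lib.MP_8b1d3b_lc.NG
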