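import Mathlib

/-! Circuits of negated conjunctions. -/

open Set

namespace Pool.Agent.Lib.MP_8b1d3b_lc.NG

variable {Ω : Type}

/-- Each member of the list is a constant or a gate applied to earlier functions. -/
def Ok (A : Set (Ω → Bool)) : List (Ω → Bool) → Prop
  | [] => True
  | f :: L => Ok A L ∧ ((∃ b, f = fun _ => b) ∨
      ∃ g h, (g ∈ A ∨ g ∈ L) ∧ (h ∈ A ∨ h ∈ L) ∧ f = fun ω => !(g ω && h ω))

/-- The members of `B` are computed from `A` with at most `n` gates. -/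
def Cmp (A : Set (Ω → Bool)) (n : ℕ) (B : Set (Ω → Bool)) : Prop :=
  ∃ L, Ok A L ∧ L.length ≤ n ∧ ∀ f ∈ B, f ∈ A ∨ f ∈ L

/-- The binary digits. -/
def bits (X : Ω → ℕ) : Set (Ω → Bool) := range fun k ω => (X ω).testBit k

variable {A A' B B' : Set (Ω → Bool)} {n k : ℕ} {f g s : Ω → Bool}

theorem boolo_app {L : List (Ω → Bool)} (h : Ok A L) (k : ∀ g ∈ A', g ∈ A ∨ g ∈ L) :
    ∀ {L' : List (Ω → Bool)}, Ok A' L' → Ok A (L' ++ L)
  | [], _ => h
  | _ :: L', h' => by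
    have e : ∀ g, g ∈ A' ∨ g ∈ L' → g ∈ A ∨ g ∈ L' ++ L := fun g hg =>
      hg.elim (fun a => (k g a).imp_right (List.mem_append_right _))
        fun a => .inr (List.mem_append_left _ a)
    exact ⟨boolo_app h k h'.1, h'.2.imp_right fun ⟨g, g', a, b, c⟩ => ⟨g, g', e g a, e g' b, c⟩⟩

theorem boolo_nand (h : Cmp A n B) (hf : f ∈ A ∪ B) (hg : g ∈ A ∪ B) :
    Cmp A (n + 1) (insert (fun ω => !(f ω && g ω)) B) := by
  obtain ⟨L, h1, h2, h3⟩ := h
  refine ⟨_ :: L, ⟨h1, .inr ⟨f, g, hf.elim .inl (h3 f), hg.elim .inl (h3 g), rfl⟩⟩,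
    Nat.succ_le_succ h2, ?_⟩
  rintro u (rfl | hu)
  exacts [.inr List.mem_cons_self, (h3 u hu).imp_right (List.mem_cons_of_mem _)]

theorem Cmp.mono (h : Cmp A n B) (h1 : A ⊆ A') (h2 : n ≤ k) (h3 : B' ⊆ A' ∪ B) : Cmp A' k B' := by
  obtain ⟨L, a, b, c⟩ := h
  refine ⟨L ++ [], boolo_app (A := A') (L := []) trivial (fun g hg => .inl (h1 hg)) a, ?_, fun u hu => ?_⟩
  · rw [List.append_nil]
    exact b.trans h2
  · rw [List.append_nil]
    exact (h3 hu).elim .inl fun e => (c u e).imp_left fun e => h1 e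

theorem cmp_refl (h : B ⊆ A) : Cmp A 0 B := by
  exact ⟨[], trivial, le_rfl, fun u hu => .inl (h hu)⟩

theorem Cmp.trans (h : Cmp A n B) (h' : Cmp (A ∪ B) k B') : Cmp A (n + k) (B ∪ B') := by
  obtain ⟨L, a, b, c⟩ := h
  obtain ⟨L', a', b', c'⟩ := h'
  have e : ∀ u ∈ A ∪ B, u ∈ A ∨ u ∈ L := fun u hu => hu.elim .inl (c u)
  refine ⟨L' ++ L, boolo_app a e a', ?_, ?_⟩
  · rw [List.length_append]
    omega
  · rintro u (hu | hu)
    · exact (c u hu).imp_right (List.mem_append_right _)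
    · exact (c' u hu).elim (fun z => (e u z).imp_right (List.mem_append_right _))
        fun z => .inr (List.mem_append_left _ z)

theorem cmp_iter (S : ℕ → Set (Ω → Bool)) (h0 : S 0 ⊆ A) (r : ℕ)
    (h : ∀ j < r, Cmp (A ∪ S j) k (S (j + 1))) : Cmp A (r * k) (S r) := by
  induction r with
  | zero => exact (cmp_refl h0).mono Subset.rfl (Nat.zero_le _) subset_union_right
  | succ r ih =>
    exact ((ih fun j hj => h j (hj.trans r.lt_succ_self)).trans (h r r.lt_succ_self)).mono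
      Subset.rfl (Nat.succ_mul r k).ge fun u hu => .inr (.inr hu)

theorem cmp_all (F : ℕ → Ω → Bool) (r : ℕ) (h : ∀ j < r, Cmp A k {F j}) :
    Cmp A (r * k) (F '' Iio r) := by
  refine cmp_iter (fun j => F '' Iio j) (fun _ ⟨_, hj, _⟩ => absurd hj (Nat.not_lt_zero _)) r
    fun j hj => (h j hj).mono subset_union_left le_rfl ?_
  rintro _ ⟨i, hi, rfl⟩
  rcases Nat.lt_succ_iff_lt_or_eq.1 hi with e | rfl
  exacts [.inl (.inr ⟨i, e, rfl⟩), .inr rfl]

theorem cmp_const (A : Set (Ω → Bool)) (b : Bool) : Cmp A 1 {fun _ => b} := by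
  exact ⟨[fun _ => b], ⟨trivial, .inl ⟨b, rfl⟩⟩, le_rfl, fun u hu => .inr (List.mem_singleton.2 hu)⟩

theorem cmp_and (hf : f ∈ A) (hg : g ∈ A) : Cmp A 2 {fun ω => f ω && g ω} := by
  have h1 := boolo_nand (cmp_refl (empty_subset A)) (.inl hf) (.inl hg)
  have h2 := boolo_nand h1 (.inr (.inl rfl)) (.inr (.inl rfl))
  refine h2.mono Subset.rfl le_rfl ?_
  rintro _ rfl
  refine .inr (.inl (funext fun ω => ?_))
  cases f ω <;> cases g ω <;> rfl

theorem cmp_or (hf : f ∈ A) (hg : g ∈ A) : Cmp A 3 {fun ω => f ω || g ω} := by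
  have h1 := boolo_nand (cmp_refl (empty_subset A)) (.inl hf) (.inl hf)
  have h2 := boolo_nand h1 (.inl hg) (.inl hg)
  have h3 := boolo_nand h2 (.inr (.inr (.inl rfl))) (.inr (.inl rfl))
  refine h3.mono Subset.rfl le_rfl ?_
  rintro _ rfl
  refine .inr (.inl (funext fun ω => ?_))
  cases f ω <;> cases g ω <;> rfl

theorem cmp_xor (hf : f ∈ A) (hg : g ∈ A) : Cmp A 4 {fun ω => f ω ^^ g ω} := by
  have h1 := boolo_nand (cmp_refl (empty_subset A)) (.inl hf) (.inl hg)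
  have h2 := boolo_nand h1 (.inl hf) (.inr (.inl rfl))
  have h3 := boolo_nand h2 (.inl hg) (.inr (.inr (.inl rfl)))
  have h4 := boolo_nand h3 (.inr (.inr (.inl rfl))) (.inr (.inl rfl))
  refine h4.mono Subset.rfl le_rfl ?_
  rintro _ rfl
  refine .inr (.inl (funext fun ω => ?_))
  cases f ω <;> cases g ω <;> rfl

theorem cmp_mux (hs : s ∈ A) (hf : f ∈ A) (hg : g ∈ A) :
    Cmp A 4 {fun ω => if s ω then f ω else g ω} := by
  have h1 := boolo_nand (cmp_refl (empty_subset A)) (.inl hs) (.inl hs)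
  have h2 := boolo_nand h1 (.inl hg) (.inr (.inl rfl))
  have h3 := boolo_nand h2 (.inl hs) (.inl hf)
  have h4 := boolo_nand h3 (.inr (.inr (.inl rfl))) (.inr (.inl rfl))
  refine h4.mono Subset.rfl le_rfl ?_
  rintro _ rfl
  refine .inr (.inl (funext fun ω => ?_))
  cases s ω <;> cases f ω <;> cases g ω <;> rfl

/-- The digits from `r` on are the constant `false`. -/
theorem cmp_bits {X : Ω → ℕ} {r : ℕ} (hX : ∀ ω, X ω < 2 ^ r)
    (h : Cmp A n ((fun k ω => (X ω).testBit k) '' Iio r)) : Cmp A (n + 1) (bits X) := by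
  refine (h.trans (cmp_const _ false)).mono Subset.rfl le_rfl ?_
  rintro _ ⟨k, rfl⟩
  rcases lt_or_ge k r with e | e
  · exact .inr (.inl ⟨k, e, rfl⟩)
  · exact .inr (.inr (funext fun ω => Nat.testBit_lt_two_pow
      ((hX ω).trans_le (Nat.pow_le_pow_right two_pos e))))

end Pool.Agent.Lib.MP_8b1d3b_lc.NG
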