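import Pool.Agent.Lib.MP_8b1d3b_lc.NG.CopA

/-! Monic irreducible factors over a factorial ring. -/

open Polynomial

namespace Pool.Agent.Lib.MP_8b1d3b_lc.NG

variable {R : Type} [CommRing R] [IsDomain R] [UniqueFactorizationMonoid R]

omit [IsDomain R] [UniqueFactorizationMonoid R] in
/-- A simple zero of a product is a simple zero of exactly one factor. -/
theorem simple_factor {ι K : Type} [Field K] (s : Finset ι) (Φ : ι → R[X]) (χ : R →+* K) (y : K)
    (h0 : (∏ i ∈ s, Φ i).eval₂ χ y = 0) (h1 : (derivative (∏ i ∈ s, Φ i)).eval₂ χ y ≠ 0) :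
    ∃ i ∈ s, (Φ i).eval₂ χ y = 0 ∧ (derivative (Φ i)).eval₂ χ y ≠ 0 ∧
      ∀ j ∈ s, (Φ j).eval₂ χ y = 0 → j = i := by
  classical
  rw [eval₂_finsetProd, Finset.prod_eq_zero_iff] at h0
  obtain ⟨i, hi, h2⟩ := h0
  rw [← Finset.mul_prod_erase s Φ hi, derivative_mul, eval₂_add, eval₂_mul, eval₂_mul, h2, zero_mul,
    add_zero, mul_ne_zero_iff, eval₂_finsetProd, Finset.prod_ne_zero_iff] at h1
  refine ⟨i, hi, h2, h1.1, fun j hj h3 => ?_⟩
  by_contra hne
  exact h1.2 j (Finset.mem_erase.2 ⟨hne, hj⟩) h3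

omit [UniqueFactorizationMonoid R] in
/-- If a factor were reducible there would be a factorisation with one more monic factor. -/
theorem irr_of_max {κ : ℕ} (B : Fin κ → R[X]) (hB : ∀ k, (B k).Monic ∧ 0 < (B k).natDegree)
    (h : ∀ B' : Fin (κ + 1) → R[X], (∀ k, (B' k).Monic ∧ 0 < (B' k).natDegree) →
      ∏ k, B' k ≠ ∏ k, B k) (k : Fin κ) : Irreducible (B k) := by
  refine (hB k).1.irreducible_iff_natDegree.2 ⟨fun e => ?_, fun f g hf hg e => ?_⟩
  · have h1 := (hB k).2
    rw [e, natDegree_one] at h1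
    exact lt_irrefl _ h1
  · by_contra hne
    rw [not_or] at hne
    refine h (Fin.cons f (Function.update B k g)) (fun j => ?_) ?_
    · refine Fin.cases ⟨hf, Nat.pos_of_ne_zero hne.1⟩ (fun j => ?_) j
      rw [Fin.cons_succ]
      by_cases hj : j = k
      · rw [hj, Function.update_self]
        exact ⟨hg, Nat.pos_of_ne_zero hne.2⟩
      · rw [Function.update_of_ne hj]
        exact hB j
    · rw [Fin.prod_cons, Finset.prod_update_of_mem (Finset.mem_univ k), ← mul_assoc, e,
        Finset.sdiff_singleton_eq_erase, Finset.mul_prod_erase _ _ (Finset.mem_univ k)]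

end Pool.Agent.Lib.MP_8b1d3b_lc.NG
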