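import Pool.Agent.Lib.MP_8b1d3b_lc.NG.Def

/-! Monic irreducible factors over a factorial ring. -/

open Polynomial

namespace Pool.Agent.Lib.MP_8b1d3b_lc.NG

variable {R : Type} [CommRing R] [IsDomain R] [UniqueFactorizationMonoid R]

omit [UniqueFactorizationMonoid R] in
theorem copa_clear {f g : R[X]}
    (h : IsCoprime (f.map (algebraMap R (FractionRing R))) (g.map (algebraMap R (FractionRing R)))) :
    ∃ (ρ : R) (a b : R[X]), ρ ≠ 0 ∧ a * f + b * g = C ρ := by
  obtain ⟨u, v, huv⟩ := h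
  obtain ⟨s, hs, hu⟩ := IsLocalization.integerNormalization_spec (nonZeroDivisors R) u
  obtain ⟨t, ht, hv⟩ := IsLocalization.integerNormalization_spec (nonZeroDivisors R) v
  refine ⟨s * t, C t * IsLocalization.integerNormalization (nonZeroDivisors R) u,
    C s * IsLocalization.integerNormalization (nonZeroDivisors R) v,
    mul_ne_zero (nonZeroDivisors.ne_zero hs) (nonZeroDivisors.ne_zero ht), ?_⟩
  apply Polynomial.map_injective _ (IsFractionRing.injective R (FractionRing R))
  simp only [Polynomial.map_add, Polynomial.map_mul, Polynomial.map_C, hu, hv, map_mul,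
    Algebra.smul_def, Polynomial.algebraMap_apply]
  linear_combination
    (C (algebraMap R (FractionRing R) s) * C (algebraMap R (FractionRing R) t)) * huv

theorem copa_cop {Φ E : R[X]} (hm : Φ.Monic) (hi : Irreducible Φ) (h : ¬ Φ ∣ E) :
    IsCoprime (Φ.map (algebraMap R (FractionRing R))) (E.map (algebraMap R (FractionRing R))) := by
  have h1 : Irreducible (Φ.map (algebraMap R (FractionRing R))) :=
    (hm.irreducible_iff_irreducible_map_fraction_map).1 hi
  rw [h1.coprime_iff_not_dvd,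
    Polynomial.map_dvd_map _ (IsFractionRing.injective R (FractionRing R)) hm]
  exact h

omit [UniqueFactorizationMonoid R] in
theorem copa_ne {Φ Ψ : R[X]} (h1 : Φ.Monic ∧ Irreducible Φ) (h2 : Ψ.Monic ∧ Irreducible Ψ)
    (hne : Φ ≠ Ψ) : ¬ Φ ∣ Ψ := fun h =>
  hne (eq_of_monic_of_associated h1.1 h2.1 (h1.2.associated_of_dvd h2.2 h))

theorem monic_factors {f : R[X]} (hf : f.Monic) :
    ∃ s : Multiset R[X], (∀ Φ ∈ s, Φ.Monic ∧ Irreducible Φ) ∧ s.prod = f := by
  induction hn : f.natDegree using Nat.strong_induction_on generalizing f with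
  | _ n ih =>
    by_cases h1 : f = 1
    · exact ⟨0, by simp, by simp [h1]⟩
    have hu : ¬ IsUnit f := fun h => h1 (hf.isUnit_iff.1 h)
    obtain ⟨g, hg, k, hk⟩ := WfDvdMonoid.exists_irreducible_factor hu hf.ne_zero
    have hl : g.leadingCoeff * k.leadingCoeff = 1 := by
      rw [← leadingCoeff_mul, ← hk, hf.leadingCoeff]
    have hg' : (g * C k.leadingCoeff).Monic := monic_mul_C_of_leadingCoeff_mul_eq_one hl
    have hk' : (k * C g.leadingCoeff).Monic :=
      monic_mul_C_of_leadingCoeff_mul_eq_one (by rw [mul_comm, hl])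
    have hcu : IsUnit (C k.leadingCoeff) :=
      isUnit_C.2 (IsUnit.of_mul_eq_one g.leadingCoeff (by rw [mul_comm, hl]))
    have hgi : Irreducible (g * C k.leadingCoeff) := (irreducible_mul_isUnit hcu).2 hg
    have he : g * C k.leadingCoeff * (k * C g.leadingCoeff) = f := by
      have : C g.leadingCoeff * C k.leadingCoeff = 1 := by rw [← C_mul, hl, C_1]
      rw [hk]
      linear_combination (g * k) * this
    have hd : (k * C g.leadingCoeff).natDegree < n := by
      have h2 := hg'.natDegree_mul hk'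
      rw [he, hn] at h2
      have h3 : (g * C k.leadingCoeff).natDegree ≠ 0 := fun h =>
        hgi.not_isUnit (hg'.isUnit_iff.2 (hg'.natDegree_eq_zero.1 h))
      omega
    obtain ⟨s, hs, hp⟩ := ih _ hd hk' rfl
    refine ⟨(g * C k.leadingCoeff) ::ₘ s, fun Φ hΦ => ?_, by rw [Multiset.prod_cons, hp, he]⟩
    rcases Multiset.mem_cons.1 hΦ with rfl | hΦ
    · exact ⟨hg', hgi⟩
    · exact hs Φ hΦ

/-- Over the fraction field `Φ` is irreducible (`Monic.irreducible_iff_irreducible_map_fraction_map`)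
and does not divide `E` (`Monic.dvd_iff_fraction_map_dvd_fraction_map`); clear denominators. -/
theorem cop_of_not_dvd {Φ E : R[X]} (hm : Φ.Monic) (hi : Irreducible Φ) (h : ¬ Φ ∣ E) :
    ∃ (ρ : R) (a b : R[X]), ρ ≠ 0 ∧ a * Φ + b * E = C ρ := by
  exact copa_clear (copa_cop hm hi h)

theorem prod_dvd_of_monic {s : Finset R[X]} (hs : ∀ Φ ∈ s, Φ.Monic ∧ Irreducible Φ) {f : R[X]}
    (h : ∀ Φ ∈ s, Φ ∣ f) : ∏ Φ ∈ s, Φ ∣ f := by
  refine Finset.prod_dvd_of_isRelPrime (s := fun Φ => Φ) (fun Φ hΦ Ψ hΨ hne => ?_) h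
  exact (hs Φ hΦ).2.isRelPrime_iff_not_dvd.2 (copa_ne (hs Φ hΦ) (hs Ψ hΨ) hne)

theorem sep_prod [CharZero R] {s : Finset R[X]} (hs : ∀ Φ ∈ s, Φ.Monic ∧ Irreducible Φ) :
    Sep (∏ Φ ∈ s, Φ) := by
  have h : ((∏ Φ ∈ s, Φ).map (algebraMap R (FractionRing R))).Separable := by
    rw [Polynomial.map_prod]
    refine separable_prod' (fun Φ hΦ Ψ hΨ hne => ?_) fun Φ hΦ => ?_
    · exact copa_cop (hs Φ hΦ).1 (hs Φ hΦ).2 (copa_ne (hs Φ hΦ) (hs Ψ hΨ) hne)
    · exact (((hs Φ hΦ).1.irreducible_iff_irreducible_map_fraction_map).1 (hs Φ hΦ).2).separable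
  rw [separable_def, Polynomial.derivative_map] at h
  exact copa_clear h

end Pool.Agent.Lib.MP_8b1d3b_lc.NG
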