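import Pool.Agent.Lib.MP_8b1d3b_lc.NG.GDef
import Pool.Agent.Lib.MP_8b1d3b_lc.NG.Cop
import Pool.Agent.Lib.MP_33b3f9_ag.M4.NTFrobC

/-! Every automorphism fixes a factor. -/

open Polynomial NumberField

namespace Pool.Agent.Lib.MP_8b1d3b_lc.NG

theorem fixed_act {L : Type} [Field L] [NumberField L] (φ : L ≃ₐ[ℚ] L) (x : 𝓞 L) :
    ((act φ x : 𝓞 L) : L) = φ x := rfl

/-- An automorphism of a field containing `L` restricts to `L`. -/
theorem fixed_res {L Ω : Type} [Field L] [NumberField L] [IsGalois ℚ L] [Field Ω] [CharZero Ω]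
    (e : L →+* Ω) (τ : Ω →+* Ω) : ∃ h : L ≃ₐ[ℚ] L, ∀ x, τ (e x) = e (h x) := by
  let _ : Algebra L Ω := e.toAlgebra
  have : IsScalarTower ℚ L Ω := .of_algebraMap_eq' (Subsingleton.elim _ _)
  refine ⟨AlgHom.restrictNormal' τ.toRatAlgHom L, fun x => ?_⟩
  exact (AlgHom.restrictNormal_commutes τ.toRatAlgHom L x).symm

/-- A simple point modulo `q` lifts to a simple point over the `q`-adic numbers. -/
theorem fixed_lift {σ : Type} {f : (MvPolynomial σ ℤ)[X]} {q : ℕ} [Fact q.Prime]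
    {z : σ → ZMod q} {y : ZMod q} (h0 : f.eval₂ (ev z) y = 0)
    (h1 : (derivative f).eval₂ (ev z) y ≠ 0) : ∃ (w : σ → ℤ) (η : ℚ_[q]),
      f.eval₂ (ev fun i => (w i : ℚ_[q])) η = 0 ∧
        (derivative f).eval₂ (ev fun i => (w i : ℚ_[q])) η ≠ 0 := by
  choose w hw using fun i => ZMod.intCast_surjective (z i)
  have key : ∀ (A : Type) [CommRing A] (a : A) (g : (MvPolynomial σ ℤ)[X]),
      aeval a (g.map (ev w)) = g.eval₂ (ev fun i => (w i : A)) a := fun A _ a g => by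
    rw [aeval_def, eval₂_map]
    congr 1
    exact hom_ext fun i => by simp
  have hz : z = fun i => (w i : ZMod q) := funext fun i => (hw i).symm
  rw [hz, ← key] at h0 h1
  rw [← derivative_map] at h1
  obtain ⟨η, ⟨e0, e1⟩, -⟩ := M4.NT.emb_hensel _ y h0 h1
  refine ⟨w, η, ?_, ?_⟩
  · rw [← key]
    have := M4.NT.emb_aeval (PadicInt.Coe.ringHom (p := q)) η (f.map (ev w))
    rw [e0, map_zero] at this
    exact this.symm
  · rw [← key, ← derivative_map]
    have := M4.NT.emb_aeval (PadicInt.Coe.ringHom (p := q)) η (derivative (f.map (ev w)))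
    intro h
    have h2 : aeval η (derivative (f.map (ev w))) = 0 := Subtype.ext (this.trans h)
    apply h1
    rw [← e1, ← M4.NT.emb_aeval, h2, map_zero]

/-- From the division theorem of Frobenius. -/
theorem fixed {σ L : Type} [Field L] [NumberField L] [IsGalois ℚ L] {κ : ℕ}
    {f : (MvPolynomial σ ℤ)[X]} {Ψ : Fin κ → (MvPolynomial σ (𝓞 L))[X]}
    (h1 : ∏ k, Ψ k = f.map (MvPolynomial.map (Int.castRingHom (𝓞 L))))
    (h2 : ∀ (φ : L ≃ₐ[ℚ] L) (k : Fin κ), ∃ k', (Ψ k).map (MvPolynomial.map (act φ)) = Ψ k')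
    (h : Smo f) (φ : L ≃ₐ[ℚ] L) : ∃ k, (Ψ k).map (MvPolynomial.map (act φ)) = Ψ k := by
  obtain ⟨q0, hq0⟩ := h
  obtain ⟨q, ⟨hq, e, he⟩, hq1⟩ := (M4.NT.frob L φ.toRingEquiv).exists_ge q0
  obtain ⟨z, y, hz0, hz1⟩ := hq0 q hq1
  obtain ⟨w, η, e0, e1⟩ := fixed_lift hz0 hz1
  let j := algebraMap ℚ_[q] (PadicAlgCl q)
  let χ : MvPolynomial σ (𝓞 L) →+* PadicAlgCl q :=
    MvPolynomial.eval₂Hom (e.comp (algebraMap (𝓞 L) L)) fun i => (w i : PadicAlgCl q)
  have key : ∀ g : (MvPolynomial σ ℤ)[X],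
      (g.map (MvPolynomial.map (Int.castRingHom (𝓞 L)))).eval₂ χ (j η) =
        j (g.eval₂ (ev fun i => (w i : ℚ_[q])) η) := fun g => by
    rw [eval₂_map, hom_eval₂]
    congr 1
    exact hom_ext fun i => by simp [χ]
  obtain ⟨k, -, hk, -, hu⟩ := simple_factor Finset.univ Ψ χ (j η)
    (by rw [h1, key, e0, map_zero])
    (by rw [h1, derivative_map, key]; exact (map_ne_zero j).2 e1)
  refine ⟨k, ?_⟩
  have hG : IsGalois ℚ_[q] (PadicAlgCl q) := IsAlgClosure.isGalois _ _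
  ext n m
  rw [coeff_map, MvPolynomial.coeff_map, fixed_act]
  refine (he _).1 ((InfiniteGalois.mem_range_algebraMap_iff_fixed (k := ℚ_[q]) _).2 fun τ => ?_)
  obtain ⟨g, hg⟩ := fixed_res e (τ : PadicAlgCl q →+* PadicAlgCl q)
  obtain ⟨k', hk'⟩ := h2 g k
  have h3 : k' = k := hu k' (Finset.mem_univ _) (by
    have h4 := congrArg (τ : PadicAlgCl q →+* PadicAlgCl q) hk
    rw [map_zero, hom_eval₂] at h4
    rw [← hk', eval₂_map, ← h4]
    congr 1
    · refine MvPolynomial.ringHom_ext (fun c => ?_) fun i => by simp [χ]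
      simp only [χ, RingHom.comp_apply, MvPolynomial.map_C, MvPolynomial.eval₂Hom_C]
      exact (hg c).symm
    · exact (τ.commutes η).symm)
  have h5 := congrArg (fun P : (MvPolynomial σ (𝓞 L))[X] => (((P.coeff n).coeff m : 𝓞 L) : L)) hk'
  simp only [h3, coeff_map, MvPolynomial.coeff_map, fixed_act] at h5
  exact (hg _).trans (congrArg e h5)

end Pool.Agent.Lib.MP_8b1d3b_lc.NG
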