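import Pool.Agent.Lib.MP_8b1d3b_lc.NG.GDef

/-! Frobenius elements. -/

open NumberField

namespace Pool.Agent.Lib.MP_8b1d3b_lc.NG

/-- `IsArithFrobAt.exists_of_isInvariant ℤ (L ≃ₐ[ℚ] L) Q` for a prime `Q` over `q`; embed the finite
field `𝓞 L ⧸ Q` into the algebraic closure (`IsAlgClosed.lift`). -/
theorem frob_ex (L : Type) [Field L] [NumberField L] [IsGalois ℚ L] (q : ℕ) [Fact q.Prime] :
    ∃ (π : 𝓞 L →+* AlgebraicClosure (ZMod q)) (φ : L ≃ₐ[ℚ] L), IsFr q π φ := by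
  have hq : q.Prime := Fact.out
  obtain ⟨Q, hQ, hQP⟩ := Ideal.exists_maximal_ideal_liesOver_of_isIntegral (S := 𝓞 L)
    (Ideal.span {(q : ℤ)})
  have hmem : (q : 𝓞 L) ∈ Q := by
    have h : (q : ℤ) ∈ Q.under ℤ := hQP.over ▸ Ideal.mem_span_singleton_self _
    simpa [Ideal.mem_comap] using h
  have hne : Q ≠ ⊥ := fun h => by
    rw [h, Ideal.mem_bot] at hmem
    exact hq.ne_zero (Nat.cast_eq_zero.1 hmem)
  have : Finite (𝓞 L ⧸ Q) := Ideal.finiteQuotientOfFreeOfNeBot Q hne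
  obtain ⟨φ, hφ⟩ := IsArithFrobAt.exists_of_isInvariant ℤ (L ≃ₐ[ℚ] L) Q
  let _ := Ideal.Quotient.field Q
  have : CharP (𝓞 L ⧸ Q) q := (CharP.charP_iff_prime_eq_zero hq).2 (by
    rw [← map_natCast (Ideal.Quotient.mk Q), Ideal.Quotient.eq_zero_iff_mem]
    exact hmem)
  let _ := ZMod.algebra (𝓞 L ⧸ Q) q
  let j : (𝓞 L ⧸ Q) →ₐ[ZMod q] AlgebraicClosure (ZMod q) := IsAlgClosed.lift
  refine ⟨j.toRingHom.comp (Ideal.Quotient.mk Q), φ, fun x => ?_⟩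
  have h := hφ x
  rw [← hQP.over, Nat.card_congr (Int.quotientSpanNatEquivZMod q).toEquiv, Nat.card_zmod,
    ← Ideal.Quotient.eq] at h
  rw [← map_pow]
  exact congrArg j h

end Pool.Agent.Lib.MP_8b1d3b_lc.NG
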