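import Pool.Agent.Lib.MP_8b1d3b_lc.NG.MinorA

/-! A minor that controls the rank. -/

open Matrix

namespace Pool.Agent.Lib.MP_8b1d3b_lc.NG

open Polynomial in
theorem minor_entry {R : Type} [CommRing R] {f g : R[X]} (P : R → Prop) (h0 : P 0)
    (hf : ∀ i, P (f.coeff i)) (hg : ∀ i, P (g.coeff i)) (m n : ℕ) (i j : Fin (m + n)) :
    P (sylvester f g m n i j) := by
  induction j using Fin.addCases with
  | left j =>
    rw [sylvester, Matrix.of_apply, Fin.addCases_left]
    split_ifs
    exacts [hg _, h0]
  | right j =>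
    rw [sylvester, Matrix.of_apply, Fin.addCases_right]
    split_ifs
    exacts [hf _, h0]

open Polynomial in
theorem minor_ne {R : Type} [CommRing R] [IsDomain R] {f : R[X]} (hs : Sep f) :
    resultant f (derivative f) ≠ 0 := by
  obtain ⟨ρ, a, b, hρ, hab⟩ := hs
  have hι : Function.Injective (algebraMap R (FractionRing R)) := IsFractionRing.injective _ _
  have hρ' : algebraMap R (FractionRing R) ρ ≠ 0 := fun h => hρ (hι (by rw [h, map_zero]))
  have hc : IsCoprime (f.map (algebraMap R (FractionRing R)))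
      ((derivative f).map (algebraMap R (FractionRing R))) := by
    refine ⟨C (algebraMap R (FractionRing R) ρ)⁻¹ * a.map (algebraMap R (FractionRing R)),
      C (algebraMap R (FractionRing R) ρ)⁻¹ * b.map (algebraMap R (FractionRing R)), ?_⟩
    rw [mul_assoc, mul_assoc, ← mul_add, ← Polynomial.map_mul, ← Polynomial.map_mul,
      ← Polynomial.map_add, hab, map_C, ← C_mul, inv_mul_cancel₀ hρ', C_1]
  have h := resultant_ne_zero _ _ hc
  rw [natDegree_map_eq_of_injective hι, natDegree_map_eq_of_injective hι, resultant_map_map] at h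
  exact fun h' => h (by rw [h', map_zero])

open Polynomial in
/-- `ρ = resultant f (derivative f) n (n - 1)` for `n = natDegree f > 0`
(`exists_mul_add_mul_eq_C_resultant`, `resultant_map_map`, `resultant_eq_zero_iff` over the
fraction field, `det_degree`, `det_int` for the Sylvester matrix); `f = 1` if `n = 0`. -/
theorem res_ex {σ : Type} {f : (MvPolynomial σ ℤ)[X]} (hm : f.Monic) (hs : Sep f) {d : ℕ}
    (h1 : f.natDegree ≤ d) (h2 : ∀ i, (f.coeff i).totalDegree ≤ d) :
    ∃ (ρ : MvPolynomial σ ℤ) (a b : (MvPolynomial σ ℤ)[X]), ρ ≠ 0 ∧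
      a * f + b * derivative f = C ρ ∧ ρ.totalDegree ≤ 2 * d * d ∧
      ∀ (χ : MvPolynomial σ ℤ →+* ℤ) (H : ℕ), 1 ≤ H → (∀ i, (χ (f.coeff i)).natAbs ≤ H) →
        (χ ρ).natAbs ≤ (2 * d).factorial * ((d + 1) * H) ^ (2 * d) := by
  by_cases h0 : f.natDegree = 0
  · obtain rfl := eq_one_of_monic_natDegree_zero hm h0
    refine ⟨1, 1, 0, one_ne_zero, by simp, by simp, fun χ H hH _ => ?_⟩
    rw [map_one, Int.natAbs_one]
    exact Nat.mul_pos (Nat.factorial_pos _) (Nat.pow_pos (Nat.mul_pos (Nat.succ_pos _) hH))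
  have hn : f.natDegree + (derivative f).natDegree ≤ 2 * d := by
    have := natDegree_derivative_le f
    omega
  obtain ⟨a, b, -, -, hab⟩ :=
    exists_mul_add_mul_eq_C_resultant f (derivative f) le_rfl le_rfl (Or.inl h0)
  refine ⟨resultant f (derivative f), a, b, minor_ne hs, by rw [← hab]; ring, ?_,
    fun χ H hH hχ => ?_⟩
  · have h3 : ∀ i, ((derivative f).coeff i).totalDegree ≤ d := fun i => by
      rw [coeff_derivative]
      refine (MvPolynomial.totalDegree_mul _ _).trans ?_
      have h4 : ((i : MvPolynomial σ ℤ) + 1) = MvPolynomial.C ((i : ℤ) + 1) := by simp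
      rw [h4, MvPolynomial.totalDegree_C]
      exact h2 _
    have h5 := det_degree (sylvester f (derivative f) f.natDegree (derivative f).natDegree)
      (d := d) (minor_entry (fun x => MvPolynomial.totalDegree x ≤ d) (by simp) h2 h3 _ _)
    rw [Fintype.card_fin] at h5
    exact h5.trans (Nat.mul_le_mul_right _ hn)
  · have h3 : ∀ i, (χ ((derivative f).coeff i)).natAbs ≤ (d + 1) * H := fun i => by
      by_cases hi : i ≤ d
      · rw [coeff_derivative, map_mul, Int.natAbs_mul, mul_comm]
        refine Nat.mul_le_mul ?_ (hχ _)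
        rw [map_add, map_natCast, map_one]
        omega
      · rw [coeff_derivative, coeff_eq_zero_of_natDegree_lt (by omega)]
        simp
    have h4 : ∀ i, (χ (f.coeff i)).natAbs ≤ (d + 1) * H := fun i =>
      (hχ i).trans (Nat.le_mul_of_pos_left _ (Nat.succ_pos _))
    have h5 := det_int
      (χ.mapMatrix (sylvester f (derivative f) f.natDegree (derivative f).natDegree))
      (H := (d + 1) * H) (minor_entry (fun x => (χ x).natAbs ≤ (d + 1) * H) (by simp) h4 h3 _ _)
    rw [Fintype.card_fin, ← RingHom.map_det] at h5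
    exact h5.trans (Nat.mul_le_mul (Nat.factorial_le hn)
      (Nat.pow_le_pow_right (Nat.mul_pos (Nat.succ_pos _) hH) hn))

end Pool.Agent.Lib.MP_8b1d3b_lc.NG
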