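import Pool.Agent.Lib.MP_8b1d3b_lc.NG.NormA

/-! More degree and size bounds. -/

open MvPolynomial
open scoped Polynomial

namespace Pool.Agent.Lib.MP_8b1d3b_lc.NG

variable {σ τ ι : Type} {d e h k : ℕ}

theorem normb_mul {F G : (MvPolynomial σ ℤ)[X]} (hF : ∀ j, (F.coeff j).totalDegree ≤ d)
    (hG : ∀ j, (G.coeff j).totalDegree ≤ e) (j : ℕ) : ((F * G).coeff j).totalDegree ≤ d + e := by
  rw [Polynomial.coeff_mul]
  exact totalDegree_finsetSum_le fun x _ =>
    (totalDegree_mul _ _).trans (add_le_add (hF _) (hG _))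

theorem normb_C (c : ℤ) (j : ℕ) :
    ((Polynomial.C (C c) : (MvPolynomial σ ℤ)[X]).coeff j).totalDegree ≤ 0 := by
  rw [Polynomial.coeff_C]
  split_ifs
  · exact (totalDegree_C c).le
  · exact totalDegree_zero.le

theorem normb_one (j : ℕ) : ((1 : (MvPolynomial σ ℤ)[X]).coeff j).totalDegree ≤ 0 := by
  have := normb_C (σ := σ) 1 j
  rwa [map_one, map_one] at this

theorem normb_pow {F : (MvPolynomial σ ℤ)[X]} (hF : ∀ j, (F.coeff j).totalDegree ≤ 1) (n : ℕ) :
    ∀ j, ((F ^ n).coeff j).totalDegree ≤ n := by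
  induction n with
  | zero => rw [pow_zero]; exact normb_one
  | succ n ih => rw [pow_succ]; exact normb_mul ih hF

theorem normb_prod (s : Finset ι) {F : ι → (MvPolynomial σ ℤ)[X]} {n : ι → ℕ}
    (hF : ∀ i j, ((F i).coeff j).totalDegree ≤ n i) :
    ∀ j, ((∏ i ∈ s, F i).coeff j).totalDegree ≤ ∑ i ∈ s, n i := by
  induction s using Finset.cons_induction with
  | empty => rw [Finset.prod_empty, Finset.sum_empty]; exact normb_one
  | cons a s has ih =>
    rw [Finset.prod_cons, Finset.sum_cons]
    exact normb_mul (hF a) ih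

theorem ln_comp {A K K' : Type} [CommRing A] [CommRing K] [CommRing K'] (π : A →+* K)
    (α v : σ → K) (χ : K →+* K') (f : MvPolynomial σ A) :
    (ln π α v f).map χ = ln (χ.comp π) (fun i => χ (α i)) (fun i => χ (v i)) f := by
  have key : (Polynomial.mapRingHom χ).comp (ln π α v) =
      ln (χ.comp π) (fun i => χ (α i)) (fun i => χ (v i)) := by
    refine MvPolynomial.ringHom_ext (fun r => ?_) (fun i => ?_)
    · simp [ln]
    · simp [ln]
  exact RingHom.congr_fun key f

theorem ln_map {A A' K : Type} [CommRing A] [CommRing A'] [CommRing K] (ι : A →+* A')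
    (π : A' →+* K) (α v : σ → K) (f : MvPolynomial σ A) :
    ln π α v (map ι f) = ln (π.comp ι) α v f := by
  have key : (ln π α v).comp (map ι) = ln (π.comp ι) α v := by
    refine MvPolynomial.ringHom_ext (fun r => ?_) (fun i => ?_)
    · simp [ln]
    · simp [ln]
  exact RingHom.congr_fun key f

theorem ln_eval {A K : Type} [CommRing A] [CommRing K] (π : A →+* K) (α v : σ → K) (s : K)
    (f : MvPolynomial σ A) : (ln π α v f).eval s = eval₂ π (fun i => α i + v i * s) f := by
  have key : (Polynomial.evalRingHom s).comp (ln π α v) =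
      eval₂Hom π (fun i => α i + v i * s) := by
    refine MvPolynomial.ringHom_ext (fun r => ?_) (fun i => ?_)
    · simp [ln]
    · simp [ln]
  exact RingHom.congr_fun key f

theorem ln_natDegree {A K : Type} [CommRing A] [CommRing K] (π : A →+* K) (α v : σ → K)
    (f : MvPolynomial σ A) : (ln π α v f).natDegree ≤ f.totalDegree := by
  rw [ln, coe_eval₂Hom, eval₂_eq]
  refine Polynomial.natDegree_sum_le_of_forall_le _ _ fun a ha => ?_
  refine (Polynomial.natDegree_C_mul_le _ _).trans ?_
  refine (Polynomial.natDegree_prod_le _ _).trans (le_trans ?_ (le_totalDegree ha))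
  refine Finset.sum_le_sum fun i _ => Polynomial.natDegree_pow_le.trans ?_
  have h1 : (Polynomial.C (α i) + Polynomial.C (v i) * Polynomial.X).natDegree ≤ 1 := by
    rw [add_comm]
    exact Polynomial.natDegree_linear_le
  exact (Nat.mul_le_mul_left _ h1).trans (mul_one _).le

/-- The generic direction. -/
theorem ln_generic (α : σ → ℤ) (f : MvPolynomial σ ℤ) (j : ℕ) :
    ((ln (Int.castRingHom (MvPolynomial σ ℤ)) (fun i => C (α i)) X f).coeff j).totalDegree ≤
      f.totalDegree := by
  rw [ln, coe_eval₂Hom, eval₂_eq, Polynomial.finsetSum_coeff]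
  refine totalDegree_finsetSum_le fun a ha => le_trans ?_ (le_totalDegree ha)
  have h1 : ∀ (i : σ) (j : ℕ), ((Polynomial.C (C (α i)) + Polynomial.C (X i) * Polynomial.X :
      (MvPolynomial σ ℤ)[X]).coeff j).totalDegree ≤ 1 := by
    intro i j
    rw [Polynomial.coeff_add]
    refine (totalDegree_add _ _).trans (max_le ((normb_C _ _).trans zero_le_one) ?_)
    rw [Polynomial.coeff_C_mul_X]
    split_ifs
    · exact (totalDegree_X i).le
    · exact totalDegree_zero.le.trans zero_le_one
  have h2 := normb_mul (normb_C (σ := σ) (coeff a f))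
    (normb_prod a.support (n := fun i => a i) fun i => normb_pow (h1 i) (a i)) j
  rw [zero_add] at h2
  exact h2

theorem ln_int {f : MvPolynomial σ ℤ} (H : Bd f d h) {α v : σ → ℤ} (hα : ∀ i, (α i).natAbs ≤ k)
    (hv : ∀ i, (v i).natAbs ≤ k) (hk : 1 ≤ k) (j : ℕ) :
    ((ln (Int.castRingHom ℤ) α v f).coeff j).natAbs ≤ h * (2 * k) ^ d := by
  have h1 : ∀ i, Bd (C (α i) + C (v i) * X () : MvPolynomial Unit ℤ) 1 (2 * k) := by
    intro i
    have h2 := ((bd_C (σ := Unit) (α i)).mono zero_le_one (hα i)).add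
      (((bd_C (σ := Unit) (v i)).mono le_rfl (hv i)).mul (bd_X ()))
    exact h2.mono le_rfl (by omega)
  have h3 := (H.ev h1 (by omega)).natAbs_coeff (Finsupp.single default j)
  have key : ln (Int.castRingHom ℤ) α v = (uniqueAlgEquiv ℤ Unit).toRingEquiv.toRingHom.comp
      (ev fun i => (C (α i) + C (v i) * X () : MvPolynomial Unit ℤ)) := by
    refine hom_ext fun i => ?_
    rw [RingHom.comp_apply, ev_X, ln, eval₂Hom_X']
    show _ = eval₂ Polynomial.C (fun _ => Polynomial.X) (C (α i) + C (v i) * X ())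
    rw [eval₂_add, eval₂_mul, eval₂_C, eval₂_C, eval₂_X]
  rw [← coeff_uniqueAlgEquiv] at h3
  rw [key]
  exact h3

end Pool.Agent.Lib.MP_8b1d3b_lc.NG
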