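import Pool.Agent.Lib.MP_8b1d3b_lc.NG.Def

/-! Zeros of polynomials on grids. -/

open MvPolynomial
open scoped Polynomial

namespace Pool.Agent.Lib.MP_8b1d3b_lc.NG

variable {σ : Type} [Fintype σ] [DecidableEq σ]

theorem sz_gen {R : Type} [CommRing R] [IsDomain R] [DecidableEq R] {f : MvPolynomial σ R}
    (hf : f ≠ 0) (S : Finset R) :
    ((Fintype.piFinset fun _ : σ => S).filter fun x => eval x f = 0).card * S.card ≤
      f.totalDegree * S.card ^ Fintype.card σ := by
  rcases S.eq_empty_or_nonempty with rfl | hS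
  · simp
  let e := Fintype.equivFin σ
  have h1 := schwartz_zippel_totalDegree (p := rename e f)
    (fun h => hf (rename_injective e e.injective (by rw [h, map_zero]))) S
  have h2 : (0 : ℚ≥0) < S.card := by exact_mod_cast hS.card_pos
  rw [div_le_div_iff₀ (pow_pos h2 _) h2] at h1
  have h3 : ((Fintype.piFinset fun _ : σ => S).filter fun x => eval x f = 0).card =
      ((Fintype.piFinset fun _ : Fin (Fintype.card σ) => S).filter
        fun x => eval x (rename e f) = 0).card := by
    refine Finset.card_equiv (e.arrowCongr (Equiv.refl R)) fun x => ?_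
    have : (e.arrowCongr (Equiv.refl R) x) ∘ e = x := by funext i; simp
    simp only [Finset.mem_filter, Fintype.mem_piFinset, eval_rename, this]
    exact and_congr_left' ⟨fun h i => by simpa using h _, fun h i => by simpa using h (e i)⟩
  rw [h3]
  refine le_trans ?_ (Nat.mul_le_mul_right _ (totalDegree_rename_le e f))
  exact_mod_cast h1

omit [Fintype σ] [DecidableEq σ] in
theorem sz_ev (x : σ → ℤ) (f : MvPolynomial σ ℤ) : ev x f = eval x f := by
  rw [ev, RingHom.ext_int (Int.castRingHom ℤ) (RingHom.id ℤ)]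
  rfl

/-- `schwartz_zippel_totalDegree` after `rename` along `Fintype.equivFin`. -/
theorem sz_card {F : Type} [Field F] [Fintype F] [DecidableEq F] {f : MvPolynomial σ F}
    (hf : f ≠ 0) : (Finset.univ.filter fun x : σ → F => eval x f = 0).card * Fintype.card F ≤
      f.totalDegree * Fintype.card F ^ Fintype.card σ := by
  simpa using sz_gen hf (Finset.univ : Finset F)

theorem sz_zero {F : Type} [Field F] [Fintype F] {f : MvPolynomial σ F}
    (hd : f.totalDegree < Fintype.card F) (h : ∀ x, eval x f = 0) : f = 0 := by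
  classical
  by_contra hf
  have h1 := sz_card hf
  rw [Finset.filter_true_of_mem fun x _ => h x, Finset.card_univ, Fintype.card_fun, mul_comm] at h1
  exact absurd (Nat.le_of_mul_le_mul_right h1 (pow_pos Fintype.card_pos _)) (not_le.2 hd)

theorem sz_nat {f : MvPolynomial σ ℤ} (hf : f ≠ 0) {d : ℕ} (hd : f.totalDegree ≤ d) :
    ∃ α : σ → ℤ, (∀ i, (α i).natAbs ≤ d) ∧ ev α f ≠ 0 := by
  by_contra hc
  push Not at hc
  have h1 := sz_gen hf (Finset.Icc (0 : ℤ) d)
  rw [Finset.filter_true_of_mem fun x hx => ?_, Fintype.card_piFinset, Finset.prod_const,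
    Finset.card_univ, mul_comm, Int.card_Icc] at h1
  · have := Nat.le_of_mul_le_mul_right h1 (pow_pos (by omega) _)
    omega
  · refine (sz_ev x f).symm.trans (hc x fun i => ?_)
    have := Finset.mem_Icc.1 (Fintype.mem_piFinset.1 hx i)
    omega

omit [Fintype σ] [DecidableEq σ] in
theorem ne_zero_mod {f : MvPolynomial σ ℤ} (hf : f ≠ 0) :
    ∃ q0, ∀ q, q0 ≤ q → map (Int.castRingHom (ZMod q)) f ≠ 0 := by
  obtain ⟨a, ha⟩ := ne_zero_iff.1 hf
  refine ⟨(coeff a f).natAbs + 1, fun q hq h => ha ?_⟩
  have h1 := congrArg (coeff a) h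
  rw [coeff_map, coeff_zero, eq_intCast, ZMod.intCast_zmod_eq_zero_iff_dvd] at h1
  exact Int.eq_zero_of_dvd_of_natAbs_lt_natAbs h1 (by rw [Int.natAbs_natCast]; omega)

omit [Fintype σ] [DecidableEq σ] in
theorem eval_map_int {A : Type} [CommRing A] (z : σ → A) (f : MvPolynomial σ ℤ) :
    eval z (map (Int.castRingHom A) f) = ev z f := by
  rw [eval_map]
  rfl

omit [Fintype σ] [DecidableEq σ] in
theorem sp_degree {τ A : Type} [CommRing A] (z : σ → A) (f : MvPolynomial (τ ⊕ σ) ℤ) :
    (sp z f).totalDegree ≤ f.totalDegree := by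
  classical
  conv_lhs => rw [f.as_sum, map_sum]
  refine totalDegree_finsetSum_le fun a ha => le_trans ?_ (le_totalDegree ha)
  rw [sp, ev, eval₂Hom_monomial]
  refine (totalDegree_mul _ _).trans ?_
  rw [eq_intCast, ← map_intCast (C : A →+* MvPolynomial τ A), totalDegree_C, zero_add]
  refine (totalDegree_finsetProd _ _).trans (Finset.sum_le_sum fun i _ => ?_)
  refine (totalDegree_pow _ _).trans ?_
  rcases i with i | i
  · rw [Sum.elim_inl, X]
    exact (Nat.mul_le_mul_left _ ((totalDegree_monomial_le _ _).trans_eq (by simp))).trans_eq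
      (mul_one _)
  · simp

omit [Fintype σ] [DecidableEq σ] in
theorem coeff_sp {τ A : Type} [CommRing A] (z : σ → A) (f : MvPolynomial (τ ⊕ σ) ℤ)
    (a : τ →₀ ℕ) : coeff a (sp z f) = ev z (coeff a (sumAlgEquiv ℤ τ σ f)) := by
  have h : (sp z : MvPolynomial (τ ⊕ σ) ℤ →+* MvPolynomial τ A) =
      (map (ev z)).comp (sumAlgEquiv ℤ τ σ).toRingHom := by
    refine MvPolynomial.ringHom_ext (fun c => by simp) fun i => ?_
    rcases i with i | i <;> simp [sp]
  rw [h]
  exact coeff_map _ _ _

end Pool.Agent.Lib.MP_8b1d3b_lc.NG
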