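import Pool.Agent.Lib.MP_8b1d3b_lc.NG.GaoZ
import Pool.Agent.Lib.MP_8b1d3b_lc.NG.Bertini
import Pool.Agent.Lib.MP_8b1d3b_lc.NG.NormB
import Pool.Agent.Lib.MP_8b1d3b_lc.NG.Minor
import Pool.Agent.Lib.MP_8b1d3b_lc.NG.SZ

/-! A good line. -/

open Polynomial NumberField

namespace Pool.Agent.Lib.MP_8b1d3b_lc.NG

theorem gen_spec {σ K : Type} [CommRing K] (f : (MvPolynomial σ ℤ)[X]) (α : σ → ℤ)
    (χ : MvPolynomial σ ℤ →+* K) :
    (f.map (ln (Int.castRingHom (MvPolynomial σ ℤ)) (fun i => MvPolynomial.C (α i))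
      MvPolynomial.X)).map (mapRingHom χ) =
      f.map (ln (Int.castRingHom K) (fun i => α i) fun i => χ (MvPolynomial.X i)) := by
  rw [Polynomial.map_map]
  congr 1
  exact hom_ext fun i => by simp [ln]

theorem gen_pos {δ t : ℕ} (u : Un δ t) : 0 < δ := by
  rcases u with u | u <;> exact u.1.pos

theorem gen_sep {σ K : Type} [Field K] [CharZero K] {f : (MvPolynomial σ ℤ)[X]}
    {ρ : MvPolynomial σ ℤ} {a b : (MvPolynomial σ ℤ)[X]} (hab : a * f + b * derivative f = C ρ)
    {α : σ → ℤ} (hρ : ev α ρ ≠ 0) : (f.map (ev fun i => (α i : K))).Separable := by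
  have h1 : ev (fun i => (α i : K)) ρ ≠ 0 := by
    have := comp_ev (Int.castRingHom K) α ρ
    simp only [eq_intCast] at this
    rw [← this]
    exact Int.cast_ne_zero.2 hρ
  have h2 := congrArg (Polynomial.map (ev fun i => (α i : K))) hab
  rw [Polynomial.map_add, Polynomial.map_mul, Polynomial.map_mul, map_C, ← derivative_map] at h2
  refine ⟨C (ev (fun i => (α i : K)) ρ)⁻¹ * a.map (ev fun i => (α i : K)),
    C (ev (fun i => (α i : K)) ρ)⁻¹ * b.map (ev fun i => (α i : K)), ?_⟩
  rw [mul_assoc, mul_assoc, ← mul_add, h2, ← C_mul, inv_mul_cancel₀ h1, C_1]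

theorem gen_dim {σ L : Type} [Field L] [NumberField L] {κ : ℕ}
    {f : (MvPolynomial σ ℤ)[X]} (hm : f.Monic) {ι : 𝓞 L →+* AlgebraicClosure ℚ}
    {Ψ : Fin κ → (MvPolynomial σ (𝓞 L))[X]}
    (h0 : ∀ k, (Ψ k).Monic ∧ Irreducible ((Ψ k).map (MvPolynomial.map ι)))
    (h1 : ∏ k, Ψ k = f.map (MvPolynomial.map (Int.castRingHom (𝓞 L))))
    {ρ : MvPolynomial σ ℤ} {a b : (MvPolynomial σ ℤ)[X]} (hab : a * f + b * derivative f = C ρ)
    {α : σ → ℤ} (hρ : ev α ρ ≠ 0) (t : ℕ) :
    Dim (gw (f.map (ln (Int.castRingHom (FractionRing (MvPolynomial σ (AlgebraicClosure ℚ))))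
      (fun i => α i) fun i => algebraMap (MvPolynomial σ (AlgebraicClosure ℚ)) _
        (MvPolynomial.X i))) f.natDegree t) κ := by
  let Ω := AlgebraicClosure ℚ
  let K := FractionRing (MvPolynomial σ Ω)
  let j := algebraMap (MvPolynomial σ Ω) K
  have : CharZero K := algebraRat.charZero K
  have hj : ∀ n : ℤ, j (MvPolynomial.C (n : Ω)) = n := fun n =>
    map_intCast (j.comp MvPolynomial.C) n
  let B : Fin κ → K[X][X] := fun k => ((Ψ k).map (MvPolynomial.map ι)).map
    (ln (j.comp MvPolynomial.C) (fun i => j (MvPolynomial.C (α i : Ω)))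
      fun i => j (MvPolynomial.X i))
  have hB : ∏ k, B k = f.map (ln (Int.castRingHom K) (fun i => α i)
      fun i => j (MvPolynomial.X i)) := by
    rw [← Polynomial.map_prod, ← Polynomial.map_prod, h1, Polynomial.map_map, Polynomial.map_map]
    congr 1
    exact hom_ext fun i => by simp [ln, hj]
  have hz : (∏ k, B k).map (evalRingHom 0) =
      (f.map (ev fun i => (α i : Ω))).map (j.comp MvPolynomial.C) := by
    rw [hB, Polynomial.map_map, Polynomial.map_map]
    congr 1
    exact hom_ext fun i => by simp [ln, hj]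
  have h2 := gao_zero (t := t) B
    (fun k => ⟨((h0 k).1.map _).map _, bertini ((h0 k).1.map _) (h0 k).2 _⟩)
    (by rw [hz]; exact (gen_sep hab hρ).map) (by rw [hz]; exact (IsAlgClosed.splits _).map _)
  have h3 : (∏ k, B k).natDegree = f.natDegree := by rw [hB, hm.natDegree_map]
  rwa [h3, hB] at h2

/-- Paper B2, characteristic zero. `K₁ = FractionRing (MvPolynomial σ Ω)`, `Bv` the restriction of
`f` to the line through `α` with generic direction, over `MvPolynomial σ ℤ`. Its image over `K₁` is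
the product of the restrictions of the `Ψ k` (`ln_comp`, `ln_map`), irreducible by `bertini`; at
`s = 0` it is the image of `f (α, y)`, separable by `hρ` and split over `Ω`. `gao_zero`, `minor`,
`det_degree` (`gw_form`, `ln_generic`), `sz_nat` for `v`; `μ = ev v M.det`, `det_int`. -/
theorem good_line {σ L : Type} [Fintype σ] [Field L] [NumberField L] {κ : ℕ}
    {f : (MvPolynomial σ ℤ)[X]} (hm : f.Monic) {ι : 𝓞 L →+* AlgebraicClosure ℚ}
    {Ψ : Fin κ → (MvPolynomial σ (𝓞 L))[X]}
    (h0 : ∀ k, (Ψ k).Monic ∧ Irreducible ((Ψ k).map (MvPolynomial.map ι)))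
    (h1 : ∏ k, Ψ k = f.map (MvPolynomial.map (Int.castRingHom (𝓞 L))))
    {ρ : MvPolynomial σ ℤ} {a b : (MvPolynomial σ ℤ)[X]} (hab : a * f + b * derivative f = C ρ)
    {α : σ → ℤ} (hρ : ev α ρ ≠ 0) {d : ℕ} (hd : f.natDegree ≤ d)
    (hd' : ∀ i, (f.coeff i).totalDegree ≤ 2 * d) :
    ∃ (v : σ → ℤ) (μ : ℤ) (u : ℕ), μ ≠ 0 ∧ u ≤ 6 * d ^ 2 ∧ (∀ i, (v i).natAbs ≤ 12 * d ^ 3) ∧
      (∀ H : ℕ, 1 ≤ H →
        (∀ i j, (((f.map (ln (Int.castRingHom ℤ) α v)).coeff i).coeff j).natAbs ≤ H) →
          μ.natAbs ≤ u.factorial * (8 * d * H) ^ u) ∧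
      ∀ (K : Type) [Field K], (μ : K) ≠ 0 →
        Dim (gw (f.map (ln (Int.castRingHom K) (fun i => α i) fun i => v i)) f.natDegree
          (2 * d + 1)) κ := by
  classical
  let K := FractionRing (MvPolynomial σ (AlgebraicClosure ℚ))
  let j : MvPolynomial σ ℤ →+* K := (algebraMap (MvPolynomial σ (AlgebraicClosure ℚ)) K).comp
    (MvPolynomial.map (Int.castRingHom _))
  let B := f.map (ln (Int.castRingHom (MvPolynomial σ ℤ)) (fun i => MvPolynomial.C (α i))
    MvPolynomial.X)
  obtain ⟨M, m0, m1, m2⟩ := minor (gw B f.natDegree (2 * d + 1)) j (κ := κ) (by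
    simp only [gw_map, B, gen_spec]
    simpa only [j, RingHom.comp_apply, MvPolynomial.map_X] using gen_dim hm h0 h1 hab hρ _)
  have hu : Fintype.card (Un f.natDegree (2 * d + 1)) ≤ 6 * d ^ 2 := by
    simp only [Fintype.card_sum, Fintype.card_prod, Fintype.card_fin]
    have := Nat.mul_le_mul_right (2 * d + 1) hd
    have := Nat.le_self_pow two_ne_zero d
    nlinarith
  have hdeg := det_degree M (d := 2 * d) fun u' u => by
    rcases m1 u' u with ⟨r, h⟩ | h | h
    · rw [h]
      rcases gw_form B r u with h | ⟨n, i, k, -, h⟩ <;> rw [h]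
      · simp
      · refine (MvPolynomial.totalDegree_mul _ _).trans ?_
        rw [← map_intCast (MvPolynomial.C (σ := σ) (R := ℤ)), MvPolynomial.totalDegree_C, zero_add,
          coeff_map]
        exact (ln_generic α _ k).trans (hd' i)
    · simp [h]
    · simp [h]
  obtain ⟨v, hv, hv0⟩ := sz_nat (f := M.det) (fun h => m0 (by rw [h, map_zero]))
    (d := 12 * d ^ 3) (hdeg.trans (by nlinarith [Nat.mul_le_mul_right (2 * d) hu]))
  refine ⟨v, ev v M.det, _, hv0, hu, hv, fun H hH hc => ?_, fun F _ hF => ?_⟩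
  · rw [RingHom.map_det]
    refine det_int _ fun u' u => ?_
    have hp := (gen_pos u).trans_le hd
    have h8 : 1 ≤ 8 * d * H := Nat.mul_pos (by omega) hH
    rw [RingHom.mapMatrix_apply, Matrix.map_apply]
    rcases m1 u' u with ⟨r, h⟩ | h | h
    · rw [h, gw_map, gen_spec]
      simp only [Int.cast_id, ev_X]
      rcases gw_form (f.map (ln (Int.castRingHom ℤ) α v)) r u with h | ⟨n, i, k, hn, h⟩ <;> rw [h]
      · simp
      · by_cases hz : ((f.map (ln (Int.castRingHom ℤ) α v)).coeff i).coeff k = 0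
        · rw [hz, mul_zero]
          exact Nat.zero_le _
        have hi : i ≤ d := (le_natDegree_of_ne_zero fun e => hz (by rw [e, coeff_zero])).trans
          (natDegree_map_le.trans hd)
        have hk := le_natDegree_of_ne_zero hz
        rw [coeff_map] at hk
        have := hk.trans ((ln_natDegree _ _ _ _).trans (hd' i))
        rw [Int.natAbs_mul, Int.cast_id]
        exact Nat.mul_le_mul (by omega) (hc i k)
    · simp [h]
    · simpa [h] using h8
  · have h2 := m2 F (ev fun i => (v i : F)) (by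
      have := comp_ev (Int.castRingHom F) v M.det
      simp only [eq_intCast] at this
      rwa [← this])
    simpa only [gw_map, B, gen_spec, ev_X] using h2

end Pool.Agent.Lib.MP_8b1d3b_lc.NG
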