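import Mathlib

/-! The size of a factor. -/

open Polynomial

namespace Pool.Agent.Lib.MP_8b1d3b_lc.NG

theorem mign_swap (p : ℤ[X][X]) (i j : ℕ) :
    ((Bivariate.swap p).coeff j).coeff i = (p.coeff i).coeff j := by
  induction p using Polynomial.induction_on' with
  | add p q hp hq => simp only [map_add, coeff_add, hp, hq]
  | monomial n a =>
    induction a using Polynomial.induction_on' with
    | add a b ha hb => simp only [map_add, coeff_add, ha, hb]
    | monomial m r =>
      rw [Bivariate.swap_monomial_monomial]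
      by_cases h : n = i <;> by_cases h' : m = j <;> simp [coeff_monomial, h, h']

theorem mign_inner {f g : ℤ[X][X]} (h0 : f ≠ 0) (hg : g ∣ f) {d : ℕ}
    (h2 : ∀ i, (f.coeff i).natDegree ≤ d) (i : ℕ) : (g.coeff i).natDegree ≤ d := by
  have h3 : (Bivariate.swap f).natDegree ≤ d := natDegree_le_iff_coeff_eq_zero.2 fun j hj => by
    ext l
    rw [mign_swap, coeff_zero]
    exact coeff_eq_zero_of_natDegree_lt ((h2 l).trans_lt hj)
  have h4 : (Bivariate.swap g).natDegree ≤ d :=
    (natDegree_le_of_dvd (map_dvd Bivariate.swap hg)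
      ((map_ne_zero_iff _ Bivariate.swap.injective).2 h0)).trans h3
  refine natDegree_le_iff_coeff_eq_zero.2 fun j hj => ?_
  rw [← mign_swap, coeff_eq_zero_of_natDegree_lt (h4.trans_lt hj), coeff_zero]

theorem mign_kron {p : ℤ[X][X]} {d : ℕ} (hp : ∀ i, (p.coeff i).natDegree ≤ d) (i : ℕ) {j : ℕ}
    (hj : j ≤ d) : (p.eval (X ^ (d + 1))).coeff ((d + 1) * i + j) = (p.coeff i).coeff j := by
  rw [eval_eq_sum, Polynomial.sum, finsetSum_coeff, Finset.sum_eq_single i]
  · rw [← pow_mul, coeff_mul_X_pow', if_pos (Nat.le_add_right _ _), Nat.add_sub_cancel_left]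
  · intro e _ he
    rw [← pow_mul, coeff_mul_X_pow']
    split_ifs with h
    · refine coeff_eq_zero_of_natDegree_lt ((hp e).trans_lt ?_)
      have h1 : e < i + 1 := by
        refine Nat.lt_of_mul_lt_mul_left (a := d + 1) ?_
        rw [Nat.mul_succ]
        omega
      have h2 : (d + 1) * (e + 1) ≤ (d + 1) * i := Nat.mul_le_mul_left _ (by omega)
      rw [Nat.mul_succ] at h2
      omega
    · rfl
  · intro h
    simp [notMem_support_iff.1 h]

theorem mign_one {F G : ℤ[X]} (h0 : F ≠ 0) (hg : G ∣ F) {D H : ℕ} (h1 : F.natDegree < D)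
    (h3 : ∀ n, (F.coeff n).natAbs ≤ H) (n : ℕ) : (G.coeff n).natAbs ≤ 2 ^ D * D * H := by
  have hd := natDegree_le_of_dvd hg h0
  obtain ⟨K, rfl⟩ := hg
  have hK := one_le_mahlerMeasure_of_ne_zero (right_ne_zero_of_mul h0)
  have h4 := norm_coeff_le_choose_mul_mahlerMeasure_of_one_le_mahlerMeasure n
    (G.map (Int.castRingHom ℂ)) _ hK
  have hn : ∀ z : ℤ, ‖(z : ℂ)‖ = (z.natAbs : ℝ) := fun z => by
    rw [Complex.norm_intCast, Nat.cast_natAbs, Int.cast_abs]
  rw [← Polynomial.map_mul, coeff_map, eq_intCast, hn,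
    natDegree_map_eq_of_injective (Int.castRingHom ℂ).injective_int] at h4
  have h5 : ((G * K).map (Int.castRingHom ℂ)).mahlerMeasure ≤ (D : ℝ) * H := by
    refine (mahlerMeasure_le_sum_norm_coeff _).trans ?_
    rw [Polynomial.sum]
    refine (Finset.sum_le_card_nsmul _ _ (H : ℝ) fun l _ => ?_).trans ?_
    · rw [coeff_map, eq_intCast, hn]
      exact_mod_cast h3 l
    · rw [nsmul_eq_mul]
      have h6 := card_supp_le_succ_natDegree ((G * K).map (Int.castRingHom ℂ))
      rw [natDegree_map_eq_of_injective (Int.castRingHom ℂ).injective_int] at h6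
      gcongr
      omega
  have h7 : G.natDegree.choose n ≤ 2 ^ D :=
    (Nat.choose_le_two_pow _ _).trans (Nat.pow_le_pow_right two_pos (by omega))
  have h8 : ((G.coeff n).natAbs : ℝ) ≤ (2 ^ D : ℕ) * ((D : ℝ) * H) :=
    h4.trans (mul_le_mul (by exact_mod_cast h7) h5 (mahlerMeasure_nonneg _) (by positivity))
  rw [mul_assoc]
  exact_mod_cast h8

/-- Degrees: additivity in both variables. Size: the substitution `y ↦ X`, `s ↦ X ^ (d + 1)` keeps
the coefficients apart; `norm_coeff_le_choose_mul_mahlerMeasure_of_one_le_mahlerMeasure`,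
`mahlerMeasure_le_sum_norm_coeff`, and a nonzero integer polynomial has Mahler measure `≥ 1`. -/
theorem mign {f g : ℤ[X][X]} (h0 : f ≠ 0) (hg : g ∣ f) {d H : ℕ} (h1 : f.natDegree ≤ d)
    (h2 : ∀ i, (f.coeff i).natDegree ≤ d) (h3 : ∀ i j, ((f.coeff i).coeff j).natAbs ≤ H)
    (i j : ℕ) : ((g.coeff i).coeff j).natAbs ≤ 2 ^ (d + 1) ^ 2 * (d + 1) ^ 2 * H := by
  have hg2 := mign_inner h0 hg h2
  rcases lt_or_ge d j with hj | hj
  · rw [coeff_eq_zero_of_natDegree_lt ((hg2 i).trans_lt hj)]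
    exact Nat.zero_le _
  have hc : ∀ n, (f.eval (X ^ (d + 1))).coeff n = (f.coeff (n / (d + 1))).coeff (n % (d + 1)) :=
    fun n => by
      rw [← mign_kron h2 _ (Nat.lt_succ_iff.1 (Nat.mod_lt n d.succ_pos)), Nat.div_add_mod]
  rw [← mign_kron hg2 i hj]
  refine mign_one (F := f.eval (X ^ (d + 1))) (fun h => h0 ?_) (eval_dvd hg) ?_
    (fun n => by rw [hc]; exact h3 _ _) _
  · ext a b
    rcases lt_or_ge d b with hb | hb
    · rw [coeff_eq_zero_of_natDegree_lt ((h2 a).trans_lt hb), coeff_zero, coeff_zero]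
    · rw [← mign_kron h2 a hb, h, coeff_zero, coeff_zero, coeff_zero]
  · have h4 : (f.eval (X ^ (d + 1))).natDegree ≤ d * (d + 2) :=
      natDegree_le_iff_coeff_eq_zero.2 fun n hn => by
        have h5 : d + 1 ≤ n / (d + 1) := (Nat.le_div_iff_mul_le d.succ_pos).2 (by nlinarith)
        rw [hc, coeff_eq_zero_of_natDegree_lt (p := f) (by omega), coeff_zero]
    nlinarith

end Pool.Agent.Lib.MP_8b1d3b_lc.NG
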