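import Pool.Agent.Lib.Common.Stepanov.Weil

/-! A point over the prime field. -/

open Polynomial

namespace Pool.Agent.Lib.MP_8b1d3b_lc.NG

open Pool.Agent.Lib.Common.Stepanov

section Shear

variable {K : Type} [Field K]

theorem curve_ext {S : Type} [Semiring S] {f g : K[X][X] →+* S}
    (h0 : ∀ c, f (C (C c)) = g (C (C c))) (h1 : f (C X) = g (C X)) (h2 : f X = g X) : f = g :=
  Polynomial.ringHom_ext' (Polynomial.ringHom_ext h0 h1) h2

/-- The substitution `s ↦ s + a y`, `y ↦ b y`. -/
noncomputable def curve_lin (a b : K) : K[X][X] →+* K[X][X] :=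
  eval₂RingHom (eval₂RingHom (C.comp C) (C X + C (C a) * X)) (C (C b) * X)

theorem curve_lin_CC (a b c : K) : curve_lin a b (C (C c)) = C (C c) := by
  simp [curve_lin]

theorem curve_lin_CX (a b : K) : curve_lin a b (C X) = C X + C (C a) * X := by
  simp [curve_lin]

theorem curve_lin_X (a b : K) : curve_lin a b X = C (C b) * X := by
  simp [curve_lin]

theorem curve_lin_comp (a b a' b' : K) (h1 : a + a' * b = 0) (h2 : b' * b = 1) :
    (curve_lin a b).comp (curve_lin a' b') = RingHom.id _ := by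
  refine curve_ext (fun c => ?_) ?_ ?_
  · simp only [RingHom.comp_apply, curve_lin_CC, RingHom.id_apply]
  · simp only [RingHom.comp_apply, curve_lin_CX, map_add, map_mul, curve_lin_CC, curve_lin_X,
      RingHom.id_apply]
    rw [← mul_assoc, add_assoc, ← add_mul, ← map_mul, ← map_mul, ← map_add, ← map_add, h1]
    simp
  · simp only [RingHom.comp_apply, map_mul, curve_lin_CC, curve_lin_X, RingHom.id_apply]
    rw [← mul_assoc, ← map_mul, ← map_mul, h2]
    simp

theorem curve_lin_irr {b : K} (hb : b ≠ 0) {B : K[X][X]} (hi : Irreducible B) :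
    Irreducible (curve_lin 1 b B) := by
  let e : K[X][X] ≃+* K[X][X] := RingEquiv.ofRingHom (curve_lin 1 b) (curve_lin (-b⁻¹) b⁻¹)
    (curve_lin_comp _ _ _ _ (by rw [neg_mul, inv_mul_cancel₀ hb, add_neg_cancel])
      (inv_mul_cancel₀ hb))
    (curve_lin_comp _ _ _ _ (by rw [one_mul, neg_add_cancel]) (mul_inv_cancel₀ hb))
  exact hi.map e

theorem curve_lin_eval (a b x y : K) (g : K[X][X]) :
    (curve_lin a b g).evalEval x y = g.evalEval (x + a * y) (b * y) := by
  have h : (evalEvalRingHom x y).comp (curve_lin a b) = evalEvalRingHom (x + a * y) (b * y) := by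
    refine curve_ext (fun c => ?_) ?_ ?_
    · simp [curve_lin_CC]
    · simp [curve_lin_CX]
    · simp [curve_lin_X]
  exact RingHom.congr_fun h g

theorem curve_lin_psi (b : K) (g : K[X][X]) :
    (curve_lin 1 b g).map (evalRingHom 0) = (psi K g).map (evalRingHom b) := by
  have h : (mapRingHom (evalRingHom 0)).comp (curve_lin 1 b) =
      (mapRingHom (evalRingHom b)).comp (psi K) := by
    refine curve_ext (fun c => ?_) ?_ ?_
    · simp [curve_lin_CC, psi]
    · simp [curve_lin_CX, psi]
    · simp [curve_lin_X, psi]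
  exact RingHom.congr_fun h g

theorem curve_CC_mem (c : K) : (C (C c) : K[X][X]) ∈ Fil K 0 := Fil_C (by simp)

theorem curve_lin_C (a b : K) (h : K[X]) : curve_lin a b (C h) ∈ Fil K h.natDegree := by
  have h1 : (C X + C (C a) * X : K[X][X]) ∈ Fil K 1 :=
    Submodule.add_mem _ Fil_CX (Fil_mul (curve_CC_mem a) Fil_X)
  conv_rhs => rw [h.as_sum_range_C_mul_X_pow]
  rw [map_sum, map_sum]
  refine Submodule.sum_mem _ fun i hi => ?_
  have h2 := Finset.mem_range.1 hi
  rw [map_mul, map_mul, map_pow, map_pow, curve_lin_CC, curve_lin_CX]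
  exact Fil_mono (Fil_mul (curve_CC_mem _) (Fil_pow h1 i)) (by omega)

theorem curve_lin_mem (a b : K) {n : ℕ} {g : K[X][X]} (hg : g ∈ Fil K n) :
    curve_lin a b g ∈ Fil K n := by
  have h1 : (C (C b) * X : K[X][X]) ∈ Fil K 1 := Fil_mul (curve_CC_mem b) Fil_X
  rw [g.as_sum_range_C_mul_X_pow, map_sum]
  refine Submodule.sum_mem _ fun i _ => ?_
  rcases lt_or_ge n i with h | h
  · rw [Fil_coeff_zero hg h]
    simp
  · have h2 := Fil_coeff hg i
    rw [map_mul, map_pow, curve_lin_X]
    exact Fil_mono (Fil_mul (curve_lin_C a b _) (Fil_pow h1 i)) (by omega)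

theorem curve_exists_fixed (p : ℕ) [Fact p.Prime] [CharP K p] {T : K[X]} (hT : T ≠ 0)
    (h : T.natDegree < p) : ∃ b : K, b ^ p = b ∧ T.eval b ≠ 0 := by
  by_contra hc
  let F : Finset K := Finset.univ.map ⟨ZMod.castHom (dvd_refl p) K, RingHom.injective _⟩
  have hF : ∀ x ∈ F, x ^ p = x := by
    intro x hx
    obtain ⟨a, -, rfl⟩ := Finset.mem_map.1 hx
    simp only [Function.Embedding.coeFn_mk, ← map_pow, ZMod.pow_card]
  have hFc : F.card = p := by simp [F]
  refine hT (eq_zero_of_natDegree_lt_card_of_eval_eq_zero' T F (fun x hx => ?_) (by omega))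
  by_contra h1
  exact hc ⟨x, hF x hx, h1⟩

theorem curve_frob (p : ℕ) [Fact p.Prime] [CharP K p] {B : K[X][X]}
    (h3 : ∀ i j, ((B.coeff i).coeff j) ^ p = (B.coeff i).coeff j) (u v : K) :
    B.evalEval (u ^ p) (v ^ p) = B.evalEval u v ^ p := by
  have h : B.map (mapRingHom (frobenius K p)) = B := by
    ext i j
    rw [coeff_map, coe_mapRingHom, coeff_map, frobenius_def, h3]
  have h1 := map_mapRingHom_evalEval (frobenius K p) B u v
  rwa [h] at h1

/-- The normal form of the curve. -/
theorem curve_normal (p : ℕ) [Fact p.Prime] [CharP K p] {B : K[X][X]} (hi : Irreducible B)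
    (h0 : psi K B ≠ 0) (hp : (psi K B).natDegree + 1 < p) :
    ∃ (b c : K), b ^ p = b ∧ b ≠ 0 ∧ c ≠ 0 ∧ IsCurve (C (C c) * curve_lin 1 b B) ∧
      (C (C c) * curve_lin 1 b B).natDegree = (psi K B).natDegree := by
  have hT : (psi K B).coeff (psi K B).natDegree ≠ 0 := leadingCoeff_ne_zero.2 h0
  have hB : B ∈ Fil K (psi K B).natDegree := mem_Fil_iff.2 le_rfl
  generalize (psi K B).natDegree = D at hT hB hp ⊢
  have hTd : ((psi K B).coeff D).natDegree ≤ D :=
    natDegree_le_iff_coeff_eq_zero.2 fun b hb => by rw [psi_coeff, if_neg (by omega)]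
  obtain ⟨b, hb1, hb2⟩ := curve_exists_fixed p (mul_ne_zero X_ne_zero hT)
    (natDegree_mul_le.trans_lt (by rw [natDegree_X]; omega))
  rw [eval_mul, eval_X] at hb2
  have hb := left_ne_zero_of_mul hb2
  have hc := right_ne_zero_of_mul hb2
  have hL := curve_lin_mem 1 b hB
  have h1 : (curve_lin 1 b B).coeff D = C (((psi K B).coeff D).eval b) := by
    have h2 := congrArg (fun q : K[X] => q.coeff D) (curve_lin_psi b B)
    simp only [coeff_map, coe_evalRingHom] at h2
    have h3 := Fil_coeff hL D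
    rw [Nat.sub_self] at h3
    rw [← h2, ← coeff_zero_eq_eval_zero]
    exact eq_C_of_natDegree_le_zero h3
  generalize ((psi K B).coeff D).eval b = c at hc h1
  have hM : C (C c⁻¹) * curve_lin 1 b B ∈ Fil K D := by
    simpa using Fil_mul (curve_CC_mem c⁻¹) hL
  have h2 : (C (C c⁻¹) * curve_lin 1 b B).coeff D = 1 := by
    rw [coeff_C_mul, h1, ← map_mul, inv_mul_cancel₀ hc, map_one]
  have h3 : (C (C c⁻¹) * curve_lin 1 b B).natDegree ≤ D :=
    natDegree_le_iff_coeff_eq_zero.2 fun i hi => Fil_coeff_zero hM hi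
  have h4 : (C (C c⁻¹) * curve_lin 1 b B).natDegree = D :=
    natDegree_eq_of_le_of_coeff_ne_zero h3 (by rw [h2]; exact one_ne_zero)
  refine ⟨b, c⁻¹, hb1, hb, inv_ne_zero hc,
    ⟨monic_of_natDegree_le_of_coeff_eq_one D h3 h2, by rwa [h4], ?_⟩, h4⟩
  exact (irreducible_isUnit_mul (((IsUnit.mk0 _ (inv_ne_zero hc)).map C).map C)).2
    (curve_lin_irr hb hi)

end Shear

/-- Let `D ≤ 2 d` be the total degree of `B`. Shear `s ↦ s + a y` with `a` in the prime field such
that the top form does not vanish at `(a, 1)`, and normalise; the result is an `IsCurve` of degree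
`D` with coefficients fixed by Frobenius. `points_lower` gives at least `(p - 2 D ^ 3) / 2` points,
and at most `d * e` points of `B` have `r (s) = 0`. -/
theorem curve_point {K : Type} [Field K] [IsAlgClosed K] (p : ℕ) [Fact p.Prime] [CharP K p]
    {B : K[X][X]} (hm : B.Monic) (hi : Irreducible B) {d e : ℕ} (h1 : B.natDegree ≤ d)
    (h2 : ∀ i, (B.coeff i).natDegree ≤ d)
    (h3 : ∀ i j, ((B.coeff i).coeff j) ^ p = (B.coeff i).coeff j) {r : K[X]} (hr : r ≠ 0)
    (he : r.natDegree ≤ e) (hp : 50 * (2 * d) ^ 5 + 2 * (2 * d) ^ 3 + 2 * d * e < p) :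
    ∃ s y : K, s ^ p = s ∧ y ^ p = y ∧ B.evalEval s y = 0 ∧ r.eval s ≠ 0 := by
  classical
  by_contra hc
  have hp2 : 2 ≤ p := (Fact.out : p.Prime).two_le
  have h0 : psi K B ≠ 0 := fun h0 => by
    have h := psi_coeff B B.natDegree B.natDegree
    rw [h0, hm.coeff_natDegree] at h
    simp at h
  have hD : (psi K B).natDegree ≤ 2 * d := by
    refine mem_Fil_iff.1 fun a b hab => ?_
    rcases lt_or_ge d b with h | h
    · rw [coeff_eq_zero_of_natDegree_lt (h1.trans_lt h), coeff_zero]
    · exact coeff_eq_zero_of_natDegree_lt ((h2 b).trans_lt (by omega))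
  have e1 : 2 * d ≤ (2 * d) ^ 5 := Nat.le_self_pow (by norm_num) _
  obtain ⟨b, c, hb1, hb, hc0, hB, hdeg⟩ := curve_normal p hi h0 (by omega)
  have hev : ∀ x y : K, (C (C c) * curve_lin 1 b B).evalEval x y = 0 ↔
      B.evalEval (x + y) (b * y) = 0 := by
    intro x y
    rw [evalEval_mul, evalEval_CC, curve_lin_eval, one_mul, mul_eq_zero, or_iff_right hc0]
  generalize C (C c) * curve_lin 1 b B = B' at hB hdeg hev
  rw [← hdeg] at hD
  have e5 : B'.natDegree ^ 5 ≤ (2 * d) ^ 5 := Nat.pow_le_pow_left hD 5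
  have e3 : B'.natDegree ^ 3 ≤ (2 * d) ^ 3 := Nat.pow_le_pow_left hD 3
  let T : Finset (K × K) := r.roots.toFinset.biUnion fun s =>
    (B.map (evalRingHom s)).roots.toFinset.image fun y => (s, y)
  have hT : T.card ≤ e * d := by
    refine (Finset.card_biUnion_le_card_mul _ _ d fun s _ => ?_).trans
      (Nat.mul_le_mul_right _ ((Multiset.toFinset_card_le _).trans ((card_roots' r).trans he)))
    exact Finset.card_image_le.trans ((Multiset.toFinset_card_le _).trans
      ((card_roots' _).trans (natDegree_map_le.trans h1)))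
  let f : Pts B' → K × K := fun q => (q.1.1 + q.1.2, b * q.1.2)
  have hf : Function.Injective f := by
    intro q q' h
    have h4 : q.1.2 = q'.1.2 := mul_left_cancel₀ hb (congrArg Prod.snd h)
    have h5 : q.1.1 + q.1.2 = q'.1.1 + q'.1.2 := congrArg Prod.fst h
    rw [h4] at h5
    exact Subtype.ext (Prod.ext (add_right_cancel h5) h4)
  have hN : (T.preimage f hf.injOn).card ≤ T.card :=
    Finset.card_le_card_of_injOn f (fun q hq => Finset.mem_preimage.1 hq) hf.injOn
  have h := points_lower p hB (by omega) (fun x y hx hxy => by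
      rw [hev] at hxy ⊢
      have h4 := curve_frob p h3 (x + y) (b * y)
      rwa [hxy, zero_pow (by omega), add_pow_char, mul_pow, hx, hb1] at h4)
    (T.preimage f hf.injOn) (fun q hx hy => by
      have h4 := (hev _ _).1 q.2
      have h5 : r.eval (q.1.1 + q.1.2) = 0 := by
        by_contra h6
        exact hc ⟨_, _, by rw [add_pow_char, hx, hy], by rw [mul_pow, hb1, hy], h4, h6⟩
      refine Finset.mem_preimage.2 (Finset.mem_biUnion.2 ⟨q.1.1 + q.1.2,
        Multiset.mem_toFinset.2 ((mem_roots hr).2 h5), Finset.mem_image.2 ⟨b * q.1.2,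
        Multiset.mem_toFinset.2 ((mem_roots (hm.map _).ne_zero).2 ?_), rfl⟩⟩)
      rwa [IsRoot, map_evalRingHom_eval])
  have e6 : 2 * d * e = 2 * (e * d) := by ring
  omega

end Pool.Agent.Lib.MP_8b1d3b_lc.NG
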