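import Pool.Agent.Lib.MP_8b1d3b_lc.NG.GaoP
import Pool.Agent.Lib.MP_8b1d3b_lc.NG.Curve
import Pool.Agent.Lib.MP_8b1d3b_lc.NG.Cop
import Pool.Agent.Lib.MP_8b1d3b_lc.NG.NormB

/-! The point over the small prime field. -/

open Polynomial NumberField

namespace Pool.Agent.Lib.MP_8b1d3b_lc.NG

theorem modp_fix {K : Type} [Field K] (p : ℕ) [Fact p.Prime] [CharP K p] {x : K}
    (h : x ^ p = x) : ∃ n : ℤ, (n : K) = x :=
  (mem_bot_iff_intCast p K).1 ((Subfield.mem_bot_iff_pow_eq_self K p).2 h)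

theorem modp_ev {σ A K : Type} [CommRing A] [CommRing K] (ι : A →+* K) (α v : σ → ℤ) (s : A) :
    ι.comp (ev fun i => (α i : A) + v i * s) = (evalRingHom (ι s)).comp
      (ln (Int.castRingHom K) (fun i => α i) fun i => v i) :=
  hom_ext fun i => by simp [ln]

theorem modp_frob {σ L : Type} [Field L] [NumberField L] {p : ℕ} [Fact p.Prime]
    {π : 𝓞 L →+* AlgebraicClosure (ZMod p)} {φ : L ≃ₐ[ℚ] L} (hφ : IsFr p π φ) (α v : σ → ℤ)
    {g : MvPolynomial σ (𝓞 L)} (hg : MvPolynomial.map (act φ) g = g) (j : ℕ) :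
    (ln π (fun i => α i) (fun i => v i) g).coeff j ^ p =
      (ln π (fun i => α i) (fun i => v i) g).coeff j := by
  have e : (frobenius (AlgebraicClosure (ZMod p)) p).comp π = π.comp (act φ) :=
    RingHom.ext fun x => (hφ x).symm
  rw [← frobenius_def, ← coeff_map, ln_comp, e, ← ln_map, hg]
  simp only [map_intCast]

/-- Paper B3. `K` the algebraic closure, `B k` the restriction of `Ψ k` to the line, reduced by `π`.
The product is the restriction of `f`; `irr_of_max` and `gao_pos` show that the `B k` are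
irreducible (`Sep` from `hab`, as `ln ρ` has the value `ev α ρ ≠ 0` at `0`). The coefficients of
`B k₀` are fixed by Frobenius, its degrees are bounded by `inner_deg`; `curve_point` with
`r = ln (ρ * l)`. Elements with `x ^ p = x` come from `ZMod p`; `z = α + s v`, `ln_eval`. -/
theorem mod_point {σ L : Type} [Field L] [NumberField L] {κ : ℕ} {f : (MvPolynomial σ ℤ)[X]}
    {Ψ : Fin κ → (MvPolynomial σ (𝓞 L))[X]} (h0 : ∀ k, (Ψ k).Monic ∧ 0 < (Ψ k).natDegree)
    (h1 : ∏ k, Ψ k = f.map (MvPolynomial.map (Int.castRingHom (𝓞 L))))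
    {ρ l : MvPolynomial σ ℤ} {a b : (MvPolynomial σ ℤ)[X]} (hab : a * f + b * derivative f = C ρ)
    {α v : σ → ℤ} {d e : ℕ} (hd : f.natDegree ≤ d) (hd' : ∀ i, (f.coeff i).totalDegree ≤ d)
    (he : (ρ * l).totalDegree ≤ e) (p : ℕ) [Fact p.Prime]
    (hp : 50 * (2 * d) ^ 5 + 2 * (2 * d) ^ 3 + 2 * d * e < p)
    (hρ : ((ev α (ρ * l) : ℤ) : ZMod p) ≠ 0)
    (hD : Dim (gw (f.map (ln (Int.castRingHom (AlgebraicClosure (ZMod p))) (fun i => α i)
      fun i => v i)) f.natDegree (d + 1)) κ)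
    {π : 𝓞 L →+* AlgebraicClosure (ZMod p)} {φ : L ≃ₐ[ℚ] L} (hφ : IsFr p π φ) {k₀ : Fin κ}
    (hk : (Ψ k₀).map (MvPolynomial.map (act φ)) = Ψ k₀) :
    ∃ (z : σ → ZMod p) (y : ZMod p), f.eval₂ (ev z) y = 0 ∧ (derivative f).eval₂ (ev z) y ≠ 0 ∧
      ev z l ≠ 0 := by
  set K := AlgebraicClosure (ZMod p)
  set Λ := ln (Int.castRingHom K) (fun i => (α i : K)) fun i => (v i : K)
  let ι := algebraMap (ZMod p) K
  let B : Fin κ → K[X][X] := fun k => (Ψ k).map (ln π (fun i => α i) fun i => v i)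
  have hB : ∀ k, (B k).Monic ∧ 0 < (B k).natDegree := fun k =>
    ⟨(h0 k).1.map _, by rw [(h0 k).1.natDegree_map]; exact (h0 k).2⟩
  have hf : f.Monic := by
    refine monic_of_injective
      (MvPolynomial.map_injective (Int.castRingHom (𝓞 L)) Int.cast_injective) ?_
    rw [← h1]
    exact monic_prod_of_monic _ _ fun k _ => (h0 k).1
  have hprod : ∏ k, B k = f.map Λ := by
    rw [← Polynomial.map_prod, h1, Polynomial.map_map]
    refine congrArg (f.map ·) (RingHom.ext fun g => ?_)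
    rw [RingHom.comp_apply, ln_map, RingHom.ext_int (π.comp _) (Int.castRingHom K)]
  have hev : ∀ (s : ZMod p) g, ι (ev (fun i => (α i : ZMod p) + v i * s) g) = (Λ g).eval (ι s) :=
    fun s g => RingHom.congr_fun (modp_ev ι α v s) g
  have hr : Λ (ρ * l) ≠ 0 := fun e => hρ (ι.injective (by
    have h := hev 0 (ρ * l)
    rw [e, eval_zero] at h
    rw [map_zero, ← h, ← eq_intCast (Int.castRingHom (ZMod p)), comp_ev]
    simp))
  have hs : Sep (f.map Λ) := ⟨Λ ρ, a.map Λ, b.map Λ, fun e => hr (by rw [map_mul, e, zero_mul]), by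
    rw [derivative_map, ← Polynomial.map_mul, ← Polynomial.map_mul, ← Polynomial.map_add, hab,
      map_C]⟩
  have ht : ∀ i, ((f.map Λ).coeff i).natDegree < d + 1 := fun i => by
    rw [coeff_map]
    exact Nat.lt_succ_of_le ((ln_natDegree _ _ _ _).trans (hd' i))
  have hi : Irreducible (B k₀) := irr_of_max B hB (fun B' hB' e => by
    have h := gao_pos (t := d + 1) B' hB' (by rwa [e, hprod]) (by rwa [e, hprod])
    rw [e, hprod, hf.natDegree_map] at h
    exact h hD) k₀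
  obtain ⟨E, hE⟩ : B k₀ ∣ f.map Λ := hprod ▸ Finset.dvd_prod_of_mem B (Finset.mem_univ k₀)
  have hF : f.map Λ ≠ 0 := (hf.map Λ).ne_zero
  obtain ⟨t₁, t₂, h12, ht₁, -⟩ := inner_deg (g := E) (t := d + 1) (hB k₀).1.ne_zero
    (fun e => hF (by rw [hE, e, mul_zero])) (by rwa [← hE])
  obtain ⟨s, y, hs', hy', hB0, hr0⟩ := curve_point p (hB k₀).1 hi
    ((natDegree_le_of_dvd ⟨E, hE⟩ hF).trans (natDegree_map_le.trans hd))
    (fun i => (ht₁ i).trans (by omega)) (fun i j => by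
      rw [coeff_map]
      refine modp_frob hφ α v ?_ j
      rw [← coeff_map, hk]) hr ((ln_natDegree _ _ _ _).trans he) hp
  obtain ⟨s, rfl⟩ := modp_fix p hs'
  obtain ⟨y, rfl⟩ := modp_fix p hy'
  rw [← map_intCast ι s] at hB0 hr0
  rw [← map_intCast ι y] at hB0
  rw [← hev, _root_.map_ne_zero, map_mul, mul_ne_zero_iff] at hr0
  have hz : f.eval₂ (ev fun i => (α i : ZMod p) + v i * s) (y : ZMod p) = 0 := by
    refine ι.injective ?_
    rw [hom_eval₂, modp_ev, ← eval₂_map, eval₂_evalRingHom, hE, evalEval_mul, hB0, zero_mul,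
      map_zero]
  refine ⟨_, y, hz, fun e => hr0.1 ?_, hr0.2⟩
  have h := congrArg (eval₂ (ev fun i => (α i : ZMod p) + v i * s) (y : ZMod p)) hab
  rw [eval₂_add, eval₂_mul, eval₂_mul, hz, e, eval₂_C] at h
  simpa using h.symm

end Pool.Agent.Lib.MP_8b1d3b_lc.NG
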