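import Pool.Agent.Lib.MP_8b1d3b_lc.NG.NumB

/-! Numerical bounds. -/

open Nat

namespace Pool.Agent.Lib.MP_8b1d3b_lc.NG

/-- The primes up to `2 ^ A` and the prime factors of `b`. -/
theorem bad_primes {A b : ℕ} (h0 : 0 < b) (hb : b ≤ 2 ^ 2 ^ A) : ∃ S : Finset ℕ,
    S.card ≤ 2 ^ (A + 1) ∧ ∀ p, p.Prime → p ∉ S → 2 ^ A < p ∧ ¬ p ∣ b := by
  refine ⟨Finset.Icc 1 (2 ^ A) ∪ b.primeFactors, ?_, fun p hp hS => ?_⟩
  · have h1 : 2 ^ b.primeFactors.card ≤ 2 ^ 2 ^ A :=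
      ((Finset.pow_card_le_prod _ (fun p => p) 2 fun p hp =>
        (prime_of_mem_primeFactors hp).two_le).trans
          (le_of_dvd h0 (prod_primeFactors_dvd b))).trans hb
    have h2 := (Nat.pow_le_pow_iff_right one_lt_two).1 h1
    have h3 := Finset.card_union_le (Finset.Icc 1 (2 ^ A)) b.primeFactors
    rw [card_Icc] at h3
    rw [Nat.pow_succ]
    omega
  · rw [Finset.mem_union, not_or, Finset.mem_Icc, mem_primeFactors] at hS
    exact ⟨not_le.1 fun h => hS.1 ⟨hp.one_le, h⟩, fun h => hS.2 ⟨hp, h, h0.ne'⟩⟩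

/-- `Chebyshev.pi_ge` or `Nat.four_pow_lt_mul_centralBinom`. -/
theorem prime_ex (A : ℕ) (S : Finset ℕ) (hS : S.card ≤ 2 ^ A) :
    ∃ p, p.Prime ∧ p ∉ S ∧ 2 ^ A < p ∧ p ≤ 2 ^ (2 * A + 10) := by
  by_contra! h
  have h1 : primeCounting (2 ^ (2 * A + 10)) ≤ 2 * 2 ^ A := by
    rw [primeCounting, primeCounting', count_eq_card_filter_range]
    have h2 := Finset.card_union_le S (Finset.Icc 1 (2 ^ A))
    rw [card_Icc] at h2
    refine (Finset.card_le_card (t := S ∪ Finset.Icc 1 (2 ^ A)) fun p hp => ?_).trans (by omega)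
    rw [Finset.mem_filter, Finset.mem_range] at hp
    by_contra h3
    rw [Finset.mem_union, not_or, Finset.mem_Icc] at h3
    have := h p hp.2 h3.1 (not_le.1 fun h => h3.2 ⟨hp.2.one_le, h⟩)
    omega
  have h2 := Chebyshev.pi_ge (2 ^ (2 * A + 10))
  have hl : 0 < Real.log 2 := Real.log_pos one_lt_two
  have h3 : Real.log (((2 ^ (2 * A + 10) : ℕ) : ℝ) + 1) ≤ (2 * A + 11) * Real.log 2 := by
    have : ((2 * A + 11 : ℕ) : ℝ) * Real.log 2 = Real.log (2 ^ (2 * A + 11)) :=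
      (Real.log_pow _ _).symm
    push_cast at this ⊢
    rw [this]
    refine Real.log_le_log (by positivity) ?_
    have : (1 : ℝ) ≤ 2 ^ (2 * A + 10) := one_le_pow₀ one_le_two
    rw [pow_succ (2 : ℝ) (2 * A + 10)]
    linarith
  have h4 : Real.log ((2 ^ (2 * A + 10) : ℕ) : ℝ) = (2 * A + 10) * Real.log 2 := by
    push_cast
    rw [Real.log_pow]
    push_cast
    ring
  have h5 : (primeCounting (2 ^ (2 * A + 10)) : ℝ) ≤ 2 * 2 ^ A := by exact_mod_cast h1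
  have h6 : (A : ℝ) < 2 ^ A := by exact_mod_cast Nat.lt_two_pow_self
  have h7 : (1 : ℝ) ≤ 2 ^ A := one_le_pow₀ one_le_two
  have h8 : ((2 ^ (2 * A + 10) : ℕ) : ℝ) = 1024 * (2 ^ A * 2 ^ A) := by
    push_cast
    ring
  rw [h4, div_le_iff₀ (by positivity)] at h2
  have h9 : (primeCounting (2 ^ (2 * A + 10)) : ℝ) * ((2 * A + 10) * Real.log 2) ≤
      2 * 2 ^ A * ((2 * A + 10) * Real.log 2) := by gcongr
  have h10 : (1024 * (2 ^ A * 2 ^ A) - (2 * A + 11) - 2 * 2 ^ A * (2 * A + 10)) * Real.log 2 ≤ 0 := by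
    rw [← h8]
    linarith
  have h11 : (0 : ℝ) < 1024 * (2 ^ A * 2 ^ A) - (2 * A + 11) - 2 * 2 ^ A * (2 * A + 10) := by
    nlinarith
  exact absurd (mul_pos h11 hl) (not_lt.2 h10)

end Pool.Agent.Lib.MP_8b1d3b_lc.NG
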