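import Pool.Agent.Lib.MP_8b1d3b_lc.NG.Split
import Pool.Agent.Lib.MP_8b1d3b_lc.NG.Fixed
import Pool.Agent.Lib.MP_8b1d3b_lc.NG.FrobA
import Pool.Agent.Lib.MP_8b1d3b_lc.NG.Gen
import Pool.Agent.Lib.MP_8b1d3b_lc.NG.ModP
import Pool.Agent.Lib.MP_8b1d3b_lc.NG.Mign
import Pool.Agent.Lib.MP_8b1d3b_lc.NG.NumA

/-! Transfer to the small primes. -/

open Polynomial

namespace Pool.Agent.Lib.MP_8b1d3b_lc.NG

theorem stageB : ∃ c : ℕ, ∀ (N : ℕ) (σ : Type) [Fintype σ], 2 ≤ N →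
    ∀ (Dt f : (MvPolynomial σ ℤ)[X]) (l : MvPolynomial σ ℤ), Dt.Monic →
      PBd Dt (2 ^ N) (2 ^ 2 ^ N) → f.Monic → f ∣ Dt → Sep f → Smo f → l ≠ 0 →
      Bd l (2 ^ N) (2 ^ 2 ^ N) → ∃ S : Finset ℕ, S.card ≤ 2 ^ N ^ c ∧
        ∀ (p : ℕ) [Fact p.Prime], p ∉ S → ∃ (z : σ → ZMod p) (y : ZMod p),
          f.eval₂ (ev z) y = 0 ∧ (derivative f).eval₂ (ev z) y ≠ 0 ∧ ev z l ≠ 0 := by
  obtain ⟨c, hc⟩ := num_b
  refine ⟨c + 1, fun N σ _ hN Dt f l hDm hDt hm hdvd hsep hsmo hl0 hl => ?_⟩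
  classical
  obtain ⟨d, hd⟩ : ∃ d, d = 2 ^ N := ⟨_, rfl⟩
  obtain ⟨h, hh⟩ : ∃ h, h = 2 ^ 2 ^ N := ⟨_, rfl⟩
  rw [← hh, ← hd] at hDt hl
  have hd1 : 1 ≤ d := hd ▸ Nat.one_le_two_pow
  have hh1 : 1 ≤ h := hh ▸ Nat.one_le_two_pow
  obtain ⟨g1, g2⟩ := deg_factor hDm.ne_zero hDt hdvd
  obtain ⟨ρ, a, b, hρ, hab, hρd, hρs⟩ := res_ex hm hsep (d := 2 * d) (by omega) g2
  have he : (ρ * l).totalDegree ≤ 9 * d ^ 2 :=
    (MvPolynomial.totalDegree_mul _ _).trans (by nlinarith [hl.1])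
  obtain ⟨α, hα, hα0⟩ := sz_nat (mul_ne_zero hρ hl0) he
  obtain ⟨L, _, _, _, ι, κ, Ψ, h0, h1, h2⟩ := split hm
  obtain ⟨v, μ, u, hμ, hu, hv, hμs, hdim⟩ := good_line hm h0 h1 hab
    (left_ne_zero_of_mul (by rwa [map_mul] at hα0)) g1 g2
  obtain ⟨M, hM⟩ : ∃ M, M = 12 * d ^ 3 := ⟨_, rfl⟩
  have hM1 : 1 ≤ M := by rw [hM]; exact Nat.mul_pos (by norm_num) (Nat.pow_pos hd1)
  have hαM : ∀ i, (α i).natAbs ≤ M := fun i => (hα i).trans (by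
    rw [hM]; nlinarith [Nat.pow_le_pow_right hd1 (show 2 ≤ 3 by norm_num)])
  obtain ⟨H, hH⟩ : ∃ H, H = 2 ^ (d + 1) ^ 2 * (d + 1) ^ 2 * (h * (2 * M) ^ d) := ⟨_, rfl⟩
  have hH1 : 1 ≤ H := by rw [hH]; exact Nat.succ_le_of_lt (by positivity)
  have hB : ∀ i j, (((f.map (ln (Int.castRingHom ℤ) α v)).coeff i).coeff j).natAbs ≤ H :=
    fun i j => hH ▸ mign (hDm.map (ln (Int.castRingHom ℤ) α v)).ne_zero (Polynomial.map_dvd _ hdvd)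
      (natDegree_map_le.trans hDt.1)
      (fun i => by rw [coeff_map]; exact (ln_natDegree _ _ _ _).trans (hDt.2 i).1)
      (fun i j => by rw [coeff_map]; exact ln_int (hDt.2 i) hαM (hM ▸ hv) hM1 j) i j
  obtain ⟨n1, n2⟩ := hc N d h u M H hN hd hh hu hM hH
  have s1 := hρs (ev α) H hH1 fun i => by
    have := hB i 0
    rwa [coeff_map, coeff_zero_eq_eval_zero, ln_eval, show (fun i => α i + v i * 0) = α by simp]
      at this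
  rw [show 2 * (2 * d) = 4 * d by ring] at s1
  obtain ⟨S, hS, hS'⟩ := bad_primes (b := (ev α (ρ * l) * μ).natAbs) (A := N ^ c)
    (Int.natAbs_pos.2 (mul_ne_zero hα0 hμ)) (by
      rw [map_mul, Int.natAbs_mul, Int.natAbs_mul]
      exact (Nat.mul_le_mul (Nat.mul_le_mul s1 (hl.ev_int hαM hM1)) (hμs H hH1 hB)).trans n1)
  refine ⟨S, hS.trans (Nat.pow_le_pow_right two_pos ?_), fun p hp hpS => ?_⟩
  · have : 1 ≤ N ^ c := Nat.pow_pos (by omega)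
    rw [pow_succ]
    nlinarith
  obtain ⟨p1, p2⟩ := hS' p hp.out hpS
  have p3 : ∀ (K : Type) [Field K] [CharP K p], ((ev α (ρ * l) : ℤ) : K) ≠ 0 ∧ (μ : K) ≠ 0 :=
    fun K _ _ => by
      rw [← mul_ne_zero_iff, ← Int.cast_mul, Ne, CharP.intCast_eq_zero_iff K p, Int.natCast_dvd]
      exact p2
  obtain ⟨π, φ, hφ⟩ := frob_ex L p
  obtain ⟨k, hk⟩ := fixed h1 h2 hsmo φ
  refine mod_point (fun k => ⟨(h0 k).1, ?_⟩) h1 hab (d := 2 * d) (by omega) g2 he p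
    (n2.trans_lt p1) (p3 _).1 (hdim _ (p3 _).2) hφ hk
  refine Nat.pos_of_ne_zero fun e => (h0 k).2.not_isUnit ?_
  rw [(h0 k).1.natDegree_eq_zero.1 e, Polynomial.map_one]
  exact isUnit_one

end Pool.Agent.Lib.MP_8b1d3b_lc.NG
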