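import Pool.Agent.Lib.MP_8b1d3b_lc.NG.Rec
import Pool.Agent.Lib.MP_8b1d3b_lc.NG.Cop
import Pool.Agent.Lib.MP_8b1d3b_lc.NG.SZ

/-! The product of the good factors. -/

open MvPolynomial
open scoped Polynomial

namespace Pool.Agent.Lib.MP_8b1d3b_lc.NG

theorem stager_deg {τ σ : Type} [Fintype τ] (Δ : (MvPolynomial (τ ⊕ σ) ℤ)[X]) :
    ∃ N : ℕ, ∀ {F : Type} [Field F] (z : σ → F) (P : τ → F),
      (Δ.eval₂ (sp z) (∑ i, X i * C (P i))).totalDegree ≤ N := by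
  refine ⟨∑ i ∈ Finset.range (Δ.natDegree + 1), ((Δ.coeff i).totalDegree + i), fun z P => ?_⟩
  have h : (∑ i, X i * C (P i)).totalDegree ≤ 1 := totalDegree_finsetSum_le fun i _ =>
    (totalDegree_mul _ _).trans (by rw [totalDegree_X, totalDegree_C])
  rw [Polynomial.eval₂_eq_sum_range]
  refine totalDegree_finsetSum_le fun i hi => ((totalDegree_mul _ _).trans (add_le_add
    (sp_degree z _) ((totalDegree_pow _ _).trans (mul_le_of_le_one_right' h)))).trans ?_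
  exact Finset.single_le_sum (f := fun i => (Δ.coeff i).totalDegree + i)
    (fun _ _ => Nat.zero_le _) hi

/-- Paper R. `l = Δ.leadingCoeff`, `D` a bound for the degrees in `S`; `Φ` in the factorisation of
`Δ.integralNormalization` (`monic_factors`) is good if it divides `hom D (Th l Φ) (Gi l Φ) f` for
all `f ∈ S`; `Fp` is the product of the set of good ones. Let `Ω ≠ 0` be the product of `l`, of
the `ρ` of `Sep Fp` and of the `ρ` of `cop_of_not_dvd` for the bad ones, and `ω` a nonzero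
coefficient of `sumAlgEquiv Ω`; then `sp z Ω ≠ 0` (`coeff_sp`). For `q` large
`Δ.eval₂ (sp z) (∑ i, X i * C (P i)) = 0` by `sz_zero` and `eval_sp`,
`integralNormalization_eval₂_leadingCoeff_mul` (degree zero is excluded by `sp z l ≠ 0`), some
factor vanishes, `chain`, `hom_eq`; it is good; take `la` with `eval la (sp z Ω) ≠ 0`. -/
theorem stageR {τ σ : Type} [Fintype τ] (S : Finset (MvPolynomial τ ℤ))
    {Δ : (MvPolynomial (τ ⊕ σ) ℤ)[X]} (h0 : Δ ≠ 0)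
    (H : ∀ ω : MvPolynomial σ ℤ, ω ≠ 0 → ∃ q0, ∀ (q : ℕ) [Fact q.Prime], q0 ≤ q →
      ∃ (z : σ → ZMod q) (P : τ → ZMod q), ev z ω ≠ 0 ∧ (∀ f ∈ S, ev P f = 0) ∧
        ∀ la : τ → ZMod q, Δ.eval₂ (ev (Sum.elim la z)) (∑ i, la i * P i) = 0) :
    ∃ Fp : (MvPolynomial (τ ⊕ σ) ℤ)[X], Fp.Monic ∧ Fp ∣ Δ.integralNormalization ∧ Sep Fp ∧
      Smo Fp ∧ ∀ (K : Type) [Field K] (z : τ ⊕ σ → K) (y : K), Fp.eval₂ (ev z) y = 0 →
        (Polynomial.derivative Fp).eval₂ (ev z) y ≠ 0 → ev z Δ.leadingCoeff ≠ 0 →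
          ∃ x : τ → K, ∀ f ∈ S, ev x f = 0 := by
  classical
  have hl : Δ.leadingCoeff ≠ 0 := Polynomial.leadingCoeff_ne_zero.2 h0
  obtain ⟨s, hs, hp⟩ := monic_factors (Polynomial.monic_integralNormalization h0)
  set l := Δ.leadingCoeff with hldef
  have hD : ∀ f ∈ S, f.totalDegree ≤ S.sup totalDegree := fun f hf => Finset.le_sup hf
  generalize S.sup totalDegree = D at hD
  let G := s.toFinset.filter fun Φ => ∀ f ∈ S, Φ ∣ hom D (Th l Φ) (Gi l Φ) f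
  have hG : ∀ Φ ∈ G, Φ.Monic ∧ Irreducible Φ := fun Φ h =>
    hs Φ (Multiset.mem_toFinset.1 (Finset.mem_filter.1 h).1)
  have hsep : Sep (∏ Φ ∈ G, Φ) := sep_prod hG
  refine ⟨∏ Φ ∈ G, Φ, Polynomial.monic_prod_of_monic _ _ fun Φ h => (hG Φ h).1,
    prod_dvd_of_monic hG fun Φ h => hp ▸ Multiset.dvd_prod
      (Multiset.mem_toFinset.1 (Finset.mem_filter.1 h).1), hsep, ?_, fun K _ z y h1 h2 h3 => ?_⟩
  · obtain ⟨ρ₀, a₀, b₀, hρ₀, e₀⟩ := hsep
    have hbad : ∀ Φ, ∃ ρ, ρ ≠ 0 ∧ (Φ ∈ s → Φ ∉ G → ∃ f ∈ S, ∃ a b,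
        a * Φ + b * hom D (Th l Φ) (Gi l Φ) f = Polynomial.C ρ) := fun Φ => by
      by_cases h : Φ ∈ s ∧ Φ ∉ G
      · have h1 : ¬ ∀ f ∈ S, Φ ∣ hom D (Th l Φ) (Gi l Φ) f := fun h1 =>
          h.2 (Finset.mem_filter.2 ⟨Multiset.mem_toFinset.2 h.1, h1⟩)
        push Not at h1
        obtain ⟨f, hf, h1⟩ := h1
        obtain ⟨ρ, a, b, h2, h3⟩ := cop_of_not_dvd (hs Φ h.1).1 (hs Φ h.1).2 h1
        exact ⟨ρ, h2, fun _ _ => ⟨f, hf, a, b, h3⟩⟩
      · exact ⟨1, one_ne_zero, fun h1 h2 => absurd ⟨h1, h2⟩ h⟩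
    choose ρ hρ hb using hbad
    have hΩ : l * ρ₀ * ∏ Φ ∈ s.toFinset, ρ Φ ≠ 0 :=
      mul_ne_zero (mul_ne_zero hl hρ₀) (Finset.prod_ne_zero_iff.2 fun Φ _ => hρ Φ)
    obtain ⟨α, hα⟩ := ne_zero_iff.1 ((map_ne_zero_iff _ (sumAlgEquiv ℤ τ σ).injective).2 hΩ)
    obtain ⟨q0, hq0⟩ := H _ hα
    obtain ⟨N, hN⟩ := stager_deg Δ
    refine ⟨q0 + N + (l * ρ₀ * ∏ Φ ∈ s.toFinset, ρ Φ).totalDegree + 1, fun q _ hq => ?_⟩
    obtain ⟨z, P, h1, h2, h3⟩ := hq0 q (by omega)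
    have hsp : sp z (l * ρ₀ * ∏ Φ ∈ s.toFinset, ρ Φ) ≠ 0 := fun h => h1 (by
      rw [← coeff_sp, h, coeff_zero])
    have hev : ∀ (la : τ → ZMod q) (F : (MvPolynomial (τ ⊕ σ) ℤ)[X]) y,
        eval la (F.eval₂ (sp z) y) = F.eval₂ (ev (Sum.elim la z)) (eval la y) := fun la F y => by
      rw [Polynomial.hom_eval₂, show (eval la).comp (sp z) = ev (Sum.elim la z) from
        RingHom.ext (eval_sp la z)]
    have hQ : Δ.eval₂ (sp z) (∑ i, X i * C (P i)) = 0 :=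
      sz_zero ((hN z P).trans_lt (by rw [ZMod.card]; omega)) fun la => by
        rw [hev, ← h3 la]
        simp
    obtain ⟨la, hla⟩ : ∃ la, eval la (sp z (l * ρ₀ * ∏ Φ ∈ s.toFinset, ρ Φ)) ≠ 0 := by
      by_contra h
      push Not at h
      exact hsp (sz_zero ((sp_degree z _).trans_lt (by rw [ZMod.card]; omega)) h)
    rw [map_mul, map_mul, map_prod] at hsp
    have hn : 1 ≤ Δ.natDegree := by
      refine Nat.pos_of_ne_zero fun h => left_ne_zero_of_mul (left_ne_zero_of_mul hsp) ?_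
      rw [Polynomial.eq_C_of_natDegree_eq_zero h, Polynomial.eval₂_C] at hQ
      rwa [hldef, Polynomial.leadingCoeff, h]
    have hy := Polynomial.integralNormalization_eval₂_leadingCoeff_mul hn (sp z)
      (∑ i, X i * C (P i))
    rw [hQ, mul_zero, ← hp, ← hldef] at hy
    obtain ⟨y, hy'⟩ : ∃ y, y = sp z l * ∑ i, X i * C (P i) := ⟨_, rfl⟩
    rw [← hy', ← Polynomial.coe_eval₂RingHom, map_multiset_prod, Multiset.prod_eq_zero_iff,
      Multiset.mem_map] at hy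
    obtain ⟨Φ, hΦ, hΦ0⟩ := hy
    have hg : Φ ∈ G := by
      by_contra h
      obtain ⟨f, hf, a, b, e⟩ := hb Φ hΦ h
      have e1 := congrArg (Polynomial.eval₂RingHom (sp z) y) e
      rw [map_add, map_mul, map_mul, hΦ0, hom_eq _ (chain z P l Φ hy' hΦ0) (hD f hf),
        ← comp_ev (C : ZMod q →+* MvPolynomial τ (ZMod q)), h2 f hf] at e1
      refine Finset.prod_ne_zero_iff.1 (right_ne_zero_of_mul hsp) Φ
        (Multiset.mem_toFinset.2 hΦ) ?_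
      simpa using e1.symm
    have h4 : (∏ Φ ∈ G, Φ).eval₂ (ev (Sum.elim la z)) (eval la y) = 0 := by
      rw [← hev, Polynomial.eval₂_eq_zero_of_dvd_of_eval₂_eq_zero _ _
        (Finset.dvd_prod_of_mem (fun Φ => Φ) hg) hΦ0, map_zero]
    refine ⟨Sum.elim la z, eval la y, h4, fun h5 => hla ?_⟩
    have e1 := congrArg (Polynomial.eval₂ (ev (Sum.elim la z)) (eval la y)) e₀
    rw [Polynomial.eval₂_add, Polynomial.eval₂_mul, Polynomial.eval₂_mul, h4, h5,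
      Polynomial.eval₂_C, mul_zero, mul_zero, add_zero] at e1
    rw [eval_sp, map_mul, map_mul, ← e1, mul_zero, zero_mul]
  · obtain ⟨Φ, hΦ, h4, h5, -⟩ := simple_factor G (fun Φ => Φ) (ev z) y h1 h2
    have h6 : Polynomial.eval₂RingHom (ev z) y (Th l Φ) ≠ 0 := by
      rw [Polynomial.coe_eval₂RingHom, Th, Polynomial.eval₂_mul, Polynomial.eval₂_C, map_pow]
      exact mul_ne_zero (pow_ne_zero _ h3) h5
    refine ⟨fun i => Polynomial.eval₂RingHom (ev z) y (Gi l Φ i) /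
      Polynomial.eval₂RingHom (ev z) y (Th l Φ), fun f hf => ?_⟩
    have h7 := hom_eq (Polynomial.eval₂RingHom (ev z) y) (G := Gi l Φ)
      (fun i => (mul_div_cancel₀ _ h6).symm) (hD f hf)
    exact (mul_eq_zero.1 (h7.symm.trans (Polynomial.eval₂_eq_zero_of_dvd_of_eval₂_eq_zero _ _
      ((Finset.mem_filter.1 hΦ).2 f hf) h4))).resolve_left (pow_ne_zero _ h6)

end Pool.Agent.Lib.MP_8b1d3b_lc.NG
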