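import Pool.Agent.Lib.MP_8b1d3b_lc.NG.CoreAS
import Pool.Agent.Lib.MP_8b1d3b_lc.NG.StageR
import Pool.Agent.Lib.MP_8b1d3b_lc.NG.StageB

/-! Points modulo almost all primes, with a singly exponential bound. -/

open MvPolynomial
open scoped Polynomial

namespace Pool.Agent.Lib.MP_8b1d3b_lc.NG

theorem core : ∃ c : ℕ, ∀ (N : ℕ) (υ : Type) [Fintype υ] (m : ℕ), 2 ≤ N → Fintype.card υ ≤ N →
    m ≤ N → ∀ g : MvPolynomial (υ ⊕ Fin m) ℤ, Bd g (2 ^ N) (2 ^ 2 ^ N) →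
      (∃ x : Fin m → ℚ, sp x g = 0) → ∃ S : Finset ℕ, S.card ≤ 2 ^ N ^ c ∧
        ∀ (p : ℕ) [Fact p.Prime], p ∉ S → ∃ x : Fin m → ZMod p, sp x g = 0 := by
  obtain ⟨a, ha⟩ := coreAS
  obtain ⟨b, hb⟩ := stageB
  refine ⟨(a + 1) * 3 * b, fun N υ _ m hN hυ hm g hg hx => ?_⟩
  classical
  obtain ⟨S, hS⟩ : ∃ S : Finset (MvPolynomial (Fin m) ℤ), ∀ (K : Type) [CommRing K]
      (x : Fin m → K), sp x g = 0 ↔ ∀ f ∈ S, ev x f = 0 := by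
    refine ⟨(sumAlgEquiv ℤ υ (Fin m) g).coeffs, fun K _ x => ⟨fun h f hf => ?_, fun h => ?_⟩⟩
    · obtain ⟨n, -, rfl⟩ := mem_coeffs_iff.1 hf
      rw [← coeff_sp, h, coeff_zero]
    · ext n
      rw [coeff_sp, coeff_zero]
      by_cases e : coeff n (sumAlgEquiv ℤ υ (Fin m) g) = 0
      · rw [e, map_zero]
      · exact h _ (coeff_mem_coeffs n e)
  obtain ⟨x, hx⟩ := hx
  obtain ⟨q0, hq⟩ := rat_point S ((hS ℚ x).1 hx)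
  obtain ⟨Δ, h0, hΔ, H⟩ := ha N υ m hN hυ hm g hg ⟨q0, fun q _ h => by
    obtain ⟨x', hx'⟩ := hq q h
    exact ⟨x', (hS _ x').2 hx'⟩⟩
  obtain ⟨Fp, f1, f2, f3, f4, f5⟩ := stageR S h0 fun ω hω => by
    obtain ⟨q1, h1⟩ := H ω hω
    refine ⟨q1, fun q _ h => ?_⟩
    obtain ⟨z, P, u1, u2, u3⟩ := h1 q h
    exact ⟨z, P, u1, (hS _ P).1 u2, u3⟩
  obtain ⟨n, hn⟩ : ∃ n, n = N ^ (a + 1) := ⟨_, rfl⟩
  have e0 : N ^ a ≤ n := hn ▸ Nat.pow_le_pow_right (by omega) (Nat.le_succ a)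
  have e1 : 2 ≤ n := hn ▸ hN.trans (Nat.le_self_pow (Nat.succ_ne_zero a) N)
  have e2 : n ≤ n ^ 3 := Nat.le_self_pow (by norm_num) n
  have hΔ' : PBd Δ (2 ^ n) (2 ^ 2 ^ n) := hΔ.mono (Nat.pow_le_pow_right two_pos e0)
    (Nat.pow_le_pow_right two_pos (Nat.pow_le_pow_right two_pos e0))
  obtain ⟨T, hT, hT'⟩ := hb (n ^ 3) _ (e1.trans e2) _ Fp Δ.leadingCoeff
    (Polynomial.monic_integralNormalization h0)
    ((hΔ'.norm Nat.one_le_two_pow).mono (num_d n e1).1 (num_d n e1).2) f1 f2 f3 f4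
    (Polynomial.leadingCoeff_ne_zero.2 h0)
    ((hΔ'.2 _).mono (Nat.pow_le_pow_right two_pos e2)
      (Nat.pow_le_pow_right two_pos (Nat.pow_le_pow_right two_pos e2)))
  refine ⟨T, by rwa [hn, ← pow_mul, ← pow_mul, ← mul_assoc] at hT, fun p _ hp => ?_⟩
  obtain ⟨z, y, u1, u2, u3⟩ := hT' p hp
  obtain ⟨x', hx'⟩ := f5 _ z y u1 u2 u3
  exact ⟨x', (hS _ x').2 hx'⟩

end Pool.Agent.Lib.MP_8b1d3b_lc.NG
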