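import Pool.Agent.Lib.MP_8b1d3b_lc.NG.Slice

/-! Small nonempty slices off a hypersurface. -/

open MvPolynomial
open scoped Classical

namespace Pool.Agent.Lib.MP_8b1d3b_lc.NG

variable {υ : Type} [Fintype υ]

theorem sliceb_one {F : Type} [Field F] [Fintype F] {m D : ℕ} {g : MvPolynomial υ F} (hg : g ≠ 0)
    (hD : g.totalDegree ≤ D) :
    (Finset.univ.filter fun u : Fin (m + 1) × υ → F =>
      ∀ j, eval (fun i => u (j, i)) g = 0).card * Fintype.card F ^ (m + 1) ≤
        D ^ (m + 1) * Fintype.card F ^ ((m + 1) * Fintype.card υ) := by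
  have h1 := (sz_card hg).trans (Nat.mul_le_mul_right _ hD)
  have h2 : (Finset.univ.filter fun u : Fin (m + 1) × υ → F =>
      ∀ j, eval (fun i => u (j, i)) g = 0).card ≤
      (Finset.univ.filter fun x : υ → F => eval x g = 0).card ^ (m + 1) := by
    have h3 := Fintype.card_piFinset_const (Finset.univ.filter fun x : υ → F => eval x g = 0) (m + 1)
    rw [← h3]
    refine Finset.card_le_card_of_injOn (fun u j i => u (j, i)) (fun u hu => ?_) ?_
    · simpa using hu
    · intro u _ u' _ h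
      funext ⟨j, i⟩
      exact congrFun (congrFun h j) i
  calc _ ≤ (Finset.univ.filter fun x : υ → F => eval x g = 0).card ^ (m + 1) *
        Fintype.card F ^ (m + 1) := Nat.mul_le_mul_right _ h2
    _ ≤ (D * Fintype.card F ^ Fintype.card υ) ^ (m + 1) := by
        rw [← mul_pow]
        exact Nat.pow_le_pow_left h1 _
    _ = _ := by rw [mul_pow, ← pow_mul, mul_comm (Fintype.card υ)]

/-- Union bound over the at most `q ^ m` points `x`; for each of them the `m + 1` blocks are
independent, `sz_card`. -/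
theorem slice_u {F : Type} [Field F] [Fintype F] {m D : ℕ} (G : (Fin m → F) → MvPolynomial υ F)
    (hG : ∀ x, (G x).totalDegree ≤ D) :
    (Finset.univ.filter fun u : Fin (m + 1) × υ → F => ∃ x, G x ≠ 0 ∧
      ∀ j, eval (fun i => u (j, i)) (G x) = 0).card * Fintype.card F ≤
        D ^ (m + 1) * Fintype.card F ^ ((m + 1) * Fintype.card υ) := by
  have h1 : (Finset.univ.filter fun u : Fin (m + 1) × υ → F => ∃ x, G x ≠ 0 ∧
      ∀ j, eval (fun i => u (j, i)) (G x) = 0) ⊆
      (Finset.univ.filter fun x => G x ≠ 0).biUnion fun x =>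
        Finset.univ.filter fun u : Fin (m + 1) × υ → F =>
          ∀ j, eval (fun i => u (j, i)) (G x) = 0 := by
    intro u hu
    simpa using hu
  have h2 := Nat.mul_le_mul_right (Fintype.card F ^ (m + 1))
    ((Finset.card_le_card h1).trans Finset.card_biUnion_le)
  rw [Finset.sum_mul] at h2
  have h3 := h2.trans (Finset.sum_le_card_nsmul _ _ _ fun x hx =>
    sliceb_one (m := m) (Finset.mem_filter.1 hx).2 (hG x))
  have h4 : (Finset.univ.filter fun x => G x ≠ 0).card ≤ Fintype.card F ^ m :=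
    (Finset.card_le_univ _).trans_eq (by simp)
  have h5 := h3.trans (Nat.mul_le_mul_right _ h4)
  rw [pow_succ' (Fintype.card F), ← mul_assoc, mul_comm (Fintype.card F ^ m)] at h5
  exact Nat.le_of_mul_le_mul_right h5 (pow_pos Fintype.card_pos m)

/-- `slice_lin` with `w = 8 * (D + D ^ (m + 1)) + 1` for `Z = {x | G x = 0}`; remove the `z` with
`eval z ω = 0` (`sz_card`) and those of `slice_u`. -/
theorem slice (υ : Type) [Fintype υ] (m D κ : ℕ) : ∃ q0 : ℕ, ∀ (F : Type) [Field F] [Fintype F],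
    q0 ≤ Fintype.card F → ∀ G : (Fin m → F) → MvPolynomial υ F, (∀ x, (G x).totalDegree ≤ D) →
      (∃ x, G x = 0) → ∀ ω : MvPolynomial (Par υ m) F, ω ≠ 0 → ω.totalDegree ≤ D →
        ∃ e ≤ m, ∃ z : Par υ m → F, eval z ω ≠ 0 ∧ (∃ P, G P = 0 ∧ P ∈ Zs G e z) ∧
          κ * ((Zs G e z).ncard + 1) ≤ Fintype.card F := by
  obtain ⟨w, hw⟩ : ∃ w, w = 8 * (D + D ^ (m + 1)) + 1 := ⟨_, rfl⟩
  refine ⟨max w (κ * (2 * (1 + w) + 1)), fun F _ _ hq G hG hZ ω hω hD => ?_⟩
  obtain ⟨e, he, hY⟩ := slice_lin (Finset.univ.filter fun x => G x = 0)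
    (hZ.imp fun x hx => Finset.mem_filter.2 ⟨Finset.mem_univ _, hx⟩) (w := w) (by omega)
    ((le_max_left _ _).trans hq)
  refine ⟨e, he, ?_⟩
  have hU := slice_u G hG
  have hΩ := (sz_card hω).trans (Nat.mul_le_mul_right _ hD)
  obtain ⟨Y, hY, hY'⟩ : ∃ Y : Finset ((Fin m × Fin m) ⊕ Fin m → F),
      w * Fintype.card F ^ (m * m + m) ≤ 8 * Fintype.card F * Y.card ∧ ∀ y ∈ Y,
        (∃ P ∈ Finset.univ.filter fun x => G x = 0, Lin e y P) ∧
          ((Finset.univ.filter fun x => G x = 0).filter (Lin e y)).card ≤ 2 * (1 + w) :=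
    ⟨_, hY, fun y hy => (Finset.mem_filter.1 hy).2⟩
  generalize hU' : (Finset.univ.filter fun u : Fin (m + 1) × υ → F => ∃ x, G x ≠ 0 ∧
      ∀ j, eval (fun i => u (j, i)) (G x) = 0) = U at hU
  generalize hΩ' : (Finset.univ.filter fun z : Par υ m → F => eval z ω = 0) = Ω at hΩ
  have key : ∃ u y, y ∈ Y ∧ u ∉ U ∧ Sum.elim u y ∉ Ω := by
    by_contra hcon
    push Not at hcon
    have h1 : (Uᶜ ×ˢ Y).card ≤ Ω.card := by
      refine Finset.card_le_card_of_injOn (fun p => Sum.elim p.1 p.2) (fun p hp => ?_) ?_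
      · obtain ⟨hp1, hp2⟩ := Finset.mem_product.1 (Finset.mem_coe.1 hp)
        exact hcon _ _ hp2 (Finset.mem_compl.1 hp1)
      · intro p _ p' _ h
        exact Prod.ext (funext fun a => congrFun h (.inl a)) (funext fun a => congrFun h (.inr a))
    have h2 : U.card + Uᶜ.card = Fintype.card F ^ ((m + 1) * Fintype.card υ) := by
      rw [Finset.card_add_card_compl]
      simp
    have h3 : Y.card ≤ Fintype.card F ^ (m * m + m) := (Finset.card_le_univ _).trans_eq (by simp)
    have h4 : Fintype.card F ^ Fintype.card (Par υ m) =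
        Fintype.card F ^ ((m + 1) * Fintype.card υ) * Fintype.card F ^ (m * m + m) := by
      rw [← pow_add]
      simp
    rw [Finset.card_product] at h1
    rw [h4] at hΩ
    have h5 : 0 < Fintype.card F ^ ((m + 1) * Fintype.card υ) * Fintype.card F ^ (m * m + m) :=
      mul_pos (pow_pos Fintype.card_pos _) (pow_pos Fintype.card_pos _)
    generalize Fintype.card F ^ ((m + 1) * Fintype.card υ) = A at h2 hU hΩ h5
    generalize Fintype.card F ^ (m * m + m) = B at h3 hY hΩ h5
    generalize Fintype.card F = q at hU hY hΩ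
    have h6 : w * (A * B) ≤ 8 * (D + D ^ (m + 1)) * (A * B) :=
      calc w * (A * B) = A * (w * B) := by ring
        _ ≤ A * (8 * q * Y.card) := Nat.mul_le_mul_left _ hY
        _ = 8 * (Uᶜ.card * Y.card * q + U.card * q * Y.card) := by
            rw [← h2]
            ring
        _ ≤ 8 * (D * (A * B) + D ^ (m + 1) * A * B) := Nat.mul_le_mul_left _
            (Nat.add_le_add ((Nat.mul_le_mul_right _ h1).trans hΩ) (Nat.mul_le_mul hU h3))
        _ = _ := by ring
    have h7 := Nat.le_of_mul_le_mul_right h6 h5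
    omega
  obtain ⟨u, y, hy, hu, hz⟩ := key
  subst hU' hΩ'
  obtain ⟨⟨P, hP, hL⟩, hc⟩ := hY' y hy
  have hP' : G P = 0 := (Finset.mem_filter.1 hP).2
  refine ⟨Sum.elim u y, fun h => hz (Finset.mem_filter.2 ⟨Finset.mem_univ _, h⟩),
    ⟨P, hP', fun j => by rw [hP', map_zero], hL⟩, ?_⟩
  have h8 : Zs G e (Sum.elim u y) ⊆
      ↑((Finset.univ.filter fun x => G x = 0).filter (Lin e y)) := by
    intro x hx
    refine Finset.mem_coe.2 (Finset.mem_filter.2 ⟨Finset.mem_filter.2 ⟨Finset.mem_univ _, ?_⟩, hx.2⟩)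
    by_contra h0
    exact hu (Finset.mem_filter.2 ⟨Finset.mem_univ _, x, h0, hx.1⟩)
  have h9 := Set.ncard_le_ncard h8 (Finset.finite_toSet _)
  rw [Set.ncard_coe_finset] at h9
  exact (Nat.mul_le_mul_left κ (Nat.succ_le_succ (h9.trans hc))).trans
    ((le_max_right _ _).trans hq)

end Pool.Agent.Lib.MP_8b1d3b_lc.NG
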