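import Pool.Agent.Lib.MP_8b1d3b_lc.NG.StageA
import Pool.Agent.Lib.MP_8b1d3b_lc.NG.SliceB

/-! One polynomial for all slices. -/

open MvPolynomial
open scoped Polynomial

namespace Pool.Agent.Lib.MP_8b1d3b_lc.NG

/-- The equations of a slice. -/
noncomputable def coreasEq {υ : Type} {m : ℕ} (g : MvPolynomial (υ ⊕ Fin m) ℤ) (e : ℕ) :
    Fin (m + 1) ⊕ Fin m → MvPolynomial (Fin m ⊕ (Fin m ⊕ Par υ m)) ℤ
  | .inl j => rename (Sum.elim (fun u => .inr (.inr (.inl (j, u)))) fun k => .inl k) g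
  | .inr i => if (i : ℕ) < e then
      ∑ k, X (.inr (.inr (.inr (.inl (i, k))))) * X (.inl k) - X (.inr (.inr (.inr (.inr i))))
    else 0

theorem coreas_mem {υ F : Type} [CommRing F] {m : ℕ} (g : MvPolynomial (υ ⊕ Fin m) ℤ) (e : ℕ)
    (la : Fin m → F) (z : Par υ m → F) (x : Fin m → F) :
    x ∈ Zs (fun x => sp x g) e z ↔
      ∀ j, ev (Sum.elim x (Sum.elim la z)) (coreasEq g e j) = 0 := by
  rw [Sum.forall]
  refine and_congr (forall_congr' fun j => ?_) (forall_congr' fun i => ?_)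
  · rw [eval_sp, coreasEq, ev, ev, eval₂Hom_rename]
    refine Eq.congr_left ?_
    congr 2
    ext (u | k) <;> rfl
  · rw [coreasEq]
    split_ifs with h
    · simp only [h, true_imp_iff, map_sub, map_sum, map_mul, ev_X, Sum.elim_inl, Sum.elim_inr,
        sub_eq_zero]
    · simp [h]

theorem coreas_deg {σ A : Type} [CommRing A] (φ : ℤ →+* A) (f : MvPolynomial σ ℤ) :
    (map φ f).totalDegree ≤ f.totalDegree :=
  Finset.sup_mono (support_map_subset φ f)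

/-- Paper S. For `e ≤ m` apply `stageA` with `N ^ 5`, `τ = Fin m`, `σ = Fin m ⊕ Par υ m`,
`J = Fin (m + 1) ⊕ Fin m`, the equations `rename (u ↦ inr (inr (inl (j, u))), k ↦ inl k) g` and
(for `i < e`, else `0`) `∑ k, X (inr (inr (inr (inl (i, k))))) * X (inl k) - X (.. (inr i))`,
`l = ∑ i, X (inr (inl i)) * X (inl i)`. `Δ` is the product over `e` (`pbd_prod`, `num_c`);
`slice` with `G x = sp x g`, `ne_zero_mod`, `sp_degree`. The zero set is `Zs G e z` for every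
`la`. -/
theorem coreAS : ∃ c : ℕ, ∀ (N : ℕ) (υ : Type) [Fintype υ] (m : ℕ), 2 ≤ N → Fintype.card υ ≤ N →
    m ≤ N → ∀ g : MvPolynomial (υ ⊕ Fin m) ℤ, Bd g (2 ^ N) (2 ^ 2 ^ N) →
      (∃ q0, ∀ (q : ℕ) [Fact q.Prime], q0 ≤ q → ∃ x : Fin m → ZMod q, sp x g = 0) →
      ∃ Δ : (MvPolynomial (Fin m ⊕ Par υ m) ℤ)[X], Δ ≠ 0 ∧ PBd Δ (2 ^ N ^ c) (2 ^ 2 ^ N ^ c) ∧
        ∀ ω : MvPolynomial (Par υ m) ℤ, ω ≠ 0 → ∃ q0, ∀ (q : ℕ) [Fact q.Prime], q0 ≤ q →
          ∃ (z : Par υ m → ZMod q) (P : Fin m → ZMod q), ev z ω ≠ 0 ∧ sp P g = 0 ∧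
            ∀ la : Fin m → ZMod q, Δ.eval₂ (ev (Sum.elim la z)) (∑ i, la i * P i) = 0 := by
  obtain ⟨a, ha⟩ := stageA
  obtain ⟨c, hc⟩ := num_c a
  refine ⟨c, fun N υ _ m hN hυ hm g hg ⟨q1, hq1⟩ => ?_⟩
  have n1 : 8 * (N * N) ≤ N ^ 5 := by
    rw [show N ^ 5 = N ^ 3 * (N * N) by ring]
    exact Nat.mul_le_mul_right _ (Nat.pow_le_pow_left hN 3)
  have n2 : 2 * N ≤ N * N := Nat.mul_le_mul_right _ hN
  have n3 : N ≤ N ^ 5 := by omega
  have n4 : 2 ^ N ≤ 2 ^ N ^ 5 := Nat.pow_le_pow_right two_pos n3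
  have n5 : N < 2 ^ N := Nat.lt_two_pow_self
  have n6 : 2 ^ N ^ 5 < 2 ^ 2 ^ N ^ 5 := Nat.lt_two_pow_self
  have key := fun e : ℕ => ha (N ^ 5) (Fin m) (Fin m ⊕ Par υ m) (Fin (m + 1) ⊕ Fin m) (by omega)
    (by rw [Fintype.card_fin]; omega)
    (by
      simp only [Fintype.card_sum, Fintype.card_prod, Fintype.card_fin]
      have h1 : (m + 1) * Fintype.card υ ≤ N * N + N :=
        (Nat.mul_le_mul (show m + 1 ≤ N + 1 by omega) hυ).trans_eq (by ring)
      have h2 : m * m ≤ N * N := Nat.mul_le_mul hm hm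
      omega)
    (by simp only [Fintype.card_sum, Fintype.card_fin]; omega)
    (coreasEq g e) (∑ i, X (.inr (.inl i)) * X (.inl i))
    (by
      rintro (j | i)
      · exact (hg.rename _).mono n4 (Nat.pow_le_pow_right two_pos n4)
      · rw [coreasEq]
        split_ifs
        · refine ((bd_sum _ fun k _ => (bd_X _).mul (bd_X _)).sub
            ((bd_X _).mono one_le_two le_rfl)).mono (by omega) ?_
          rw [Finset.card_fin]
          omega
        · exact bd_zero _ _)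
    ((bd_sum _ fun k _ => (bd_X _).mul (bd_X _)).mono (by omega) (by rw [Finset.card_fin]; omega))
  choose Δ h0 hb κ hκ using key
  obtain ⟨c1, c2⟩ := hc N m hN hm _ _ rfl rfl
  refine ⟨∏ e ∈ Finset.range (m + 1), Δ e, Finset.prod_ne_zero_iff.2 fun e _ => h0 e,
    (pbd_prod _ fun e _ => hb e).mono (by rwa [Finset.card_range]) (by rwa [Finset.card_range]),
    fun ω hω => ?_⟩
  obtain ⟨q2, hq2⟩ := slice υ m (max (2 ^ N) ω.totalDegree) ((Finset.range (m + 1)).sup κ)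
  obtain ⟨q3, hq3⟩ := ne_zero_mod hω
  refine ⟨max q1 (max q2 q3), fun q _ hq => ?_⟩
  rw [max_le_iff, max_le_iff] at hq
  obtain ⟨e, he, z, hz, ⟨P, hP, hPz⟩, hcard⟩ := hq2 (ZMod q) (by rw [ZMod.card]; exact hq.2.1)
    (fun x => sp x g) (fun x => ((sp_degree x g).trans hg.1).trans (le_max_left _ _))
    (hq1 q hq.1) _ (hq3 q hq.2.2) ((coreas_deg _ ω).trans (le_max_right _ _))
  have he' : e ∈ Finset.range (m + 1) := Finset.mem_range.2 (Nat.lt_succ_of_le he)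
  rw [ZMod.card] at hcard
  refine ⟨z, P, by rwa [eval_map_int] at hz, hP, fun la => ?_⟩
  rw [Polynomial.eval₂_finsetProd]
  refine Finset.prod_eq_zero he' ?_
  have := hκ e q (Sum.elim la z) _ (coreas_mem g e la z)
    ((Nat.mul_le_mul_right _ (Finset.le_sup he')).trans hcard) P hPz
  simpa only [map_sum, map_mul, ev_X, Sum.elim_inl, Sum.elim_inr] using this

end Pool.Agent.Lib.MP_8b1d3b_lc.NG
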