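import Mathlib

/-! Transfer from the rationals to prime fields: definitions. -/

open MvPolynomial
open scoped Polynomial

namespace Pool.Agent.Lib.MP_8b1d3b_lc.NG

/-- The sum of the absolute values of the coefficients. -/
noncomputable def l1 {σ : Type} (f : MvPolynomial σ ℤ) : ℕ := ∑ d ∈ f.support, (coeff d f).natAbs

/-- Degree at most `d`, size at most `h`. -/
def Bd {σ : Type} (f : MvPolynomial σ ℤ) (d h : ℕ) : Prop := f.totalDegree ≤ d ∧ l1 f ≤ h

/-- The same for a polynomial in one more variable. -/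
def PBd {σ : Type} (f : (MvPolynomial σ ℤ)[X]) (d h : ℕ) : Prop :=
  f.natDegree ≤ d ∧ ∀ i, Bd (f.coeff i) d h

/-- Evaluation of an integer polynomial. -/
noncomputable def ev {σ A : Type} [CommRing A] (z : σ → A) : MvPolynomial σ ℤ →+* A :=
  eval₂Hom (Int.castRingHom A) z

/-- Evaluation of the second group of variables. -/
noncomputable def sp {τ σ A : Type} [CommRing A] (z : σ → A) :
    MvPolynomial (τ ⊕ σ) ℤ →+* MvPolynomial τ A := ev (Sum.elim X fun s => C (z s))

@[simp] theorem ev_X {σ A : Type} [CommRing A] (z : σ → A) (i : σ) : ev z (X i) = z i :=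
  eval₂Hom_X' _ _ _

@[simp] theorem sp_inl {τ σ A : Type} [CommRing A] (z : σ → A) (i : τ) :
    sp z (X (.inl i)) = X i := ev_X _ _

@[simp] theorem sp_inr {τ σ A : Type} [CommRing A] (z : σ → A) (i : σ) :
    sp (τ := τ) z (X (.inr i)) = C (z i) := ev_X _ _

theorem hom_ext {σ A : Type} [CommRing A] {f g : MvPolynomial σ ℤ →+* A}
    (h : ∀ i, f (X i) = g (X i)) : f = g :=
  ringHom_ext' (RingHom.ext_int _ _) h

theorem comp_ev {σ A B : Type} [CommRing A] [CommRing B] (φ : A →+* B) (z : σ → A)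
    (f : MvPolynomial σ ℤ) : φ (ev z f) = ev (fun i => φ (z i)) f :=
  RingHom.congr_fun (hom_ext (f := φ.comp (ev z)) (g := ev fun i => φ (z i)) fun i => by simp) f

theorem eval_sp {τ σ A : Type} [CommRing A] (x : τ → A) (z : σ → A)
    (f : MvPolynomial (τ ⊕ σ) ℤ) : eval x (sp z f) = ev (Sum.elim x z) f :=
  RingHom.congr_fun (hom_ext (f := (eval x).comp (sp z)) (g := ev (Sum.elim x z)) fun i => by
    rcases i with i | i <;> simp) f

/-- The exponent vector of a function. -/
noncomputable def fs {τ : Type} [Fintype τ] (b : τ → ℕ) : τ →₀ ℕ :=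
  Finsupp.equivFunOnFinite.symm b

@[simp] theorem fs_apply {τ : Type} [Fintype τ] (b : τ → ℕ) (i : τ) : fs b i = b i := rfl

/-- The substitution `x ↦ x + h`, as a polynomial in `h`. -/
noncomputable def tr {τ A : Type} [CommRing A] :
    MvPolynomial τ A →ₐ[A] MvPolynomial τ (MvPolynomial τ A) := aeval fun i => C (X i) + X i

/-- The substitution `x ↦ x - h`, as a polynomial in `h`. -/
noncomputable def trn {τ A : Type} [CommRing A] :
    MvPolynomial τ A →ₐ[A] MvPolynomial τ (MvPolynomial τ A) := aeval fun i => C (X i) - X i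

/-- The numerator of the truncated expansion of `(w / g) (x + h)`. -/
noncomputable def Wn {τ A : Type} [CommRing A] (T : ℕ) (w g : MvPolynomial τ A) :
    MvPolynomial τ (MvPolynomial τ A) :=
  tr w * ∑ k ∈ Finset.range (T + 1), (C g - tr g) ^ k * C g ^ (T - k)

/-- The coefficient at the exponent `q (b + 1) - 1`. -/
noncomputable def lam {τ A : Type} [Fintype τ] [CommRing A] (q : ℕ) (b : τ → ℕ)
    (v : MvPolynomial τ A) : A := coeff (fs fun i => q * (b i + 1) - 1) v

/-- The parameters of a slice. -/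
abbrev Par (υ : Type) (m : ℕ) : Type := (Fin (m + 1) × υ) ⊕ ((Fin m × Fin m) ⊕ Fin m)

/-- The first `e` linear equations. -/
def Lin {F : Type} [CommRing F] {m : ℕ} (e : ℕ) (y : (Fin m × Fin m) ⊕ Fin m → F)
    (x : Fin m → F) : Prop :=
  ∀ i : Fin m, (i : ℕ) < e → ∑ k, y (.inl (i, k)) * x k = y (.inr i)

/-- A slice. -/
def Zs {F υ : Type} [CommRing F] {m : ℕ} (G : (Fin m → F) → MvPolynomial υ F) (e : ℕ)
    (z : Par υ m → F) : Set (Fin m → F) :=
  {x | (∀ j, eval (fun u => z (.inl (j, u))) (G x) = 0) ∧ Lin e (fun s => z (.inr s)) x}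

/-- Separable over the fraction field. -/
def Sep {R : Type} [CommRing R] (f : R[X]) : Prop :=
  ∃ (ρ : R) (a b : R[X]), ρ ≠ 0 ∧ a * f + b * Polynomial.derivative f = Polynomial.C ρ

/-- For all large primes `q` there is a simple point over the field with `q` elements. -/
def Smo {σ : Type} (f : (MvPolynomial σ ℤ)[X]) : Prop :=
  ∃ q0 : ℕ, ∀ (q : ℕ) [Fact q.Prime], q0 ≤ q → ∃ (z : σ → ZMod q) (y : ZMod q),
    f.eval₂ (ev z) y = 0 ∧ (Polynomial.derivative f).eval₂ (ev z) y ≠ 0

/-- Restriction to the line through `α` with direction `v`. -/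
noncomputable def ln {σ A K : Type} [CommRing A] [CommRing K] (π : A →+* K) (α v : σ → K) :
    MvPolynomial σ A →+* K[X] :=
  eval₂Hom (Polynomial.C.comp π) fun i => Polynomial.C (α i) + Polynomial.C (v i) * Polynomial.X

end Pool.Agent.Lib.MP_8b1d3b_lc.NG
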