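import Pool.Agent.Lib.MP_8b1d3b_lc.NG.Def

/-! Definitions for the transfer step. -/

open Polynomial NumberField

namespace Pool.Agent.Lib.MP_8b1d3b_lc.NG

/-- The action of an automorphism on the integers. -/
noncomputable def act {L : Type} [Field L] [NumberField L] (φ : L ≃ₐ[ℚ] L) : 𝓞 L →+* 𝓞 L :=
  MulSemiringAction.toRingHom (L ≃ₐ[ℚ] L) (𝓞 L) φ

/-- `φ` is a Frobenius element for the reduction map `π`. -/
def IsFr {L : Type} [Field L] [NumberField L] (q : ℕ) [Fact q.Prime]
    (π : 𝓞 L →+* AlgebraicClosure (ZMod q)) (φ : L ≃ₐ[ℚ] L) : Prop :=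
  ∀ x, π (act φ x) = π x ^ q

/-- The derivative in the inner variable. -/
noncomputable def dS {A : Type} [CommRing A] (f : A[X][X]) : A[X][X] :=
  f.sum fun n c => monomial n (derivative c)

/-- The form `(b ds + a dy) / B` is closed iff this vanishes. -/
noncomputable def gao {A : Type} [CommRing A] (B a b : A[X][X]) : A[X][X] :=
  B * dS a - a * dS B - (B * derivative b - b * derivative B)

/-- A polynomial from its coefficients. -/
noncomputable def mk2 {A : Type} [CommRing A] {δ t : ℕ} (x : Fin δ × Fin t → A) : A[X][X] :=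
  ∑ u, monomial (u.1 : ℕ) (monomial (u.2 : ℕ) (x u))

/-- The unknowns of the linear system. -/
abbrev Un (δ t : ℕ) : Type := (Fin δ × Fin t) ⊕ (Fin δ × Fin t)

/-- The matrix of the linear system. -/
noncomputable def gw {A : Type} [CommRing A] (B : A[X][X]) (δ t : ℕ) (r : ℕ × ℕ) (u : Un δ t) : A :=
  ((gao B (mk2 fun v => if u = .inl v then 1 else 0)
    (mk2 fun v => if u = .inr v then 1 else 0)).coeff r.1).coeff r.2

/-- The solution space of the system `w` has dimension at most `κ`. -/
def Dim {K ρ U : Type} [Field K] [Fintype U] (w : ρ → U → K) (κ : ℕ) : Prop :=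
  ∀ x : Fin (κ + 1) → U → K, (∀ t r, ∑ u, w r u * x t u = 0) → ¬ LinearIndependent K x

end Pool.Agent.Lib.MP_8b1d3b_lc.NG
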