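import Pool.Agent.Lib.MP_8b1d3b_lc.NG.GaoB

/-! The linear system of closed forms. -/

open Polynomial

namespace Pool.Agent.Lib.MP_8b1d3b_lc.NG

variable {A A' : Type} [CommRing A] [CommRing A'] {δ t : ℕ}

theorem gaoa_dS_smul (c : A) (f : A[X][X]) : dS (c • f) = c • dS f := by
  ext1 n
  rw [dS_coeff, coeff_smul, coeff_smul, dS_coeff, derivative_smul]

theorem gaoa_mk2_add (x y : Fin δ × Fin t → A) : mk2 (x + y) = mk2 x + mk2 y := by
  simp only [mk2, Pi.add_apply, map_add, Finset.sum_add_distrib]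

theorem gaoa_mk2_smul (c : A) (x : Fin δ × Fin t → A) : mk2 (c • x) = c • mk2 x := by
  simp only [mk2, Pi.smul_apply, Finset.smul_sum, smul_monomial]

/-- A row of the system as a linear form. -/
noncomputable def gaoa_row (B : A[X][X]) (δ t : ℕ) (r : ℕ × ℕ) : (Un δ t → A) →ₗ[A] A where
  toFun x := ((gao B (mk2 fun v => x (.inl v)) (mk2 fun v => x (.inr v))).coeff r.1).coeff r.2
  map_add' x y := by
    have h1 := gaoa_mk2_add (fun v => x (.inl v)) fun v => y (.inl v)
    have h2 := gaoa_mk2_add (fun v => x (.inr v)) fun v => y (.inr v)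
    rw [← coeff_add, ← coeff_add]
    congr 2
    refine (congrArg₂ (gao B) h1 h2).trans ?_
    simp only [gao, dS_add, derivative_add]
    ring
  map_smul' c x := by
    have h1 := gaoa_mk2_smul c fun v => x (.inl v)
    have h2 := gaoa_mk2_smul c fun v => x (.inr v)
    rw [RingHom.id_apply, ← coeff_smul, ← coeff_smul]
    congr 2
    refine (congrArg₂ (gao B) h1 h2).trans ?_
    have h3 : ∀ f : A[X][X], derivative (c • f) = c • derivative f := fun f => derivative_smul c f
    simp only [gao, gaoa_dS_smul, h3, smul_sub, mul_smul_comm, smul_mul_assoc]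

theorem gw_sum (B : A[X][X]) (x : Un δ t → A) (r : ℕ × ℕ) : ∑ u, gw B δ t r u * x u =
    ((gao B (mk2 fun v => x (.inl v)) (mk2 fun v => x (.inr v))).coeff r.1).coeff r.2 := by
  classical
  refine Eq.trans ?_ (LinearMap.pi_apply_eq_sum_univ (gaoa_row B δ t r) x).symm
  exact Finset.sum_congr rfl fun u _ => mul_comm _ _

theorem gaoa_dS_map (φ : A →+* A') (f : A[X][X]) :
    dS (f.map (mapRingHom φ)) = (dS f).map (mapRingHom φ) := by
  ext1 n
  rw [dS_coeff, coeff_map, coeff_map, dS_coeff, coe_mapRingHom, derivative_map]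

theorem gaoa_mk2_map (φ : A →+* A') (x : Fin δ × Fin t → A) :
    (mk2 x).map (mapRingHom φ) = mk2 fun v => φ (x v) := by
  simp only [mk2, Polynomial.map_sum, map_monomial, coe_mapRingHom]

theorem gw_map (φ : A →+* A') (B : A[X][X]) (r : ℕ × ℕ) (u : Un δ t) :
    φ (gw B δ t r u) = gw (B.map (mapRingHom φ)) δ t r u := by
  have h : ∀ a b : A[X][X], (gao B a b).map (mapRingHom φ) =
      gao (B.map (mapRingHom φ)) (a.map (mapRingHom φ)) (b.map (mapRingHom φ)) := fun a b => by
    simp only [gao, Polynomial.map_sub, Polynomial.map_mul, gaoa_dS_map, derivative_map]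
  rw [gw, gw, ← coeff_map, ← coe_mapRingHom, ← coeff_map, h, gaoa_mk2_map, gaoa_mk2_map]
  simp only [apply_ite φ, map_one, map_zero]

theorem gaoa_wr (β : A[X]) (j m : ℕ) :
    (β * derivative (X ^ j) - X ^ j * derivative β).coeff m = 0 ∨ ∃ p : ℕ,
      (β * derivative (X ^ j) - X ^ j * derivative β).coeff m = (((j : ℤ) - p : ℤ) : A) * β.coeff p := by
  have h1 : X * derivative (X ^ j : A[X]) = C (j : A) * X ^ j := by
    rcases j with _ | j
    · simp
    · rw [derivative_X_pow_succ]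
      push_cast
      ring
  have h2 : X * (β * derivative (X ^ j) - X ^ j * derivative β) =
      X ^ j * (C (j : A) * β - X * derivative β) := by
    linear_combination β * h1
  have h3 : ∀ p : ℕ, (X * derivative β).coeff p = (p : A) * β.coeff p := by
    rintro (_ | p)
    · simp
    · rw [coeff_X_mul, coeff_derivative]
      push_cast
      ring
  rw [← coeff_X_mul, h2, coeff_X_pow_mul']
  split_ifs
  · refine Or.inr ⟨m + 1 - j, ?_⟩
    rw [coeff_sub, coeff_C_mul, h3]
    push_cast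
    ring
  · exact Or.inl rfl

theorem gaoa_mk2_single (w : Fin δ × Fin t) :
    mk2 (fun v => if w = v then (1 : A) else 0) = C (X ^ (w.2 : ℕ)) * X ^ (w.1 : ℕ) := by
  rw [mk2, Finset.sum_eq_single w]
  · rw [if_pos rfl, C_mul_X_pow_eq_monomial, X_pow_eq_monomial]
  · intro v _ h
    rw [if_neg h.symm, map_zero, map_zero]
  · simp

theorem gaoa_mk2_zero : mk2 (fun _ : Fin δ × Fin t => (0 : A)) = 0 := by simp [mk2]

/-- For `a = s ^ j y ^ i` the coefficient of `s ^ r₂ y ^ r₁` in `B a_s - a B_s` is `j - p` times the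
coefficient of `s ^ p y ^ (r₁ - i)` in `B`, `p = r₂ + 1 - j`; the same for `b`. -/
theorem gw_form (B : A[X][X]) (r : ℕ × ℕ) (u : Un δ t) : gw B δ t r u = 0 ∨
    ∃ (n : ℤ) (i j : ℕ), n.natAbs ≤ δ + t + i + j ∧ gw B δ t r u = n * (B.coeff i).coeff j := by
  have d0 : dS (0 : A[X][X]) = 0 := by
    ext1 n
    rw [dS_coeff, coeff_zero, derivative_zero]
  rcases u with w | w
  · have h1 := w.2.2
    have e : dS (C (X ^ (w.2 : ℕ)) * X ^ (w.1 : ℕ) : A[X][X]) =
        C (derivative (X ^ (w.2 : ℕ))) * X ^ (w.1 : ℕ) := by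
      ext1 n
      rw [dS_coeff, coeff_C_mul_X_pow, coeff_C_mul_X_pow]
      split_ifs
      · rfl
      · exact derivative_zero
    have e2 : gw B δ t r (.inl w) = ((X ^ (w.1 : ℕ) * (B * C (derivative (X ^ (w.2 : ℕ))) -
        C (X ^ (w.2 : ℕ)) * dS B)).coeff r.1).coeff r.2 := by
      simp only [gw, Sum.inl.injEq, reduceCtorEq, if_false, gaoa_mk2_single, gaoa_mk2_zero, gao, e]
      congr 2
      rw [derivative_zero]
      ring
    rw [e2, coeff_X_pow_mul']
    split_ifs
    · rw [coeff_sub, coeff_mul_C, coeff_C_mul, dS_coeff]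
      refine (gaoa_wr _ _ _).imp_right ?_
      rintro ⟨p, hp⟩
      exact ⟨_, _, p, by omega, hp⟩
    · exact Or.inl rfl
  · have h1 := w.1.2
    have e2 : gw B δ t r (.inr w) = ((-(C (X ^ (w.2 : ℕ)) * (B * derivative (X ^ (w.1 : ℕ)) -
        X ^ (w.1 : ℕ) * derivative B))).coeff r.1).coeff r.2 := by
      simp only [gw, Sum.inr.injEq, reduceCtorEq, if_false, gaoa_mk2_single, gaoa_mk2_zero, gao, d0,
        derivative_C_mul]
      congr 2
      ring
    rw [e2, coeff_neg, coeff_C_mul, coeff_neg, coeff_X_pow_mul']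
    split_ifs
    · rcases gaoa_wr B w.1 r.1 with h | ⟨p, hp⟩
      · exact Or.inl (by rw [h, coeff_zero, neg_zero])
      · refine Or.inr ⟨-(((w.1 : ℕ) : ℤ) - p), p, r.2 - w.2, by omega, ?_⟩
        rw [hp, ← C_eq_intCast, coeff_C_mul, Int.cast_neg, neg_mul]
    · exact Or.inl neg_zero

end Pool.Agent.Lib.MP_8b1d3b_lc.NG
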