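import Pool.Agent.Lib.MP_8b1d3b_lc.NG.GDef

/-! The inner derivative and coefficient vectors. -/

open Polynomial

namespace Pool.Agent.Lib.MP_8b1d3b_lc.NG

variable {A A' : Type} [CommRing A] [CommRing A'] {δ t : ℕ}

theorem dS_coeff (f : A[X][X]) (n : ℕ) : (dS f).coeff n = derivative (f.coeff n) := by
  unfold dS
  rw [Polynomial.sum_def, finsetSum_coeff]
  simp only [coeff_monomial]
  rw [Finset.sum_ite_eq']
  split_ifs with h
  · rfl
  · rw [notMem_support_iff.mp h, derivative_zero]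

theorem dS_add (f g : A[X][X]) : dS (f + g) = dS f + dS g := by
  ext1 n
  simp only [dS_coeff, coeff_add, derivative_add]

theorem dS_mul (f g : A[X][X]) : dS (f * g) = dS f * g + f * dS g := by
  ext1 n
  simp only [dS_coeff, coeff_add, coeff_mul, derivative_sum, derivative_mul,
    Finset.sum_add_distrib]

theorem dS_derivative (f : A[X][X]) : dS (derivative f) = derivative (dS f) := by
  ext1 n
  simp only [dS_coeff, coeff_derivative, derivative_mul, derivative_add, derivative_natCast,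
    derivative_one, add_zero, mul_zero]

theorem gaob_coeff (x : Fin δ × Fin t → A) (i j : ℕ) :
    ((mk2 x).coeff i).coeff j =
      if h : i < δ ∧ j < t then x (⟨i, h.1⟩, ⟨j, h.2⟩) else 0 := by
  unfold mk2
  rw [finsetSum_coeff, finsetSum_coeff]
  split_ifs with h
  · rw [Finset.sum_eq_single (⟨i, h.1⟩, ⟨j, h.2⟩)]
    · simp only [coeff_monomial_same]
    · intro u _ hu
      by_cases h1 : (u.1 : ℕ) = i
      · have h2 : (u.2 : ℕ) ≠ j := fun h2 => hu (Prod.ext (Fin.ext h1) (Fin.ext h2))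
        rw [coeff_monomial, if_pos h1, coeff_monomial, if_neg h2]
      · rw [coeff_monomial, if_neg h1, coeff_zero]
    · intro hu
      exact absurd (Finset.mem_univ _) hu
  · refine Finset.sum_eq_zero fun u _ => ?_
    by_cases h1 : (u.1 : ℕ) = i
    · have h2 : (u.2 : ℕ) ≠ j := fun h2 => h ⟨h1 ▸ u.1.2, h2 ▸ u.2.2⟩
      rw [coeff_monomial, if_pos h1, coeff_monomial, if_neg h2]
    · rw [coeff_monomial, if_neg h1, coeff_zero]

theorem mk2_coeff (x : Fin δ × Fin t → A) (u : Fin δ × Fin t) :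
    ((mk2 x).coeff u.1).coeff u.2 = x u := by
  rw [gaob_coeff, dif_pos ⟨u.1.2, u.2.2⟩]

theorem mk2_degree (x : Fin δ × Fin t → A) : (mk2 x).degree < δ := by
  rw [degree_lt_iff_coeff_zero]
  intro m hm
  ext1 j
  rw [gaob_coeff, dif_neg (fun h => absurd h.1 (not_lt.mpr hm)), coeff_zero]

theorem mk2_self {f : A[X][X]} (h1 : f.degree < δ) (h2 : ∀ i, (f.coeff i).natDegree < t) :
    mk2 (fun u : Fin δ × Fin t => (f.coeff u.1).coeff u.2) = f := by
  ext1 i
  ext1 j
  rw [gaob_coeff]
  split_ifs with h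
  · rfl
  · by_cases hi : i < δ
    · have hj : t ≤ j := not_lt.mp fun hj => h ⟨hi, hj⟩
      exact (coeff_eq_zero_of_natDegree_lt (lt_of_lt_of_le (h2 i) hj)).symm
    · rw [(degree_lt_iff_coeff_zero f δ).mp h1 i (not_lt.mp hi), coeff_zero]

end Pool.Agent.Lib.MP_8b1d3b_lc.NG
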