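import Pool.Agent.Lib.MP_8b1d3b_lc.NG.GaoA

/-! Each factor gives a closed form. -/

open Polynomial

namespace Pool.Agent.Lib.MP_8b1d3b_lc.NG

variable {K : Type} [Field K]

theorem gaop_swap (f : K[X][X]) (i j : ℕ) :
    ((Bivariate.swap f).coeff j).coeff i = (f.coeff i).coeff j := by
  induction f using Polynomial.induction_on' with
  | add p q hp hq => simp only [map_add, coeff_add, hp, hq]
  | monomial n c =>
    induction c using Polynomial.induction_on' with
    | add p q hp hq => simp only [map_add, coeff_add, hp, hq]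
    | monomial m r =>
      rw [Bivariate.swap_monomial_monomial]
      simp only [coeff_monomial]
      split_ifs <;> simp_all [coeff_monomial]

theorem gaop_le (f : K[X][X]) (i : ℕ) : (f.coeff i).natDegree ≤ (Bivariate.swap f).natDegree := by
  refine natDegree_le_iff_coeff_eq_zero.2 fun N hN => ?_
  rw [← gaop_swap, coeff_eq_zero_of_natDegree_lt hN, coeff_zero]

/-- The degree in the inner variable is additive (`Polynomial.Bivariate.swap`). -/
theorem inner_deg {f g : K[X][X]} (hf : f ≠ 0) (hg : g ≠ 0) {t : ℕ}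
    (h : ∀ i, ((f * g).coeff i).natDegree < t) : ∃ t₁ t₂, t₁ + t₂ < t ∧
      (∀ i, (f.coeff i).natDegree ≤ t₁) ∧ ∀ i, (g.coeff i).natDegree ≤ t₂ := by
  refine ⟨_, _, ?_, gaop_le f, gaop_le g⟩
  have h0 := h 0
  have h1 : (Bivariate.swap (f * g)).natDegree ≤ t - 1 := by
    refine natDegree_le_iff_coeff_eq_zero.2 fun N hN => ?_
    ext i
    have h2 := h i
    rw [gaop_swap, coeff_eq_zero_of_natDegree_lt (by omega), coeff_zero]
  rw [map_mul, natDegree_mul ((map_ne_zero_iff _ Bivariate.swap.injective).2 hf)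
    ((map_ne_zero_iff _ Bivariate.swap.injective).2 hg)] at h1
  omega

theorem gaop_mul {f g : K[X][X]} {t₁ t₂ : ℕ} (hf : ∀ i, (f.coeff i).natDegree ≤ t₁)
    (hg : ∀ i, (g.coeff i).natDegree ≤ t₂) (i : ℕ) : ((f * g).coeff i).natDegree ≤ t₁ + t₂ := by
  rw [coeff_mul]
  exact natDegree_sum_le_of_forall_le _ _ fun c _ =>
    natDegree_mul_le.trans (add_le_add (hf _) (hg _))

theorem gaop_one {B E : K[X][X]} (hB : B.Monic) (h0 : 0 < B.natDegree) (hE : E.Monic) {t : ℕ}
    (ht : ∀ i, ((B * E).coeff i).natDegree < t) :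
    ((E * derivative B).natDegree < (B * E).natDegree ∧
      ∀ i, ((E * derivative B).coeff i).natDegree < t) ∧
    ((E * dS B).natDegree < (B * E).natDegree ∧ ∀ i, ((E * dS B).coeff i).natDegree < t) ∧
    gao (B * E) (E * derivative B) (E * dS B) = 0 := by
  obtain ⟨t₁, t₂, h1, h2, h3⟩ := inner_deg hB.ne_zero hE.ne_zero ht
  have h4 : (dS B).natDegree ≤ B.natDegree - 1 := by
    refine natDegree_le_iff_coeff_eq_zero.2 fun N hN => ?_
    rw [dS_coeff]
    rcases (show B.natDegree ≤ N by omega).eq_or_lt with h | h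
    · rw [← h, hB.coeff_natDegree, derivative_one]
    · rw [coeff_eq_zero_of_natDegree_lt h, derivative_zero]
  have h5 := natDegree_derivative_le B
  have h6 : ∀ i, ((derivative B).coeff i).natDegree ≤ t₁ := fun i => by
    rw [coeff_derivative, ← Nat.cast_succ, ← nsmul_eq_mul']
    exact (natDegree_smul_le _ _).trans (h2 _)
  have h7 : ∀ i, ((dS B).coeff i).natDegree ≤ t₁ := fun i => by
    rw [dS_coeff]
    exact (natDegree_derivative_le _).trans ((Nat.sub_le _ _).trans (h2 _))
  rw [hB.natDegree_mul hE]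
  refine ⟨⟨?_, fun i => ?_⟩, ⟨?_, fun i => ?_⟩, ?_⟩
  · have := natDegree_mul_le (p := E) (q := derivative B)
    omega
  · have := gaop_mul h3 h6 i
    omega
  · have := natDegree_mul_le (p := E) (q := dS B)
    omega
  · have := gaop_mul h3 h7 i
    omega
  · simp only [gao, dS_mul, derivative_mul, dS_derivative]
    ring

theorem gaop_dvd {R ι : Type} [CommRing R] [Fintype ι] [DecidableEq ι] {c E D : ι → R}
    {B a b E' : R} {k : ι} (hdv : ∀ j, j ≠ k → B ∣ E j) (h : ∑ j, c j * (E j * D j) = 0) :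
    B ∣ c k * (a * (B * E k) + b * (D k * E k + B * E')) := by
  have h3 : B ∣ c k * (E k * D k) := by
    rw [← Finset.add_sum_erase _ _ (Finset.mem_univ k)] at h
    rw [eq_neg_of_add_eq_zero_left h, dvd_neg]
    exact Finset.dvd_sum fun j hj => ((hdv j (Finset.mem_erase.1 hj).1).mul_right _).mul_left _
  have h5 : c k * (a * (B * E k) + b * (D k * E k + B * E')) =
      B * (c k * (a * E k + b * E')) + b * (c k * (E k * D k)) := by ring
  rw [h5]
  exact dvd_add (dvd_mul_right _ _) (h3.mul_left _)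

/-- The solutions `a k = E k * derivative (B k)`, `b k = E k * dS (B k)`, `E k` the product of the
other factors. If `∑ c k * a k = 0` then `B k` divides `c k * derivative (∏ B)`, hence `c k * ρ`,
so `c k = 0`. -/
theorem gao_pos {κ t : ℕ} (B : Fin (κ + 1) → K[X][X])
    (hB : ∀ k, (B k).Monic ∧ 0 < (B k).natDegree) (hs : Sep (∏ k, B k))
    (ht : ∀ i, ((∏ k, B k).coeff i).natDegree < t) :
    ¬ Dim (gw (∏ k, B k) (∏ k, B k).natDegree t) κ := by
  obtain ⟨E, hE⟩ : ∃ E : Fin (κ + 1) → K[X][X], ∀ k, E k = ∏ j ∈ Finset.univ.erase k, B j :=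
    ⟨_, fun _ => rfl⟩
  have hP : ∀ k, B k * E k = ∏ k, B k := fun k => by
    rw [hE, Finset.mul_prod_erase _ _ (Finset.mem_univ k)]
  have hdv : ∀ k j, j ≠ k → B k ∣ E j := fun k j hj => by
    rw [hE]
    exact Finset.dvd_prod_of_mem _ (Finset.mem_erase.2 ⟨hj.symm, Finset.mem_univ _⟩)
  have hk := fun k => gaop_one (E := E k) (t := t) (hB k).1 (hB k).2
    (by rw [hE]; exact monic_prod_of_monic _ _ fun j _ => (hB j).1) (by rw [hP]; exact ht)
  simp only [hP] at hk
  generalize ∏ k, B k = P at hs hP hk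
  have hd : ∀ {f : K[X][X]}, f.natDegree < P.natDegree → f.degree < P.natDegree := fun h =>
    degree_le_natDegree.trans_lt (Nat.cast_lt.2 h)
  intro hD
  refine hD (fun k => Sum.elim (fun v => ((E k * derivative (B k)).coeff v.1).coeff v.2)
    fun v => ((E k * dS (B k)).coeff v.1).coeff v.2) (fun k r => ?_) ?_
  · rw [gw_sum]
    simp only [Sum.elim_inl, Sum.elim_inr]
    rw [mk2_self (hd (hk k).1.1) (hk k).1.2, mk2_self (hd (hk k).2.1.1) (hk k).2.1.2, (hk k).2.2,
      coeff_zero, coeff_zero]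
  · refine Fintype.linearIndependent_iff.2 fun c hc k => ?_
    have h1 : ∑ j, C (C (c j)) * (E j * derivative (B j)) = 0 := by
      ext i j
      simp only [finsetSum_coeff, coeff_C_mul, coeff_zero]
      by_cases hi : i < P.natDegree
      · by_cases hj : j < t
        · have h2 := congrFun hc (.inl (⟨i, hi⟩, ⟨j, hj⟩))
          simpa only [Finset.sum_apply, Pi.smul_apply, Sum.elim_inl, Pi.zero_apply,
            smul_eq_mul] using h2
        · refine Finset.sum_eq_zero fun l _ => ?_
          rw [coeff_eq_zero_of_natDegree_lt (((hk l).1.2 i).trans_le (not_lt.1 hj)), mul_zero]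
      · refine Finset.sum_eq_zero fun l _ => ?_
        rw [coeff_eq_zero_of_natDegree_lt ((hk l).1.1.trans_le (not_lt.1 hi)), coeff_zero,
          mul_zero]
    obtain ⟨ρ, a, b, hρ, hab⟩ := hs
    have h4 := gaop_dvd (c := fun j => C (C (c j))) (D := fun j => derivative (B j)) (a := a)
      (b := b) (E' := derivative (E k)) (hdv k) h1
    rw [← derivative_mul, hP k, hab, ← C_mul] at h4
    by_contra h6
    exact (hB k).1.not_dvd_of_natDegree_lt (C_ne_zero.2 (mul_ne_zero (C_ne_zero.2 h6) hρ))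
      (by rw [natDegree_C]; exact (hB k).2) h4

end Pool.Agent.Lib.MP_8b1d3b_lc.NG
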