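import Pool.Agent.Lib.MP_8b1d3b_lc.NG.GaoA

/-! Residues are constant. -/

open Polynomial
open scoped PowerSeries

namespace Pool.Agent.Lib.MP_8b1d3b_lc.NG

variable {K : Type} [Field K]

theorem gaoy_const (f : K[X][X]) (η : K⟦X⟧) :
    PowerSeries.constantCoeff (f.eval₂ coeToPowerSeries.ringHom η) =
      (f.map (evalRingHom 0)).eval (PowerSeries.constantCoeff η) := by
  have h : (PowerSeries.constantCoeff (R := K)).comp coeToPowerSeries.ringHom = evalRingHom 0 := by
    ext <;> simp
  rw [hom_eval₂, h, eval_map]

theorem gaoy_chain (f : K[X][X]) (η : K⟦X⟧) :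
    PowerSeries.derivative K (f.eval₂ coeToPowerSeries.ringHom η) =
      (dS f).eval₂ coeToPowerSeries.ringHom η +
        (derivative f).eval₂ coeToPowerSeries.ringHom η * PowerSeries.derivative K η := by
  induction f using Polynomial.induction_on' with
  | add p q hp hq =>
    rw [eval₂_add, map_add, hp, hq, dS_add, derivative_add, eval₂_add, eval₂_add]
    ring
  | monomial n c =>
    have h : dS (monomial n c) = monomial n (derivative c) := by
      ext1 m
      rw [dS_coeff, coeff_monomial, coeff_monomial]
      split_ifs <;> simp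
    rw [h, derivative_monomial, eval₂_monomial, eval₂_monomial, eval₂_monomial,
      Derivation.leibniz, PowerSeries.derivative_pow, map_mul, map_natCast]
    simp only [coeToPowerSeries.ringHom_apply, PowerSeries.derivative_coe, smul_eq_mul]
    ring

/-- `IsAdicComplete.henselianRing` for the ideal spanned by `PowerSeries.X`. -/
theorem hensel {B : K[X][X]} (hB : B.Monic) {r : K} (h0 : (B.map (evalRingHom 0)).eval r = 0)
    (h1 : (derivative (B.map (evalRingHom 0))).eval r ≠ 0) :
    ∃ η : K⟦X⟧, PowerSeries.constantCoeff η = r ∧ B.eval₂ coeToPowerSeries.ringHom η = 0 := by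
  obtain ⟨η, h2, h3⟩ := HenselianRing.is_henselian
    (I := (Ideal.span {PowerSeries.X} : Ideal K⟦X⟧)) (B.map coeToPowerSeries.ringHom)
    (hB.map _) (PowerSeries.C r) (by
      rw [Ideal.mem_span_singleton, PowerSeries.X_dvd_iff, eval_map, gaoy_const,
        PowerSeries.constantCoeff_C, h0]) (by
      refine IsUnit.map _ ?_
      rw [PowerSeries.isUnit_iff_constantCoeff, derivative_map, eval_map, gaoy_const,
        PowerSeries.constantCoeff_C, ← derivative_map]
      exact IsUnit.mk0 _ h1)
  refine ⟨η, ?_, ?_⟩
  · rw [Ideal.mem_span_singleton, PowerSeries.X_dvd_iff, map_sub, PowerSeries.constantCoeff_C,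
      sub_eq_zero] at h3
    exact h3
  · rw [← eval_map]
    exact h2

/-- Let `η` be a root of `B` with `B_y (η)` a unit, `lam = a (η) / B_y (η)`. The equation and its
`y`-derivative at `η`, and `B_s (η) + B_y (η) η' = 0`, give `lam' = 0`. -/
theorem residue_const [CharZero K] {B a b : K[X][X]} (h : gao B a b = 0) {η : K⟦X⟧}
    (h0 : B.eval₂ coeToPowerSeries.ringHom η = 0)
    (h1 : PowerSeries.constantCoeff ((derivative B).eval₂ coeToPowerSeries.ringHom η) ≠ 0) :
    ∃ c : K, (a - C (C c) * derivative B).eval₂ coeToPowerSeries.ringHom η = 0 := by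
  have hc := fun f => gaoy_chain f η
  have hC : ∀ c : K, (C (C c) : K[X][X]).eval₂ coeToPowerSeries.ringHom η = PowerSeries.C c :=
    fun c => by simp
  simp only [← coe_eval₂RingHom] at h0 h1 hc hC ⊢
  generalize eval₂RingHom coeToPowerSeries.ringHom η = E at h0 h1 hc hC ⊢
  have hy : E (derivative B) ≠ 0 := fun h2 => h1 (by rw [h2, map_zero])
  have e1 := hc B
  rw [h0, map_zero] at e1
  have e2 := congrArg E h
  have e3 := congrArg E (congrArg derivative h)
  simp only [gao, derivative_mul, map_sub, map_add, map_mul, map_zero, h0,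
    zero_mul] at e2 e3
  have e4 := hc a
  have e5 := hc (derivative B)
  rw [dS_derivative] at e5
  have e6 : E a * (E (derivative B))⁻¹ * E (derivative B) = E a := by
    rw [mul_assoc, PowerSeries.inv_mul_cancel _ h1, mul_one]
  generalize E a * (E (derivative B))⁻¹ = lam at e6
  have e7 := congrArg (PowerSeries.derivative K) e6
  rw [Derivation.leibniz, e4, e5, smul_eq_mul, smul_eq_mul] at e7
  have e8 : E a * PowerSeries.derivative K η + E b = 0 := by
    apply mul_left_cancel₀ hy
    linear_combination e2 - E a * e1
  have e9 : PowerSeries.derivative K lam = 0 := by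
    apply mul_left_cancel₀ (mul_ne_zero hy hy)
    linear_combination E (derivative B) * e7 + e3 - E (derivative a) * e1 -
      E (derivative (derivative B)) * e8 -
      (E (derivative (dS B)) + E (derivative (derivative B)) * PowerSeries.derivative K η) * e6
  refine ⟨PowerSeries.constantCoeff lam, ?_⟩
  have e10 : lam = PowerSeries.C (PowerSeries.constantCoeff lam) :=
    PowerSeries.derivative.ext (by rw [e9, PowerSeries.derivative_C]) (by simp)
  rw [map_sub, map_mul, hC, ← e10, e6, sub_self]

end Pool.Agent.Lib.MP_8b1d3b_lc.NG
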