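import Pool.Agent.Lib.MP_8b1d3b_lc.NG.GaoY

/-! Closed forms in characteristic zero. -/

open Polynomial
open scoped PowerSeries

namespace Pool.Agent.Lib.MP_8b1d3b_lc.NG

variable {K : Type} [Field K]

theorem gaoz_dvd {P f : K[X][X]} (hm : P.Monic) (hi : Irreducible P) {η : K⟦X⟧}
    (hP : P.eval₂ coeToPowerSeries.ringHom η = 0) (hf : f.eval₂ coeToPowerSeries.ringHom η = 0) :
    P ∣ f := by
  have e : (algebraMap K[X] K⟦X⟧) = coeToPowerSeries.ringHom := by
    ext <;> simp [PowerSeries.algebraMap_apply']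
  have : FaithfulSMul K[X] K⟦X⟧ := by
    rw [faithfulSMul_iff_algebraMap_injective, e]
    exact Polynomial.coe_injective K
  rw [← e] at hP hf
  have hint : IsIntegral K[X] η := ⟨P, hm, hP⟩
  have h1 : minpoly K[X] η ∣ P := minpoly.isIntegrallyClosed_dvd hint hP
  have h2 : minpoly K[X] η ∣ f := minpoly.isIntegrallyClosed_dvd hint hf
  exact ((hi.dvd_iff.1 h1).resolve_left (minpoly.not_isUnit K[X] η)).dvd.trans h2

theorem gaoz_const (f : K[X][X]) (η : K⟦X⟧) :
    PowerSeries.constantCoeff (f.eval₂ coeToPowerSeries.ringHom η) =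
      (f.map (evalRingHom 0)).eval (PowerSeries.constantCoeff η) := by
  have e : (PowerSeries.constantCoeff (R := K)).comp coeToPowerSeries.ringHom = evalRingHom 0 := by
    ext <;> simp
  rw [hom_eval₂, e, eval_map]

theorem gaoz_mk2 {δ t n : ℕ} (g : Fin n → K) (x : Fin n → Fin δ × Fin t → K) :
    mk2 (fun v => ∑ i, g i * x i v) = ∑ i, C (C (g i)) * mk2 (x i) := by
  simp only [mk2, map_sum, Finset.mul_sum, C_mul_monomial]
  exact Finset.sum_comm

/-- Paper B2. For each `k` take a root `r k` of `B k` at `s = 0` and lift it (`hensel`); `B k` is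
the minimal polynomial of `η k` over `K[X]`, so `B k ∣ a - c k * B_y` (`residue_const`). The linear
map `(a, b) ↦ (c k)_k` is injective on solutions: if all `c k = 0` then all `B k` divide `a`, they
are pairwise coprime, so `B ∣ a`, `a = 0`, then `B ∣ b * B_y`, `B ∣ b`, `b = 0`. For `κ + 1`
solutions take a nontrivial combination with all `c k = 0`. -/
theorem gao_zero [CharZero K] {κ t : ℕ} (B : Fin κ → K[X][X])
    (hB : ∀ k, (B k).Monic ∧ Irreducible (B k))
    (hs : ((∏ k, B k).map (evalRingHom 0)).Separable)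
    (hsp : ((∏ k, B k).map (evalRingHom 0)).Splits) :
    Dim (gw (∏ k, B k) (∏ k, B k).natDegree t) κ := by
  set F := ∏ k, B k with hF
  have hFm : F.Monic := monic_prod_of_monic _ _ fun k _ => (hB k).1
  have hdvd : ∀ k, B k ∣ F := fun k => Finset.dvd_prod_of_mem B (Finset.mem_univ k)
  have hroot : ∀ k, ∃ r, ((B k).map (evalRingHom 0)).eval r = 0 := fun k => by
    refine (hsp.of_dvd (hFm.map _).ne_zero (map_dvd _ (hdvd k))).exists_eval_eq_zero ?_
    rw [(hB k).1.degree_map]
    exact fun h => (hB k).2.not_isUnit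
      ((hB k).1.isUnit_iff.2 ((hB k).1.degree_le_zero_iff_eq_one.1 h.le))
  choose r hr using hroot
  have hη : ∀ k, ∃ η : K⟦X⟧, PowerSeries.constantCoeff η = r k ∧
      (B k).eval₂ coeToPowerSeries.ringHom η = 0 := fun k =>
    hensel (hB k).1 (hr k)
      ((hs.of_dvd (map_dvd _ (hdvd k))).eval₂_derivative_ne_zero (RingHom.id K) (hr k))
  choose η hη0 hη using hη
  have hF0 : ∀ k, F.eval₂ coeToPowerSeries.ringHom (η k) = 0 := fun k =>
    eval₂_eq_zero_of_dvd_of_eval₂_eq_zero _ _ (hdvd k) (hη k)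
  have hF1 : ∀ k, PowerSeries.constantCoeff
      ((derivative F).eval₂ coeToPowerSeries.ringHom (η k)) ≠ 0 := fun k => by
    rw [gaoz_const, hη0, ← derivative_map]
    exact hs.eval₂_derivative_ne_zero (RingHom.id K)
      (eval_eq_zero_of_dvd_of_eval_eq_zero (map_dvd _ (hdvd k)) (hr k))
  have hrel : Pairwise (Function.onFun IsRelPrime B) := fun k l hkl => by
    refine (hB k).2.isRelPrime_iff_not_dvd.2 fun h => ?_
    have h1 : B k * B l ∣ F := by
      rw [← Finset.prod_pair hkl]
      exact Finset.prod_dvd_prod_of_subset _ _ _ (Finset.subset_univ _)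
    have h2 := map_dvd (evalRingHom (0 : K)) ((mul_dvd_mul_left (B k) h).trans h1)
    rw [Polynomial.map_mul] at h2
    exact ((hs.squarefree _ h2).map (evalRingHom (r k))).ne_zero (hr k)
  have hzero : ∀ y : Fin F.natDegree × Fin t → K,
      (∀ k, (mk2 y).eval₂ coeToPowerSeries.ringHom (η k) = 0) → mk2 y = 0 := fun y hy =>
    eq_zero_of_dvd_of_degree_lt
      (Fintype.prod_dvd_of_isRelPrime hrel fun k => gaoz_dvd (hB k).1 (hB k).2 (hη k) (hy k))
      (by
        change _ < F.degree
        rw [degree_eq_natDegree hFm.ne_zero]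
        exact mk2_degree y)
  have hgao : ∀ y : Un F.natDegree t → K, (∀ r, ∑ u, gw F F.natDegree t r u * y u = 0) →
      gao F (mk2 fun v => y (.inl v)) (mk2 fun v => y (.inr v)) = 0 := fun y hy => by
    ext i j
    rw [← gw_sum F y (i, j), hy]
    rfl
  intro x hx hli
  choose c hc using fun i k => residue_const (hgao (x i) (hx i)) (hF0 k) (hF1 k)
  have hdep : ¬ LinearIndependent K c := fun h => by
    have h1 := h.fintype_card_le_finrank
    simp at h1
  obtain ⟨g, hg, i₀, hi₀⟩ := Fintype.not_linearIndependent_iff.1 hdep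
  refine hi₀ (Fintype.linearIndependent_iff.1 hli g ?_ i₀)
  have hy := hgao (fun u => ∑ i, g i * x i u) fun r => by
    simp only [Finset.mul_sum, mul_left_comm _ (g _)]
    rw [Finset.sum_comm]
    simp only [← Finset.mul_sum, hx, mul_zero, Finset.sum_const_zero]
  have ha : mk2 (fun v => ∑ i, g i * x i (.inl v)) = 0 := hzero _ fun k => by
    have h1 : ∑ i, g i * c i k = 0 := by simpa using congrFun hg k
    have h2 : mk2 (fun v => ∑ i, g i * x i (.inl v)) =
        ∑ i, C (C (g i)) * (mk2 (fun v => x i (.inl v)) - C (C (c i k)) * derivative F) := by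
      simp only [mul_sub, ← mul_assoc, ← map_mul, Finset.sum_sub_distrib, ← Finset.sum_mul,
        ← map_sum, h1, map_zero, zero_mul, sub_zero]
      exact gaoz_mk2 g fun i v => x i (.inl v)
    rw [h2, eval₂_finsetSum]
    exact Finset.sum_eq_zero fun i _ => by rw [eval₂_mul, hc, mul_zero]
  have hb : mk2 (fun v => ∑ i, g i * x i (.inr v)) = 0 := hzero _ fun k => by
    have h1 := congrArg (eval₂ coeToPowerSeries.ringHom (η k)) hy
    have h2 : dS (0 : K[X][X]) = 0 := by simp [dS]
    rw [gao, ha, h2, mul_zero, zero_mul, sub_zero, zero_sub, neg_sub, eval₂_sub, eval₂_mul,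
      eval₂_mul, hF0, zero_mul, sub_zero, eval₂_zero] at h1
    exact (mul_eq_zero.1 h1).resolve_right fun h => hF1 k (by rw [h, map_zero])
  funext u
  rcases u with v | v
  · simpa [ha] using (mk2_coeff (fun v => ∑ i, g i * x i (.inl v)) v).symm
  · simpa [hb] using (mk2_coeff (fun v => ∑ i, g i * x i (.inr v)) v).symm

end Pool.Agent.Lib.MP_8b1d3b_lc.NG
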