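import Pool.Agent.Lib.MP_8b1d3b_lc.NG.HasseA

/-! Expansions in the shift. -/

open MvPolynomial
open scoped Polynomial

namespace Pool.Agent.Lib.MP_8b1d3b_lc.NG

variable {τ σ A : Type} [Fintype τ] [CommRing A]

omit [Fintype τ] in
/-- Do the computation in `MvPolynomial (τ ⊕ (τ ⊕ σ)) ℤ` (first copy of `τ` = the shift) with
`ev` and `rename Sum.inr`, take `W a = coeff a (sumAlgEquiv ..)`, `Bd.coeff_sum`; `map (sp z)` after
`sumAlgEquiv` turns the two maps into `tr ∘ sp z` and `C ∘ sp z` (`hom_ext`). -/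
theorem w_ex (T : ℕ) {w g : MvPolynomial (τ ⊕ σ) ℤ} {dw hw dg hg : ℕ} (h1 : Bd w dw hw)
    (h2 : Bd g dg hg) : ∃ W : (τ →₀ ℕ) → MvPolynomial (τ ⊕ σ) ℤ,
      (∀ a, Bd (W a) (dw + T * dg) ((T + 1) * (hw * 2 ^ dw * (2 ^ (dg + 1) * hg) ^ T))) ∧
      ∀ (B : Type) [CommRing B] (z : σ → B) (a : τ →₀ ℕ),
        sp z (W a) = coeff a (Wn T (sp z w) (sp z g)) := by
  let φ : τ ⊕ σ → MvPolynomial (τ ⊕ (τ ⊕ σ)) ℤ :=
    Sum.elim (fun i => X (.inr (.inl i)) + X (.inl i)) fun s => X (.inr (.inr s))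
  have hφ : ∀ i, Bd (φ i) 1 2 := by
    rintro (i | s)
    · exact (bd_X _).add (bd_X _)
    · exact (bd_X _).mono le_rfl one_le_two
  let F : MvPolynomial (τ ⊕ (τ ⊕ σ)) ℤ := ev φ w * ∑ k ∈ Finset.range (T + 1),
    (rename Sum.inr g - ev φ g) ^ k * rename Sum.inr g ^ (T - k)
  have a1 : Bd (rename (Sum.inr : τ ⊕ σ → τ ⊕ (τ ⊕ σ)) g) dg (2 ^ dg * hg) :=
    (h2.rename _).mono le_rfl (Nat.le_mul_of_pos_left _ (by positivity))
  have a2 : Bd (ev φ g) dg (2 ^ dg * hg) :=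
    (h2.ev hφ one_le_two).mono (mul_one _).le (mul_comm _ _).le
  have a3 : Bd (rename Sum.inr g - ev φ g) dg (2 ^ (dg + 1) * hg) :=
    (a1.sub a2).mono le_rfl (le_of_eq (by ring))
  have a4 : Bd (rename (Sum.inr : τ ⊕ σ → τ ⊕ (τ ⊕ σ)) g) dg (2 ^ (dg + 1) * hg) :=
    (h2.rename _).mono le_rfl (Nat.le_mul_of_pos_left _ (by positivity))
  have hF : Bd F (dw + T * dg) ((T + 1) * (hw * 2 ^ dw * (2 ^ (dg + 1) * hg) ^ T)) := by
    refine ((h1.ev hφ one_le_two).mul (bd_sum (d := T * dg) (h := (2 ^ (dg + 1) * hg) ^ T) _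
      fun k hk => ((a3.pow k).mul (a4.pow (T - k))).mono ?_ ?_)).mono ?_ ?_
    · rw [← add_mul, Nat.add_sub_cancel' (Nat.lt_succ_iff.1 (Finset.mem_range.1 hk))]
    · rw [← pow_add, Nat.add_sub_cancel' (Nat.lt_succ_iff.1 (Finset.mem_range.1 hk))]
    · rw [mul_one]
    · rw [Finset.card_range]
      exact le_of_eq (by ring)
  refine ⟨fun a => coeff a (sumAlgEquiv ℤ τ (τ ⊕ σ) F), fun a => hF.coeff_sum a,
    fun B _ z a => ?_⟩
  let ψ : MvPolynomial (τ ⊕ (τ ⊕ σ)) ℤ →+* MvPolynomial τ (MvPolynomial τ B) :=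
    (map (sp z)).comp (sumAlgEquiv ℤ τ (τ ⊕ σ)).toRingHom
  have e1 : ∀ f, ψ (ev φ f) = tr (sp z f) := fun f =>
    RingHom.congr_fun (hom_ext (f := ψ.comp (ev φ)) (g := tr.toRingHom.comp (sp z)) fun i => by
      rcases i with i | i <;> simp [ψ, φ, tr]) f
  have e2 : ∀ f, ψ (rename Sum.inr f) = C (sp z f) := fun f =>
    RingHom.congr_fun (hom_ext (f := ψ.comp (rename Sum.inr).toRingHom) (g := C.comp (sp z))
      fun i => by simp [ψ]) f
  have e3 : ψ F = Wn T (sp z w) (sp z g) := by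
    simp only [F, Wn, map_mul, map_sum, map_pow, map_sub, e1, e2]
  rw [← e3, ← coeff_map]
  rfl

end Pool.Agent.Lib.MP_8b1d3b_lc.NG
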