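import Pool.Agent.Lib.MP_8b1d3b_lc.NG.NormB

/-! Expansions in the shift. -/

open MvPolynomial
open scoped Polynomial

namespace Pool.Agent.Lib.MP_8b1d3b_lc.NG

variable {τ σ A : Type} [Fintype τ] [CommRing A]

/-- A power of a polynomial without constant term has no terms of low degree. -/
theorem coeff_pow_low {δ : MvPolynomial τ A} (h : constantCoeff δ = 0) (u : MvPolynomial τ A)
    {k : ℕ} {a : τ →₀ ℕ} (ha : ∑ i, a i < k) : coeff a (u * δ ^ k) = 0 := by
  classical
  induction k generalizing a with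
  | zero => omega
  | succ k ih =>
    rw [pow_succ, ← mul_assoc, coeff_mul]
    refine Finset.sum_eq_zero fun x hx => ?_
    by_cases h0 : x.2 = 0
    · rw [h0, ← constantCoeff_eq, h, mul_zero]
    · rw [ih, zero_mul]
      obtain ⟨i, hi⟩ := Finsupp.ne_iff.1 h0
      have h1 : x.2 i ≤ ∑ j, x.2 j :=
        Finset.single_le_sum (f := fun j => x.2 j) (fun _ _ => Nat.zero_le _) (Finset.mem_univ i)
      have h2 : ∑ j, a j = ∑ j, x.1 j + ∑ j, x.2 j := by
        rw [← Finset.HasAntidiagonal.mem_antidiagonal.1 hx, ← Finset.sum_add_distrib]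
        rfl
      have h3 : x.2 i ≠ 0 := hi
      omega

theorem hassea_choose {R : Type} [CommRing R] (q : ℕ) [Fact q.Prime] [CharP R q] {k : ℕ}
    (hk : k < q) : (((q - 1).choose k : ℕ) : R) = (-1) ^ k := by
  induction k with
  | zero => simp
  | succ k ih =>
    have h1 : q.choose (k + 1) = (q - 1).choose k + (q - 1).choose (k + 1) := by
      obtain ⟨r, rfl⟩ : ∃ r, q = r + 1 := ⟨q - 1, by omega⟩
      rw [Nat.add_sub_cancel, Nat.choose_succ_succ]
    have h2 : ((q.choose (k + 1) : ℕ) : R) = 0 :=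
      (CharP.cast_eq_zero_iff R q _).2
        ((Fact.out : q.Prime).dvd_choose_self (Nat.succ_ne_zero k) hk)
    rw [h1, Nat.cast_add, ih (by omega)] at h2
    rw [pow_succ]
    linear_combination h2

theorem hassea_geom {R : Type} [CommRing R] (q : ℕ) [Fact q.Prime] [CharP R q] (G δ : R) :
    (G - δ) ^ (q - 1) = ∑ k ∈ Finset.range q, δ ^ k * G ^ (q - 1 - k) := by
  have hq : q - 1 + 1 = q := Nat.sub_add_cancel (Fact.out : q.Prime).one_le
  rw [sub_eq_neg_add, add_pow, hq]
  refine Finset.sum_congr rfl fun k hk => ?_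
  rw [hassea_choose q (Finset.mem_range.1 hk), mul_right_comm, ← mul_pow]
  simp

omit [Fintype τ] in
theorem hassea_const (g : MvPolynomial τ A) : constantCoeff (tr g) = g := by
  induction g using MvPolynomial.induction_on with
  | C a => simp [tr]
  | add p q hp hq => rw [map_add, map_add, hp, hq]
  | mul_X p i hp =>
    rw [map_mul, map_mul, hp]
    simp [tr]

/-- Paper A1: `tr g = C g - δ` with `δ = C g - tr g`, binomial theorem,
`(q - 1).choose k = (-1) ^ k` in characteristic `q`, `coeff_pow_low`. -/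
theorem hasse_pow (q : ℕ) [Fact q.Prime] [CharP A q] {T : ℕ} (hT : T < q) (w g : MvPolynomial τ A)
    {a : τ →₀ ℕ} (ha : ∑ i, a i ≤ T) :
    coeff a (tr (w * g ^ (q - 1))) = coeff a (Wn T w g) * g ^ (q - 1 - T) := by
  have h0 : constantCoeff (C g - tr g) = 0 := by
    rw [map_sub, hassea_const, constantCoeff_C, sub_self]
  have h1 := hassea_geom q (C g) (C g - tr g)
  rw [sub_sub_cancel, ← Finset.sum_range_add_sum_Ico _ (Nat.succ_le_of_lt hT)] at h1
  have h2 : ∑ k ∈ Finset.range (T + 1), (C g - tr g) ^ k * C g ^ (q - 1 - k) =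
      (∑ k ∈ Finset.range (T + 1), (C g - tr g) ^ k * C g ^ (T - k)) * C (g ^ (q - 1 - T)) := by
    rw [Finset.sum_mul]
    refine Finset.sum_congr rfl fun k hk => ?_
    have := Finset.mem_range.1 hk
    rw [map_pow, mul_assoc, ← pow_add, show T - k + (q - 1 - T) = q - 1 - k by omega]
  have h3 : coeff a (tr w * ∑ k ∈ Finset.Ico (T + 1) q, (C g - tr g) ^ k * C g ^ (q - 1 - k)) =
      0 := by
    rw [Finset.mul_sum, coeff_sum]
    refine Finset.sum_eq_zero fun k hk => ?_
    rw [mul_comm ((C g - tr g) ^ k), ← mul_assoc]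
    exact coeff_pow_low h0 _ (ha.trans_lt (Finset.mem_Ico.1 hk).1)
  rw [map_mul, map_pow, h1, mul_add, coeff_add, h3, add_zero, h2, ← mul_assoc, mul_comm _ (C _),
    coeff_C_mul, mul_comm, Wn]

omit [Fintype τ] in
theorem hassea_mul {F G : MvPolynomial τ (MvPolynomial τ A)} {d e : ℕ}
    (hF : ∀ a, (coeff a F).totalDegree ≤ d) (hG : ∀ a, (coeff a G).totalDegree ≤ e)
    (a : τ →₀ ℕ) : (coeff a (F * G)).totalDegree ≤ d + e := by
  classical
  rw [coeff_mul]
  exact totalDegree_finsetSum_le fun x _ =>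
    (totalDegree_mul _ _).trans (Nat.add_le_add (hF _) (hG _))

omit [Fintype τ] in
theorem hassea_C {c : MvPolynomial τ A} {d : ℕ} (hc : c.totalDegree ≤ d) (a : τ →₀ ℕ) :
    (coeff a (C c : MvPolynomial τ (MvPolynomial τ A))).totalDegree ≤ d := by
  classical
  rw [coeff_C]
  split_ifs
  · exact hc
  · simp

omit [Fintype τ] in
theorem hassea_lin (i : τ) (n : ℕ) (a : τ →₀ ℕ) :
    (coeff a ((C (X i) - X i : MvPolynomial τ (MvPolynomial τ A)) ^ n)).totalDegree ≤ n := by
  classical
  induction n generalizing a with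
  | zero => exact hassea_C (c := 1) totalDegree_one.le a
  | succ n ih =>
    rw [pow_succ]
    refine hassea_mul ih (fun b => ?_) a
    rw [coeff_sub]
    refine (totalDegree_sub _ _).trans (max_le (hassea_C ?_ b) ?_)
    · exact (isHomogeneous_X A i).totalDegree_le
    · rw [coeff_X]
      split_ifs <;> simp

omit [Fintype τ] in
theorem trn_degree (ψ : MvPolynomial τ A) (a : τ →₀ ℕ) :
    (coeff a (trn ψ)).totalDegree ≤ ψ.totalDegree := by
  classical
  have hp : ∀ (s : τ →₀ ℕ) (t : Finset τ) (b : τ →₀ ℕ), (coeff b (∏ i ∈ t,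
      (C (X i) - X i : MvPolynomial τ (MvPolynomial τ A)) ^ s i)).totalDegree ≤ ∑ i ∈ t, s i := by
    intro s t
    induction t using Finset.induction_on with
    | empty => exact hassea_C (c := 1) totalDegree_one.le
    | insert i t hi ih =>
      rw [Finset.prod_insert hi, Finset.sum_insert hi]
      exact hassea_mul (hassea_lin i _) ih
  conv_lhs => rw [ψ.as_sum, map_sum, coeff_sum]
  refine totalDegree_finsetSum_le fun s hs => ?_
  rw [trn, aeval_monomial]
  have := hassea_mul (hassea_C (totalDegree_C (coeff s ψ)).le) (hp s s.support) a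
  rw [zero_add] at this
  exact this.trans (le_totalDegree hs)

end Pool.Agent.Lib.MP_8b1d3b_lc.NG
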