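import Pool.Agent.Lib.MP_8b1d3b_lc.NG.Def

/-! The Cartier functionals. -/

open MvPolynomial
open scoped Polynomial

namespace Pool.Agent.Lib.MP_8b1d3b_lc.NG

variable {τ A : Type} [Fintype τ] [DecidableEq τ] [CommRing A]

theorem lama_split (i : τ) (β a : τ →₀ ℕ) : (∏ j, ((β j + a j).choose (a j) : A)) =
    ((β i + a i).choose (a i) : A) * ∏ j ∈ Finset.univ.erase i, ((β j + a j).choose (a j) : A) :=
  (Finset.mul_prod_erase _ (fun j => ((β j + a j).choose (a j) : A)) (Finset.mem_univ i)).symm

theorem lama_left (i : τ) (β a : τ →₀ ℕ) :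
    ∏ j ∈ Finset.univ.erase i, (((β + Finsupp.single i 1 : τ →₀ ℕ) j + a j).choose (a j) : A) =
      ∏ j ∈ Finset.univ.erase i, ((β j + a j).choose (a j) : A) :=
  Finset.prod_congr rfl fun j hj => by
    rw [Finsupp.add_apply, Finsupp.single_eq_of_ne (Finset.ne_of_mem_erase hj), add_zero]

theorem lama_right (i : τ) (β a : τ →₀ ℕ) :
    ∏ j ∈ Finset.univ.erase i, ((β j + (a + Finsupp.single i 1 : τ →₀ ℕ) j).choose
      ((a + Finsupp.single i 1 : τ →₀ ℕ) j) : A) =
      ∏ j ∈ Finset.univ.erase i, ((β j + a j).choose (a j) : A) :=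
  Finset.prod_congr rfl fun j hj => by
    rw [Finsupp.add_apply, Finsupp.single_eq_of_ne (Finset.ne_of_mem_erase hj), add_zero]

omit [Fintype τ] [DecidableEq τ] in
theorem lama_cases (i : τ) (a : τ →₀ ℕ) : a i = 0 ∨ ∃ a', a = a' + Finsupp.single i 1 := by
  rcases Nat.eq_zero_or_pos (a i) with h | h
  · exact Or.inl h
  · exact Or.inr ⟨a - Finsupp.single i 1,
      (tsub_add_cancel_of_le (Finsupp.single_le_iff.2 h)).symm⟩

omit [Fintype τ] in
theorem lama_zero {R : Type} [CommRing R] {i : τ} {a : τ →₀ ℕ} (h : a i = 0)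
    (p : MvPolynomial τ R) : coeff a (p * X i) = 0 := by
  rw [coeff_mul_X', if_neg (by simp [h])]

theorem lama_coeff (v : MvPolynomial τ A) (β a : τ →₀ ℕ) : coeff β (coeff a (tr v)) =
    (∏ j, ((β j + a j).choose (a j) : A)) * coeff (β + a) v := by
  induction v using MvPolynomial.induction_on generalizing β a with
  | C c =>
    have h : tr (C c : MvPolynomial τ A) = C (C c) := aeval_C _ _
    rw [h]
    by_cases ha : a = 0
    · subst ha
      simp
    · rw [coeff_C, coeff_C, if_neg (Ne.symm ha), if_neg fun h => ha (add_eq_zero.1 h.symm).2]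
      simp
  | add p q hp hq => rw [map_add, coeff_add, coeff_add, coeff_add, hp, hq, mul_add]
  | mul_X p i hp =>
    have h : tr (X i : MvPolynomial τ A) = C (X i) + X i := aeval_X _ _
    rw [map_mul, h, mul_add, coeff_add, coeff_add, mul_comm (tr p) (C _), coeff_C_mul,
      mul_comm (X i), lama_split i]
    rcases lama_cases i β with hβ | ⟨β, rfl⟩ <;> rcases lama_cases i a with ha | ⟨a, rfl⟩
    · rw [lama_zero hβ, lama_zero ha, lama_zero (by simp [hβ, ha])]
      simp
    · rw [lama_zero hβ, coeff_mul_X, hp, ← add_assoc, coeff_mul_X, lama_right, lama_split i]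
      simp [hβ]
    · rw [lama_zero ha, coeff_mul_X, hp, add_right_comm, coeff_mul_X, lama_left, lama_split i]
      simp [ha]
    · rw [coeff_mul_X, coeff_mul_X, hp, hp, ← add_assoc (β + _), coeff_mul_X, lama_split i,
        lama_split i (β + _), lama_left, lama_left, lama_right, add_right_comm β, ← add_assoc β]
      simp only [Finsupp.add_apply, Finsupp.single_eq_same]
      rw [show β i + 1 + (a i + 1) = (β i + 1 + a i) + 1 by ring, Nat.choose_succ_succ',
        show β i + (a i + 1) = β i + 1 + a i by ring]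
      push_cast
      ring

theorem lama_dvd (q : ℕ) [Fact q.Prime] (b : ℕ) {k : ℕ} (h0 : k ≠ 0) (hk : k < q) :
    q ∣ (q * (b + 1) - 1 + k).choose k := by
  have h1 := Choose.choose_modEq_choose_mod_mul_choose_div_nat (n := q * (b + 1) - 1 + k) (k := k)
    (p := q)
  have h2 : q * (b + 1) - 1 + k = k - 1 + q * (b + 1) := by
    have : 0 < q * (b + 1) := Nat.mul_pos (by omega) b.succ_pos
    omega
  have h3 : (q * (b + 1) - 1 + k) % q = k - 1 := by
    rw [h2, Nat.add_mul_mod_self_left, Nat.mod_eq_of_lt (by omega)]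
  rw [h3, Nat.mod_eq_of_lt hk, Nat.choose_eq_zero_of_lt (by omega : k - 1 < k), zero_mul] at h1
  exact (Nat.modEq_zero_iff_dvd).1 h1

omit [DecidableEq τ] in
/-- On a monomial `x ^ γ`, `coeff a (tr _)` is `∏ (γ i).choose (a i)` times `x ^ (γ - a)`, and `q`
divides `(q * (b + 1) - 1 + k).choose k` for `0 < k < q`. -/
theorem lam_tr (q : ℕ) [Fact q.Prime] [CharP A q] (b : τ → ℕ) {a : τ →₀ ℕ} (h0 : a ≠ 0)
    (ha : ∀ i, a i < q) (v : MvPolynomial τ A) : lam q b (coeff a (tr v)) = 0 := by
  classical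
  obtain ⟨i, hi⟩ : ∃ i, a i ≠ 0 := by
    by_contra h
    exact h0 (Finsupp.ext fun i => by_contra fun hi => h ⟨i, hi⟩)
  rw [lam, lama_coeff, lama_split i, fs_apply,
    (CharP.cast_eq_zero_iff A q _).2 (lama_dvd q (b i) hi (ha i)), zero_mul, zero_mul]

omit [DecidableEq τ] in
/-- Let `t` be the ring map `eval₂Hom tr X` of `MvPolynomial τ (MvPolynomial τ A)`. Then
`t (trn ψ * C v) = C ψ * tr v`, and `coeff a (t u) = ∑ over a₁ + a₂ = a of
coeff a₁ (tr (coeff a₂ u))`; `lam_tr` leaves `a₁ = 0`, where `coeff 0 (tr v) = v`. -/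
theorem lam_adj (q : ℕ) [Fact q.Prime] [CharP A q] (b : τ → ℕ) {a : τ →₀ ℕ} (ha : ∀ i, a i < q)
    (ψ v : MvPolynomial τ A) :
    lam q b (ψ * coeff a (tr v)) = lam q b (coeff a (trn ψ) * v) := by
  classical
  let t : MvPolynomial τ (MvPolynomial τ A) →+* MvPolynomial τ (MvPolynomial τ A) :=
    eval₂Hom (tr : MvPolynomial τ A →ₐ[A] _).toRingHom X
  have hC : ∀ w, t (C w) = tr w := fun w => eval₂Hom_C _ _ _
  have hX : ∀ i, t (X i) = X i := fun i => eval₂Hom_X' _ _ _
  have h1 : t (trn ψ) = C ψ := by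
    induction ψ using MvPolynomial.induction_on with
    | C c =>
      have h : trn (C c : MvPolynomial τ A) = C (C c) := aeval_C _ _
      rw [h, hC]
      exact aeval_C _ _
    | add p q hp hq => rw [map_add, map_add, map_add, hp, hq]
    | mul_X p i hp =>
      have h : trn (X i : MvPolynomial τ A) = C (X i) - X i := aeval_X _ _
      have h' : tr (X i : MvPolynomial τ A) = C (X i) + X i := aeval_X _ _
      rw [map_mul, map_mul, map_mul, hp, h, map_sub, hC, hX, h', add_sub_cancel_right]
  have h2 : ∀ u, lam q b (coeff a (t u)) = lam q b (coeff a u) := by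
    intro u
    induction u using MvPolynomial.induction_on' with
    | monomial d w =>
      have h : t (monomial d w) = tr w * monomial d 1 := by
        rw [monomial_eq, map_mul, hC, monomial_eq, C_1, one_mul, map_finsuppProd]
        simp only [map_pow, hX]
      rw [h, coeff_mul_monomial', coeff_monomial, mul_one]
      by_cases hd : d = a
      · rw [if_pos hd.le, if_pos hd, hd, tsub_self]
        congr 1
        ext β
        simp [lama_coeff]
      · rw [if_neg hd]
        split_ifs with h3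
        · refine (lam_tr q b (fun h4 => hd (le_antisymm h3 (tsub_eq_zero_iff_le.1 h4)))
            (fun i => lt_of_le_of_lt (Nat.sub_le _ _) (ha i)) w).trans ?_
          simp [lam]
        · rfl
    | add p q hp hq =>
      simp only [lam, map_add, coeff_add] at hp hq ⊢
      rw [hp, hq]
  have h3 := h2 (trn ψ * C v)
  rwa [map_mul, h1, hC, coeff_C_mul, mul_comm (trn ψ), coeff_C_mul, mul_comm v] at h3

end Pool.Agent.Lib.MP_8b1d3b_lc.NG
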