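import Pool.Agent.Lib.MP_8b1d3b_lc.NG.MainA

/-! The two transfer statements. -/

open MvPolynomial
open scoped Polynomial

namespace Pool.Agent.Lib.MP_8b1d3b_lc.NG

theorem main_per_le {n : ℕ} (A : Fin n × Fin n → Bool) :
    Matrix.permanent (Matrix.of fun i j => (A (i, j)).toNat) ≤ 2 ^ (n * n) := by
  have h1 : Matrix.permanent (Matrix.of fun i j => (A (i, j)).toNat) ≤ n.factorial := by
    unfold Matrix.permanent
    refine (Finset.sum_le_card_nsmul _ _ 1 fun σ _ => ?_).trans ?_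
    · exact Finset.prod_le_one' fun i _ => Bool.toNat_le _
    · simp [Fintype.card_perm]
  refine h1.trans ((Nat.factorial_le_pow n).trans ?_)
  rw [pow_mul]
  exact Nat.pow_le_pow_left Nat.lt_two_pow_self.le n

theorem main_num {N A m n : ℕ} (hN : 2 ≤ N) (hA : 4 ≤ A) (hm : m + 1 ≤ N) (hn : n ≤ N) :
    n * n + (m + 1) * (300 * (2 * A + 10 + 1) ^ 2) ≤ N ^ 16 * A ^ 2 := by
  have h1 : (2 * A + 10 + 1) ^ 2 ≤ (5 * A) ^ 2 := Nat.pow_le_pow_left (by omega) 2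
  have h2 : 2 ^ 13 ≤ N ^ 13 := Nat.pow_le_pow_left hN 13
  have h3 : 300 * (2 * A + 10 + 1) ^ 2 ≤ N ^ 13 * A ^ 2 := by nlinarith
  have h4 : (m + 1) * (300 * (2 * A + 10 + 1) ^ 2) ≤ N * (N ^ 13 * A ^ 2) := Nat.mul_le_mul hm h3
  have h5 : n * n ≤ N * (N ^ 13 * A ^ 2) := by
    refine Nat.mul_le_mul hn (hn.trans ?_)
    exact (Nat.le_self_pow (by norm_num) N).trans (Nat.le_mul_of_pos_right _ (by positivity))
  calc _ ≤ 2 * (N * (N ^ 13 * A ^ 2)) := by omega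
    _ ≤ N ^ 2 * (N * (N ^ 13 * A ^ 2)) := Nat.mul_le_mul_right _ (by nlinarith)
    _ = _ := by ring

theorem boolean (c : ℕ) : ∃ c' : ℕ, ∀ (n m : ℕ) (S : Finset ℕ), S.card ≤ 2 ^ (m + n + 2) ^ c →
    (∀ p : ℕ, p.Prime → p ∉ S → ∃ g' : Fin (m + 1) → MvPolynomial (Fin n × Fin n) (ZMod p),
        Slp g' ∧ g' (Fin.last m) = per n (ZMod p)) →
    ∃ (M : ℕ) (w : Fin M → (Fin n × Fin n → Bool) → Bool), M ≤ (m + n + 2) ^ c' ∧
      (∀ i, (∃ v, w i = fun A => A v) ∨ (∃ b, w i = fun _ => b) ∨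
        ∃ a b, a < i ∧ b < i ∧ w i = fun A => !(w a A && w b A)) ∧
      ∀ k, ∃ i, ∀ A, w i A =
        (Matrix.permanent (Matrix.of fun i j => (A (i, j)).toNat)).testBit k := by
  refine ⟨16 + (c + 2) * 2, fun n m S hS h => ?_⟩
  have hN : 2 ≤ m + n + 2 := by omega
  have a1 : (m + n + 2) ^ c ≤ (m + n + 2) ^ (c + 2) := Nat.pow_le_pow_right (by omega) (by omega)
  have a2 : (m + n + 2) ^ 2 ≤ (m + n + 2) ^ (c + 2) := Nat.pow_le_pow_right (by omega) (by omega)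
  obtain ⟨p, hp, hpS, h1, h2⟩ := prime_ex ((m + n + 2) ^ (c + 2)) S
    (hS.trans (Nat.pow_le_pow_right two_pos a1))
  obtain ⟨g, hg, he⟩ := h p hp hpS
  have := Fact.mk hp
  obtain ⟨M, w, hM, hw, ho⟩ := cmp_out (cmp_slp h2 hg (Fin.last m))
  refine ⟨M, w, hM.trans ?_, hw, fun k => ?_⟩
  · rw [Fintype.card_prod, Fintype.card_fin, pow_add (m + n + 2) 16, pow_mul]
    exact main_num hN (by nlinarith) (by omega) (by omega)
  · obtain ⟨i, hi⟩ := ho _ ⟨k, rfl⟩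
    refine ⟨i, fun A => ?_⟩
    have e : MvPolynomial.eval (fun v => ((A v).toNat : ZMod p)) (g (Fin.last m)) =
        ((Matrix.permanent (Matrix.of fun i j => (A (i, j)).toNat) : ℕ) : ZMod p) := by
      rw [he]
      simp [Matrix.permanent]
    have hlt : Matrix.permanent (Matrix.of fun i j => (A (i, j)).toNat) < p :=
      ((main_per_le A).trans (Nat.pow_le_pow_right two_pos (by nlinarith))).trans_lt h1
    rw [hi]
    simp only [e, ZMod.val_cast_of_lt hlt]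

end Pool.Agent.Lib.MP_8b1d3b_lc.NG
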