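import Pool.Agent.Lib.MP_8b1d3b_lc.NG.Core
import Pool.Agent.Lib.MP_8b1d3b_lc.NG.BoolM

/-! The transfer to prime fields. -/

open MvPolynomial
open scoped Polynomial

namespace Pool.Agent.Lib.MP_8b1d3b_lc.NG

theorem maina_num {m n M : ℕ} (h1 : m ≤ M) (h2 : n * n ≤ M) :
    2 ^ 2 ^ m + n.factorial ≤ 2 ^ 2 ^ (M + 1) := by
  have a1 : 2 ^ 2 ^ m ≤ 2 ^ 2 ^ M :=
    Nat.pow_le_pow_right two_pos (Nat.pow_le_pow_right two_pos h1)
  have a2 : n.factorial ≤ 2 ^ 2 ^ M :=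
    calc n.factorial ≤ n ^ n := Nat.factorial_le_pow n
      _ ≤ (2 ^ n) ^ n := Nat.pow_le_pow_left Nat.lt_two_pow_self.le n
      _ = 2 ^ (n * n) := (pow_mul 2 n n).symm
      _ ≤ 2 ^ 2 ^ M := Nat.pow_le_pow_right two_pos (h2.trans Nat.lt_two_pow_self.le)
  have a3 : 2 ^ (2 ^ M + 1) ≤ 2 ^ 2 ^ (M + 1) := Nat.pow_le_pow_right two_pos (by
    have := Nat.one_le_two_pow (n := M)
    rw [pow_succ]
    omega)
  rw [pow_succ] at a3
  omega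

theorem transfer : ∃ c : ℕ, ∀ (n m : ℕ) (g : Fin (m + 1) → MvPolynomial (Fin n × Fin n) ℚ),
    Slp g → g (Fin.last m) = per n ℚ → ∃ S : Finset ℕ, S.card ≤ 2 ^ (m + n + 2) ^ c ∧
      ∀ p : ℕ, p.Prime → p ∉ S → ∃ g' : Fin (m + 1) → MvPolynomial (Fin n × Fin n) (ZMod p),
        Slp g' ∧ g' (Fin.last m) = per n (ZMod p) := by
  obtain ⟨c, hc⟩ := core
  refine ⟨2 * c, fun n m g hg hl => ?_⟩
  obtain ⟨P, hP, ⟨x, hx⟩, hS⟩ := univ_ex hg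
  obtain ⟨M, hM⟩ : ∃ M, (m + n + 2) ^ 2 = M + 1 := ⟨(m + n + 2) ^ 2 - 1, by
    have : 0 < (m + n + 2) ^ 2 := by positivity
    omega⟩
  have h0 : M + 1 = m * m + n * n + 2 * (m * n) + 4 * m + 4 * n + 4 := by rw [← hM]; ring
  have h1 : m + 1 ≤ M := by omega
  have h2 : n * n ≤ M := by omega
  have h3 : n ≤ 2 ^ (M + 1) := (by omega : n ≤ M + 1).trans Nat.lt_two_pow_self.le
  have hB : Bd (P (Fin.last m) - rename Sum.inl (per n ℤ)) (2 ^ (M + 1)) (2 ^ 2 ^ (M + 1)) :=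
    (((hP (Fin.last m)).mono (Nat.pow_le_pow_right two_pos (by simp; omega)) le_rfl).sub
      (((bd_per n).rename _).mono h3 le_rfl)).mono le_rfl (maina_num (by simp; omega) h2)
  obtain ⟨S, h4, h5⟩ := hc (M + 1) (Fin n × Fin n) (m + 1) (by omega) (by simp; omega) (by omega)
    _ hB ⟨x, by rw [map_sub, hx, hl, sp_per, sub_self]⟩
  refine ⟨S, by rwa [pow_mul, hM], fun p hp hpS => ?_⟩
  have := Fact.mk hp
  obtain ⟨y, hy⟩ := h5 p hpS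
  rw [map_sub, sp_per, sub_eq_zero] at hy
  exact ⟨_, hS _ y, hy⟩

end Pool.Agent.Lib.MP_8b1d3b_lc.NG
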