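import Pool.Agent.Lib.MP_8b1d3b_lc.NG.Def

/-! Degree and size bounds. -/

open MvPolynomial
open scoped Polynomial

namespace Pool.Agent.Lib.MP_8b1d3b_lc.NG

variable {σ τ ι : Type} {f g : MvPolynomial σ ℤ} {d e h k : ℕ}

theorem Bd.mono (H : Bd f d h) (h1 : d ≤ e) (h2 : h ≤ k) : Bd f e k :=
  ⟨H.1.trans h1, H.2.trans h2⟩

theorem norm_l1_eq {s : Finset (σ →₀ ℕ)} (hs : f.support ⊆ s) :
    l1 f = ∑ a ∈ s, (coeff a f).natAbs :=
  Finset.sum_subset hs fun a _ ha => by rw [notMem_support_iff.1 ha, Int.natAbs_zero]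

theorem norm_l1_add (f g : MvPolynomial σ ℤ) : l1 (f + g) ≤ l1 f + l1 g := by
  classical
  rw [norm_l1_eq (support_add (p := f) (q := g)), norm_l1_eq (f := f) Finset.subset_union_left,
    norm_l1_eq (f := g) Finset.subset_union_right, ← Finset.sum_add_distrib]
  exact Finset.sum_le_sum fun a _ => by rw [coeff_add]; exact Int.natAbs_add_le _ _

theorem norm_l1_sum (s : Finset ι) (F : ι → MvPolynomial σ ℤ) :
    l1 (∑ i ∈ s, F i) ≤ ∑ i ∈ s, l1 (F i) :=
  Finset.le_sum_of_subadditive l1 (by simp [l1]) norm_l1_add s F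

theorem norm_l1_monomial (a : σ →₀ ℕ) (c : ℤ) : l1 (monomial a c) = c.natAbs := by
  classical
  rw [norm_l1_eq support_monomial_subset, Finset.sum_singleton, coeff_monomial, if_pos rfl]

theorem norm_l1_mul (f g : MvPolynomial σ ℤ) : l1 (f * g) ≤ l1 f * l1 g := by
  conv_lhs => rw [f.as_sum, g.as_sum, Finset.sum_mul_sum]
  refine (norm_l1_sum _ _).trans ?_
  rw [l1, l1, Finset.sum_mul_sum]
  refine Finset.sum_le_sum fun a _ => (norm_l1_sum _ _).trans (Finset.sum_le_sum fun b _ => ?_)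
  rw [monomial_mul, norm_l1_monomial, Int.natAbs_mul]

theorem bd_zero (d h : ℕ) : Bd (0 : MvPolynomial σ ℤ) d h := by
  simp [Bd, l1]

theorem bd_C (a : ℤ) : Bd (C a : MvPolynomial σ ℤ) 0 a.natAbs := by
  exact ⟨(totalDegree_C a).le, (norm_l1_monomial 0 a).le⟩

theorem bd_one : Bd (1 : MvPolynomial σ ℤ) 0 1 := by
  exact bd_C 1

theorem bd_monomial (a : σ →₀ ℕ) (c : ℤ) :
    Bd (monomial a c) (a.sum fun _ n => n) c.natAbs := by
  exact ⟨totalDegree_monomial_le a c, (norm_l1_monomial a c).le⟩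

theorem bd_X (i : σ) : Bd (X i : MvPolynomial σ ℤ) 1 1 := by
  exact ⟨(totalDegree_X i).le, (norm_l1_monomial _ 1).le⟩

theorem Bd.add (H : Bd f d h) (H' : Bd g d k) : Bd (f + g) d (h + k) := by
  exact ⟨(totalDegree_add f g).trans (max_le H.1 H'.1),
    (norm_l1_add f g).trans (add_le_add H.2 H'.2)⟩

theorem Bd.neg (H : Bd f d h) : Bd (-f) d h := by
  simpa [Bd, l1] using H

theorem Bd.sub (H : Bd f d h) (H' : Bd g d k) : Bd (f - g) d (h + k) := by
  rw [sub_eq_add_neg]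
  exact H.add H'.neg

theorem bd_sum (s : Finset ι) {F : ι → MvPolynomial σ ℤ} (H : ∀ i ∈ s, Bd (F i) d h) :
    Bd (∑ i ∈ s, F i) d (s.card * h) := by
  exact ⟨totalDegree_finsetSum_le fun i hi => (H i hi).1,
    (norm_l1_sum s F).trans (Finset.sum_le_card_nsmul s _ h fun i hi => (H i hi).2)⟩

/-- Write both factors as sums of monomials; `l1` is subadditive. -/
theorem Bd.mul (H : Bd f d h) (H' : Bd g e k) : Bd (f * g) (d + e) (h * k) := by
  exact ⟨(totalDegree_mul f g).trans (add_le_add H.1 H'.1),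
    (norm_l1_mul f g).trans (Nat.mul_le_mul H.2 H'.2)⟩

theorem Bd.pow (H : Bd f d h) (n : ℕ) : Bd (f ^ n) (n * d) (h ^ n) := by
  induction n with
  | zero => simpa using bd_one
  | succ n ih =>
    rw [pow_succ, pow_succ, Nat.succ_mul]
    exact ih.mul H

theorem norm_prod (s : Finset ι) {F : ι → MvPolynomial σ ℤ} {d h : ι → ℕ}
    (H : ∀ i ∈ s, Bd (F i) (d i) (h i)) : Bd (∏ i ∈ s, F i) (∑ i ∈ s, d i) (∏ i ∈ s, h i) := by
  classical
  induction s using Finset.induction_on with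
  | empty => simpa using bd_one
  | insert a s ha ih =>
    rw [Finset.prod_insert ha, Finset.prod_insert ha, Finset.sum_insert ha]
    exact (H a (Finset.mem_insert_self a s)).mul
      (ih fun i hi => H i (Finset.mem_insert_of_mem hi))

theorem bd_prod (s : Finset ι) {F : ι → MvPolynomial σ ℤ} (H : ∀ i ∈ s, Bd (F i) d h) :
    Bd (∏ i ∈ s, F i) (s.card * d) (h ^ s.card) := by
  simpa using norm_prod s H

theorem Bd.ev (H : Bd f d h) {φ : σ → MvPolynomial τ ℤ} (hφ : ∀ i, Bd (φ i) e k) (hk : 1 ≤ k) :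
    Bd (ev φ f) (d * e) (h * k ^ d) := by
  have h1 : NG.ev φ f = ∑ a ∈ f.support, C (coeff a f) * ∏ i ∈ a.support, φ i ^ a i := by
    rw [NG.ev, coe_eval₂Hom, eval₂_eq]
    exact Finset.sum_congr rfl fun a _ => by rw [eq_intCast, eq_intCast]
  have h2 : ∀ a ∈ f.support, Bd (C (coeff a f) * ∏ i ∈ a.support, φ i ^ a i) (d * e)
      ((coeff a f).natAbs * k ^ d) := fun a ha => by
    have h3 : ∑ i ∈ a.support, a i ≤ d := (le_totalDegree ha).trans H.1
    refine ((bd_C _).mul (norm_prod a.support fun i _ => (hφ i).pow (a i))).mono ?_ ?_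
    · rw [zero_add, ← Finset.sum_mul]
      exact Nat.mul_le_mul_right _ h3
    · rw [Finset.prod_pow_eq_pow_sum]
      exact Nat.mul_le_mul_left _ (Nat.pow_le_pow_right hk h3)
  rw [h1]
  refine ⟨totalDegree_finsetSum_le fun a ha => (h2 a ha).1, (norm_l1_sum _ _).trans
    ((Finset.sum_le_sum fun a ha => (h2 a ha).2).trans ?_)⟩
  rw [← Finset.sum_mul]
  exact Nat.mul_le_mul_right _ H.2

theorem Bd.rename (H : Bd f d h) (φ : σ → τ) : Bd (rename φ f) d h := by
  have h1 : MvPolynomial.rename φ f = NG.ev (fun i => X (φ i)) f :=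
    RingHom.congr_fun (hom_ext (f := (MvPolynomial.rename φ : _ →ₐ[ℤ] _).toRingHom)
      (g := NG.ev fun i => X (φ i)) fun i => by simp) f
  rw [h1]
  simpa using H.ev (fun i => bd_X (φ i)) le_rfl

theorem Bd.natAbs_coeff (H : Bd f d h) (a : σ →₀ ℕ) : (coeff a f).natAbs ≤ h := by
  by_cases ha : a ∈ f.support
  · exact (Finset.single_le_sum (f := fun a => (coeff a f).natAbs) (fun _ _ => Nat.zero_le _)
      ha).trans H.2
  · rw [notMem_support_iff.1 ha]
    exact Nat.zero_le _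

theorem Bd.ev_int (H : Bd f d h) {z : σ → ℤ} (hz : ∀ i, (z i).natAbs ≤ k) (hk : 1 ≤ k) :
    (NG.ev z f).natAbs ≤ h * k ^ d := by
  have h1 := (H.ev (τ := Unit) (fun i => (bd_C (z i)).mono le_rfl (hz i)) hk).natAbs_coeff 0
  rwa [← comp_ev (C : ℤ →+* MvPolynomial Unit ℤ) z f, coeff_zero_C] at h1

end Pool.Agent.Lib.MP_8b1d3b_lc.NG
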