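import Pool.Agent.Lib.MP_8b1d3b_lc.NG.GDef
import Pool.Agent.Lib.MP_8b1d3b_lc.NG.Norm

/-! A minor that controls the rank. -/

open Matrix

namespace Pool.Agent.Lib.MP_8b1d3b_lc.NG

/-- The rows `w r` together with the standard basis span everything; extend a basis of the row
space by at most `κ` standard vectors. If `χ M.det ≠ 0` a solution is determined by at most `κ`
coordinates. -/
theorem minor {A K₁ ρ U : Type} [CommRing A] [Field K₁] [Fintype U] [DecidableEq U]
    (w : ρ → U → A) (ι : A →+* K₁) {κ : ℕ} (h : Dim (fun r u => ι (w r u)) κ) :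
    ∃ M : Matrix U U A, ι M.det ≠ 0 ∧ (∀ u' u, (∃ r, M u' u = w r u) ∨ M u' u = 0 ∨ M u' u = 1) ∧
      ∀ (K : Type) [Field K] (χ : A →+* K), χ M.det ≠ 0 → Dim (fun r u => χ (w r u)) κ := by
  classical
  let V : ρ ⊕ U → U → A := Sum.elim w fun u => Pi.single u 1
  let v : ρ ⊕ U → U → K₁ := fun i u => ι (V i u)
  obtain ⟨s, hs, -, hs1, hs2⟩ := exists_linearIndepOn_extension (K := K₁) (v := v)
    (linearIndepOn_empty _ _) (Set.empty_subset (Set.range Sum.inl))
  obtain ⟨b, -, hsb, hb1, hb2⟩ := exists_linearIndepOn_extension hs2 (Set.subset_univ s)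
  have hsp : ⊤ ≤ Submodule.span K₁ (Set.range fun i : b => v i) := by
    rw [← (Pi.basisFun K₁ U).span_eq, Submodule.span_le, ← Set.image_eq_range]
    rintro _ ⟨u, rfl⟩
    refine hb1 ⟨.inr u, trivial, funext fun u' => ?_⟩
    simp [v, V, Pi.single_apply]
  let e : U ≃ b := (Pi.basisFun K₁ U).indexEquiv (Module.Basis.mk hb2 hsp)
  let M : Matrix U U A := Matrix.of fun u => V (e u)
  have hM : IsUnit (M.map ι) := linearIndependent_rows_iff_isUnit.1 (hb2.comp e e.injective)
  have hd := (isUnit_iff_isUnit_det _).1 hM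
  let T := {u : U // ∀ r, (e u).1 ≠ .inl r}
  have hT : Fintype.card T ≤ κ := by
    by_contra hT
    obtain ⟨f⟩ : Nonempty (Fin (κ + 1) ↪ T) :=
      Function.Embedding.nonempty_of_card_le (by rw [Fintype.card_fin]; omega)
    refine h (fun t => (M.map ι)⁻¹.col (f t).1) (fun t r => ?_)
      ((linearIndependent_cols_iff_isUnit.2 (isUnit_nonsing_inv_iff.2 hM)).comp _
        (Subtype.val_injective.comp f.injective))
    change v (.inl r) ⬝ᵥ _ = 0
    refine Submodule.span_induction (p := fun z _ => z ⬝ᵥ (M.map ι)⁻¹.col (f t).1 = 0) ?_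
      (zero_dotProduct _) (fun x y _ _ hx hy => by rw [add_dotProduct, hx, hy, add_zero])
      (fun a x _ hx => by rw [smul_dotProduct, hx, smul_zero]) (hs1 ⟨_, ⟨r, rfl⟩, rfl⟩)
    rintro _ ⟨i, hi, rfl⟩
    obtain ⟨u, hu⟩ := e.surjective ⟨i, hsb hi⟩
    obtain ⟨r', rfl⟩ := hs hi
    have h1 := congrFun (congrFun (mul_nonsing_inv _ hd) u) (f t).1
    rw [one_apply_ne fun e' => (f t).2 r' (by rw [← e', hu])] at h1
    rw [← h1, show Sum.inl r' = (e u).1 by rw [hu]]
    rfl
  refine ⟨M, ?_, fun u' u => ?_, fun K _ χ hχ x hx hl => ?_⟩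
  · rw [RingHom.map_det]
    exact hd.ne_zero
  · change (∃ r, V (e u') u = w r u) ∨ V (e u') u = 0 ∨ V (e u') u = 1
    rcases (e u').1 with r | r
    · exact .inl ⟨r, rfl⟩
    · by_cases h1 : u = r <;> simp [V, h1]
  · rw [RingHom.map_det] at hχ
    have h1 : LinearIndependent K fun t (u : T) => (χ.mapMatrix M *ᵥ x t) u.1 := by
      rw [Fintype.linearIndependent_iff] at hl ⊢
      refine fun g hg => hl g (eq_zero_of_mulVec_eq_zero hχ (funext fun u => ?_))
      rw [mulVec_sum]
      simp only [mulVec_smul]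
      by_cases h2 : ∀ r, (e u).1 ≠ .inl r
      · simpa using congrFun hg ⟨u, h2⟩
      · push Not at h2
        obtain ⟨r, hr⟩ := h2
        rw [Finset.sum_apply]
        refine Finset.sum_eq_zero fun t _ => ?_
        have h3 : (χ.mapMatrix M *ᵥ x t) u = ∑ u', χ (V (e u) u') * x t u' := rfl
        rw [Pi.smul_apply, h3, hr]
        exact smul_eq_zero_of_right _ (hx t r)
    have h2 := h1.fintype_card_le_finrank
    rw [Module.finrank_fintype_fun_eq_card, Fintype.card_fin] at h2
    omega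

theorem det_degree {σ U : Type} [Fintype U] [DecidableEq U] (M : Matrix U U (MvPolynomial σ ℤ))
    {d : ℕ} (h : ∀ i j, (M i j).totalDegree ≤ d) : M.det.totalDegree ≤ Fintype.card U * d := by
  rw [det_apply']
  refine MvPolynomial.totalDegree_finsetSum_le fun π _ => (MvPolynomial.totalDegree_mul _ _).trans ?_
  rw [← map_intCast (MvPolynomial.C (R := ℤ)), MvPolynomial.totalDegree_C, zero_add]
  exact (MvPolynomial.totalDegree_finsetProd _ _).trans
    ((Finset.sum_le_card_nsmul _ _ _ fun i _ => h _ _).trans_eq rfl)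

theorem det_int {U : Type} [Fintype U] [DecidableEq U] (M : Matrix U U ℤ) {H : ℕ}
    (h : ∀ i j, (M i j).natAbs ≤ H) :
    M.det.natAbs ≤ (Fintype.card U).factorial * H ^ Fintype.card U := by
  have h1 := det_le (A := M) (abv := AbsoluteValue.abs) (x := (H : ℤ)) fun i j => by
    rw [AbsoluteValue.abs_apply, Int.abs_eq_natAbs]
    exact_mod_cast h i j
  rw [AbsoluteValue.abs_apply, Int.abs_eq_natAbs, nsmul_eq_mul] at h1
  exact_mod_cast h1

end Pool.Agent.Lib.MP_8b1d3b_lc.NG
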