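import Pool.Agent.Lib.MP_8b1d3b_lc.NG.Norm

/-! More degree and size bounds. -/

open MvPolynomial
open scoped Polynomial

namespace Pool.Agent.Lib.MP_8b1d3b_lc.NG

variable {σ τ ι : Type} {d e h k : ℕ}

theorem norma_coeff (F : MvPolynomial (τ ⊕ σ) ℤ) (a : τ →₀ ℕ) (b : σ →₀ ℕ) :
    coeff b (coeff a (sumAlgEquiv ℤ τ σ F)) = coeff (a.sumElim b) F := by
  classical
  induction F using MvPolynomial.induction_on' with
  | monomial m c =>
    obtain ⟨⟨u, v⟩, rfl⟩ := Finsupp.sumFinsuppEquivProdFinsupp.symm.surjective m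
    have h1 : sumAlgEquiv ℤ τ σ (monomial (u.sumElim v) c) = monomial u (monomial v c) := by
      rw [monomial_eq, monomial_eq, monomial_eq, Finsupp.prod_sumElim]
      simp only [map_mul, map_finsuppProd, map_pow, sumAlgEquiv_C_inl, Function.comp_def,
        sumAlgEquiv_X_inl, sumAlgEquiv_X_inr]
      ring
    have h2 : u.sumElim v = a.sumElim b ↔ u = a ∧ v = b :=
      (Finsupp.sumFinsuppEquivProdFinsupp.symm.injective.eq_iff (a := (u, v)) (b := (a, b))).trans
        Prod.mk_inj
    rw [Finsupp.sumFinsuppEquivProdFinsupp_symm_apply, h1, coeff_monomial, coeff_monomial]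
    by_cases e : u = a
    · simp [e, coeff_monomial, ← h2.trans (and_iff_right e)]
    · simp [e, h2]
  | add p q hp hq => simp only [map_add, coeff_add, hp, hq]

/-- A coefficient of a coefficient is the coefficient at `Finsupp.sumElim`. -/
theorem Bd.coeff_sum {F : MvPolynomial (τ ⊕ σ) ℤ} (H : Bd F d h) (a : τ →₀ ℕ) :
    Bd (coeff a (sumAlgEquiv ℤ τ σ F)) d h := by
  classical
  have hm : ∀ b ∈ (coeff a (sumAlgEquiv ℤ τ σ F)).support, a.sumElim b ∈ F.support := by
    intro b hb
    rwa [mem_support_iff, ← norma_coeff, ← mem_support_iff]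
  refine ⟨Finset.sup_le fun b hb => le_trans ?_ ((le_totalDegree (hm b hb)).trans H.1),
    le_trans ?_ H.2⟩
  · rw [Finsupp.sum_sumElim]
    exact Nat.le_add_left _ _
  · have hi : Set.InjOn (fun b : σ →₀ ℕ => a.sumElim b)
        (coeff a (sumAlgEquiv ℤ τ σ F)).support := fun b _ b' _ e =>
      Finsupp.ext fun i => DFunLike.congr_fun e (Sum.inr i)
    simp only [l1, norma_coeff]
    rw [← Finset.sum_image (f := fun m => (coeff m F).natAbs) hi]
    exact Finset.sum_le_sum_of_subset (Finset.image_subset_iff.2 hm)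

theorem bd_of_coeff [Fintype σ] {f : MvPolynomial σ ℤ} (h1 : ∀ a ∈ f.support, ∀ i, a i ≤ d)
    (h2 : ∀ a, (coeff a f).natAbs ≤ h) :
    Bd f (Fintype.card σ * d) ((d + 1) ^ Fintype.card σ * h) := by
  classical
  refine ⟨Finset.sup_le fun a ha => ?_, ?_⟩
  · rw [Finsupp.sum_fintype _ _ fun _ => rfl]
    exact Finset.sum_le_card_nsmul _ _ d fun i _ => h1 a ha i
  · refine (Finset.sum_le_card_nsmul _ _ h fun a _ => h2 a).trans (Nat.mul_le_mul_right h ?_)
    have h3 := Finset.card_le_card_of_injOn (s := f.support)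
      (t := Fintype.piFinset fun _ : σ => Finset.range (d + 1)) (fun a => ⇑a)
      (fun a ha => by
        simpa [Nat.lt_succ_iff] using h1 a ha) fun a _ b _ e => DFunLike.coe_injective e
    simpa using h3

theorem PBd.mono {f : (MvPolynomial σ ℤ)[X]} (H : PBd f d h) (h1 : d ≤ e) (h2 : h ≤ k) :
    PBd f e k := ⟨H.1.trans h1, fun i => (H.2 i).mono h1 h2⟩

theorem PBd.mul {f g : (MvPolynomial σ ℤ)[X]} {h' : ℕ} (H : PBd f d h) (H' : PBd g e h') :
    PBd (f * g) (d + e) ((d + 1) * (h * h')) := by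
  classical
  refine ⟨Polynomial.natDegree_mul_le.trans (Nat.add_le_add H.1 H'.1), fun i => ?_⟩
  rw [Polynomial.coeff_mul, ← Finset.sum_filter_of_ne (p := fun x : ℕ × ℕ => x.1 ≤ d)
    fun x _ hx => (Polynomial.le_natDegree_of_ne_zero (left_ne_zero_of_mul hx)).trans H.1]
  refine (bd_sum _ fun x _ => (H.2 x.1).mul (H'.2 x.2)).mono le_rfl (Nat.mul_le_mul_right _ ?_)
  refine (Finset.card_le_card_of_injOn (t := Finset.range (d + 1)) Prod.fst (fun x hx => ?_)
    fun x hx y hy e => ?_).trans (Finset.card_range _).le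
  · simpa [Nat.lt_succ_iff] using (Finset.mem_filter.1 hx).2
  · have h1 := Finset.HasAntidiagonal.mem_antidiagonal.1 (Finset.mem_filter.1 hx).1
    have h2 := Finset.HasAntidiagonal.mem_antidiagonal.1 (Finset.mem_filter.1 hy).1
    exact Prod.ext e (by omega)

theorem pbd_prod (s : Finset ι) {F : ι → (MvPolynomial σ ℤ)[X]} (H : ∀ i ∈ s, PBd (F i) d h) :
    PBd (∏ i ∈ s, F i) (s.card * d) (((d + 1) * h) ^ s.card) := by
  classical
  induction s using Finset.induction_on with
  | empty =>
    refine ⟨by simp, fun i => ?_⟩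
    rw [Finset.prod_empty, Polynomial.coeff_one, Finset.card_empty, zero_mul, pow_zero]
    split_ifs
    · exact bd_one
    · exact bd_zero _ _
  | insert a s ha ih =>
    rw [Finset.prod_insert ha, Finset.card_insert_of_notMem ha]
    exact ((H a (Finset.mem_insert_self _ _)).mul
      (ih fun i hi => H i (Finset.mem_insert_of_mem hi))).mono (by ring_nf; rfl) (by ring_nf; rfl)

theorem PBd.norm {f : (MvPolynomial σ ℤ)[X]} (H : PBd f d h) (hh : 1 ≤ h) :
    PBd f.integralNormalization (d * (d + 1)) (h ^ (d + 1)) := by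
  refine ⟨?_, fun i => ?_⟩
  · rw [Polynomial.natDegree_integralNormalization]
    exact H.1.trans (Nat.le_mul_of_pos_right _ d.succ_pos)
  · rw [Polynomial.integralNormalization_coeff]
    split_ifs
    · exact bd_one.mono (Nat.zero_le _) (Nat.one_le_pow _ _ hh)
    · have h1 : f.natDegree - 1 - i ≤ d := by have := H.1; omega
      refine ((H.2 i).mul ((H.2 f.natDegree).pow _)).mono ?_ ?_
      · have := Nat.mul_le_mul_right d h1
        nlinarith
      · rw [← pow_succ']
        exact Nat.pow_le_pow_right hh (Nat.succ_le_succ h1)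

/-- Pass to `MvPolynomial (Option σ) ℤ` (`optionEquivLeft`), where total degree is additive. -/
theorem deg_factor {f g : (MvPolynomial σ ℤ)[X]} (h0 : f ≠ 0) (H : PBd f d h) (hg : g ∣ f) :
    g.natDegree ≤ d ∧ ∀ i, (g.coeff i).totalDegree ≤ 2 * d := by
  refine ⟨(Polynomial.natDegree_le_of_dvd hg h0).trans H.1, fun i => ?_⟩
  obtain ⟨F, rfl⟩ := (optionEquivLeft ℤ σ).surjective f
  obtain ⟨G, rfl⟩ := (optionEquivLeft ℤ σ).surjective g
  refine (totalDegree_coeff_optionEquivLeft_le ℤ σ G i).trans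
    ((totalDegree_le_of_dvd_of_isDomain ((map_dvd_iff _).1 hg)
      fun e => h0 (by rw [e, map_zero])).trans (Finset.sup_le fun m hm => ?_))
  have h1 : coeff m.some ((optionEquivLeft ℤ σ F).coeff (m none)) ≠ 0 := by
    rw [optionEquivLeft_coeff_some_coeff_none]
    exact mem_support_iff.1 hm
  have h2 := (le_totalDegree (mem_support_iff.2 h1)).trans (H.2 _).1
  have h3 : m none ≤ d := (Polynomial.le_natDegree_of_ne_zero fun e => h1 (by
    rw [e, coeff_zero])).trans H.1
  rw [Finsupp.sum_option_index m _ (fun _ => rfl) fun _ _ _ => rfl]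
  omega

end Pool.Agent.Lib.MP_8b1d3b_lc.NG
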