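import Pool.Agent.Lib.MP_8b1d3b_lc.NG.NumC

/-! Numerical bounds. -/

open Nat

namespace Pool.Agent.Lib.MP_8b1d3b_lc.NG

theorem numb_mul {x y a b : ℕ} (hx : x ≤ 2 ^ a) (hy : y ≤ 2 ^ b) : x * y ≤ 2 ^ (a + b) :=
  pow_add 2 a b ▸ Nat.mul_le_mul hx hy

theorem numb_pow {x a : ℕ} (hx : x ≤ 2 ^ a) (k : ℕ) : x ^ k ≤ 2 ^ (a * k) :=
  pow_mul 2 a k ▸ Nat.pow_le_pow_left hx k

theorem numb_self (x : ℕ) : x ≤ 2 ^ x := Nat.lt_two_pow_self.le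

theorem numb_fac (x : ℕ) : x ! ≤ 2 ^ (x * x) :=
  (Nat.factorial_le_pow x).trans (numb_pow (numb_self x) x)

theorem numb_mono {x a b : ℕ} (hx : x ≤ 2 ^ a) (h : a ≤ b) : x ≤ 2 ^ b :=
  hx.trans (Nat.pow_le_pow_right two_pos h)

theorem num_b : ∃ c : ℕ, ∀ N d h u M H : ℕ, 2 ≤ N → d = 2 ^ N → h = 2 ^ 2 ^ N → u ≤ 6 * d ^ 2 →
    M = 12 * d ^ 3 → H = 2 ^ (d + 1) ^ 2 * (d + 1) ^ 2 * (h * (2 * M) ^ d) →
      (4 * d)! * ((2 * d + 1) * H) ^ (4 * d) * (h * M ^ d) * (u ! * (8 * d * H) ^ u) ≤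
        2 ^ 2 ^ N ^ c ∧ 50 * (2 * (2 * d)) ^ 5 + 2 * (2 * (2 * d)) ^ 3 + 2 * (2 * d) * (9 * d ^ 2) ≤
          2 ^ N ^ c := by
  refine ⟨5, fun N d h u M H hN hd hh hu hM hH => ?_⟩
  have h4 : 4 ≤ d := hd ▸ Nat.pow_le_pow_right (n := 2) two_pos hN
  have h5 : 65536 * d ^ 6 ≤ 2 ^ N ^ 5 := by
    have h1 : 4 ^ 8 ≤ d ^ 8 := Nat.pow_le_pow_left h4 8
    have h2 : 2 ^ 4 ≤ N ^ 4 := Nat.pow_le_pow_left hN 4
    calc 65536 * d ^ 6 ≤ d ^ 8 * d ^ 6 := Nat.mul_le_mul_right _ h1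
      _ = 2 ^ (N * 14) := by rw [← pow_add, hd, ← pow_mul]
      _ ≤ _ := Nat.pow_le_pow_right two_pos (by rw [pow_succ' N 4]; gcongr; omega)
  have p : ∀ i j, i ≤ j → d ^ i ≤ d ^ j := fun i j e => Nat.pow_le_pow_right (by omega) e
  have p1 := p 1 6 (by omega)
  have p2 := p 2 6 (by omega)
  have p3 := p 3 6 (by omega)
  have p4 := p 4 6 (by omega)
  have p5 := p 5 6 (by omega)
  rw [← hd] at hh
  have e1 : H ≤ 2 ^ _ := hH ▸ numb_mul (numb_mul le_rfl (numb_self _))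
    (numb_mul hh.le (numb_pow (numb_self _) _))
  refine ⟨numb_mono (numb_mul (numb_mul (numb_mul (numb_fac _) (numb_pow (numb_mul (numb_self _) e1) _))
    (numb_mul hh.le (numb_pow (numb_self _) _))) (numb_mul (numb_fac _)
    (numb_pow (numb_mul (numb_self _) e1) _))) (le_trans ?_ h5), le_trans ?_ h5⟩
  · refine le_trans (b := 4 * d * (4 * d) + (2 * d + 1 + ((d + 1) ^ 2 + (d + 1) ^ 2 +
      (d + 2 * M * d))) * (4 * d) + (d + M * d) + (6 * d ^ 2 * (6 * d ^ 2) + (8 * d + ((d + 1) ^ 2 +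
      (d + 1) ^ 2 + (d + 2 * M * d))) * (6 * d ^ 2))) (by gcongr) ?_
    rw [hM]
    ring_nf at *
    omega
  · ring_nf at *
    omega

theorem num_c (a : ℕ) : ∃ c : ℕ, ∀ N m : ℕ, 2 ≤ N → m ≤ N → ∀ d h : ℕ, d = 2 ^ (N ^ 5) ^ a →
    h = 2 ^ 2 ^ (N ^ 5) ^ a →
      (m + 1) * d ≤ 2 ^ N ^ c ∧ ((d + 1) * h) ^ (m + 1) ≤ 2 ^ 2 ^ N ^ c := by
  refine ⟨5 * a + 3, fun N m hN hm d h hd hh => ?_⟩
  have h1 : 1 ≤ (N ^ 5) ^ a := Nat.one_le_pow _ _ (by positivity)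
  have h2 : (N ^ 5) ^ a + 2 + (m + 1) ≤ N ^ (5 * a + 3) := by
    rw [pow_add, pow_mul]
    generalize (N ^ 5) ^ a = K at *
    have : 4 * N ≤ N ^ 3 := by nlinarith [Nat.mul_le_mul hN hN]
    nlinarith [Nat.mul_le_mul h1 hN, Nat.mul_le_mul_left K this]
  have h3 : 1 ≤ d := hd ▸ Nat.one_le_two_pow
  rw [← hd] at hh
  refine ⟨numb_mono (numb_mul (numb_self _) hd.le) (by omega), numb_mono (numb_pow
    (numb_mul (numb_self _) hh.le) _) (numb_mono (numb_mul ?_ (numb_self _)) h2)⟩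
  rw [pow_add, ← hd]
  omega

theorem num_d (N : ℕ) (hN : 2 ≤ N) : 2 ^ N * (2 ^ N + 1) ≤ 2 ^ N ^ 3 ∧
    (2 ^ 2 ^ N) ^ (2 ^ N + 1) ≤ 2 ^ 2 ^ N ^ 3 := by
  have h1 : 2 ^ N * (2 ^ N + 1) ≤ 2 ^ N ^ 3 := by
    have : 2 ^ N + 1 ≤ 2 ^ (N + 1) := by have := @Nat.one_le_two_pow N; omega
    exact numb_mono (numb_mul le_rfl this) (by nlinarith [Nat.mul_le_mul hN hN])
  exact ⟨h1, numb_mono (numb_pow le_rfl _) h1⟩

end Pool.Agent.Lib.MP_8b1d3b_lc.NG
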