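import Mathlib

/-! Numerical bounds. -/

open Nat

namespace Pool.Agent.Lib.MP_8b1d3b_lc.NG

/-- Classes of functions that are closed under sums and products. -/
structure numc_Cl {X : Type} (B : (X → ℕ) → Prop) : Prop where
  add : ∀ {f g}, B f → B g → B fun x => f x + g x
  mul : ∀ {f g}, B f → B g → B fun x => f x * g x
  cst : ∀ k, B fun _ => k

/-- Functions whose logarithm is bounded by a member of the class. -/
def numc_L {X : Type} (B : (X → ℕ) → Prop) (f : X → ℕ) : Prop := ∃ g, B g ∧ ∀ x, f x ≤ 2 ^ g x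

/-- Functions that are bounded by a power of `N`. -/
def numc_P {X : Type} (N f : X → ℕ) : Prop := ∃ c, ∀ x, f x ≤ N x ^ c

theorem numc_in {X : Type} {B : (X → ℕ) → Prop} {f : X → ℕ} (h : B f) : numc_L B f :=
  ⟨f, h, fun _ => Nat.lt_two_pow_self.le⟩

theorem numc_Cl.pow {X : Type} {B : (X → ℕ) → Prop} (h : numc_Cl B) {f g : X → ℕ}
    (hf : numc_L B f) (hg : B g) : numc_L B fun x => f x ^ g x := by
  obtain ⟨a, h1, h2⟩ := hf
  exact ⟨_, h.mul h1 hg, fun x => (Nat.pow_le_pow_left (h2 x) _).trans_eq (pow_mul _ _ _).symm⟩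

theorem numc_sum {b x y i j : ℕ} (hb : 2 ≤ b) (hx : x ≤ b ^ i) (hy : y ≤ b ^ j) :
    x + y ≤ b ^ (i + j + 1) := by
  have h1 := Nat.pow_le_pow_right (n := b) (by omega) (Nat.le_add_right i j)
  have h2 := Nat.pow_le_pow_right (n := b) (by omega) (Nat.le_add_left j i)
  have h3 := Nat.mul_le_mul_left (b ^ (i + j)) hb
  rw [pow_succ]
  omega

theorem numc_Cl.up {X : Type} {B : (X → ℕ) → Prop} (h : numc_Cl B) : numc_Cl (numc_L B) where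
  add := fun ⟨_, h1, h2⟩ ⟨_, h3, h4⟩ =>
    ⟨_, h.add (h.add h1 h3) (h.cst 1), fun x => numc_sum le_rfl (h2 x) (h4 x)⟩
  mul := fun ⟨_, h1, h2⟩ ⟨_, h3, h4⟩ =>
    ⟨_, h.add h1 h3, fun x => (Nat.mul_le_mul (h2 x) (h4 x)).trans_eq (pow_add _ _ _).symm⟩
  cst k := numc_in (h.cst k)

theorem numc_poly {X : Type} (N : X → ℕ) (hN : ∀ x, 2 ≤ N x) : numc_Cl (numc_P N) where
  add := fun ⟨_, h1⟩ ⟨_, h2⟩ => ⟨_, fun x => numc_sum (hN x) (h1 x) (h2 x)⟩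
  mul := fun ⟨_, h1⟩ ⟨_, h2⟩ =>
    ⟨_, fun x => (Nat.mul_le_mul (h1 x) (h2 x)).trans_eq (pow_add _ _ _).symm⟩
  cst k := ⟨k, fun x => Nat.lt_two_pow_self.le.trans (Nat.pow_le_pow_left (hN x) k)⟩

theorem numc_key {A m D R E T Γ : ℕ} (hT : T = A * (D + m * R + m * E + 1) ^ m)
    (hΓ : Γ = T * D + m * R + m * T * E) : A * (Γ + 1) ^ m ≤ (T + 1) * (T + 1) ^ m := by
  have h : Γ + 1 ≤ (D + m * R + m * E + 1) * (T + 1) :=
    Nat.le.intro (k := D + m * R * T + m * E + T) (by rw [hΓ]; ring)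
  refine (Nat.mul_le_mul_left A (Nat.pow_le_pow_left h m)).trans ?_
  rw [mul_pow, ← mul_assoc, ← hT]
  exact Nat.mul_le_mul_right _ (Nat.le_succ T)

/-- Take `T + 1 = 4 * 2 ^ r * R ^ m * C ^ m` with `C = D + m * R + m * (r * D) + 1`, so that
`Γ + 1 ≤ C * (T + 1)`. -/
theorem num_a : ∃ c : ℕ, ∀ N m n r D H : ℕ, 2 ≤ N → m ≤ N → n ≤ N → r ≤ N → D = 2 ^ N →
    H = 2 ^ 2 ^ N → ∃ T R Γ ρ U : ℕ, R = r * D + 1 ∧ Γ = T * D + m * R + m * T * (r * D) ∧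
      ρ = 2 * n * Γ ∧ U = (T + 1) * (T + 1) ^ m * (ρ + 1) ^ n ∧
      4 * (2 ^ r * R ^ m) * (Γ + 1) ^ m ≤ (T + 1) * (T + 1) ^ m ∧ T ≤ 2 ^ N ^ c ∧
      n * ρ ≤ 2 ^ N ^ c ∧ U * U * ((m * T + 1) *
        (H ^ T * 2 ^ (T * D + m * R) * (2 ^ (r * D + 1) * H ^ r) ^ (m * T))) ≤ 2 ^ 2 ^ N ^ c := by
  let X := {p : ℕ × ℕ × ℕ × ℕ // 2 ≤ p.1 ∧ p.2.1 ≤ p.1 ∧ p.2.2.1 ≤ p.1 ∧ p.2.2.2 ≤ p.1}
  let N : X → ℕ := fun x => x.1.1
  let m : X → ℕ := fun x => x.1.2.1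
  let n : X → ℕ := fun x => x.1.2.2.1
  let r : X → ℕ := fun x => x.1.2.2.2
  have h0 := numc_poly N fun x => x.2.1
  have h1 := h0.up
  have h2 := h1.up
  have bN : numc_P N N := ⟨1, fun x => (pow_one _).ge⟩
  have bm : numc_P N m := ⟨1, fun x => x.2.2.1.trans (pow_one _).ge⟩
  have bn : numc_P N n := ⟨1, fun x => x.2.2.2.1.trans (pow_one _).ge⟩
  have br : numc_P N r := ⟨1, fun x => x.2.2.2.2.trans (pow_one _).ge⟩
  have em := numc_in bm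
  have en := numc_in bn
  have er := numc_in br
  let D : X → ℕ := fun x => 2 ^ N x
  have bD : numc_L (numc_P N) D := h0.pow (h1.cst 2) bN
  let R : X → ℕ := fun x => r x * D x + 1
  have bR : numc_L (numc_P N) R := h1.add (h1.mul er bD) (h1.cst 1)
  let C : X → ℕ := fun x => D x + m x * R x + m x * (r x * D x) + 1
  have bC : numc_L (numc_P N) C :=
    h1.add (h1.add (h1.add bD (h1.mul em bR)) (h1.mul em (h1.mul er bD))) (h1.cst 1)
  let T : X → ℕ := fun x => 4 * (2 ^ r x * R x ^ m x) * C x ^ m x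
  have bT : numc_L (numc_P N) T :=
    h1.mul (h1.mul (h1.cst 4) (h1.mul (h0.pow (h1.cst 2) br) (h0.pow bR bm))) (h0.pow bC bm)
  let Γ : X → ℕ := fun x => T x * D x + m x * R x + m x * T x * (r x * D x)
  have bΓ : numc_L (numc_P N) Γ :=
    h1.add (h1.add (h1.mul bT bD) (h1.mul em bR)) (h1.mul (h1.mul em bT) (h1.mul er bD))
  let ρ : X → ℕ := fun x => 2 * n x * Γ x
  have bρ : numc_L (numc_P N) ρ := h1.mul (h1.mul (h1.cst 2) en) bΓ
  let U : X → ℕ := fun x => (T x + 1) * (T x + 1) ^ m x * (ρ x + 1) ^ n x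
  have bU : numc_L (numc_P N) U := h1.mul (h1.mul (h1.add bT (h1.cst 1))
    (h0.pow (h1.add bT (h1.cst 1)) bm)) (h0.pow (h1.add bρ (h1.cst 1)) bn)
  have bH := h1.pow (h2.cst 2) bD
  obtain ⟨g1, p1, q1⟩ := bT
  have bT : numc_L (numc_P N) T := ⟨g1, p1, q1⟩
  obtain ⟨g2, p2, q2⟩ := h1.mul en bρ
  obtain ⟨g, ⟨g3, p3, q3⟩, q4⟩ := h2.mul (numc_in (h1.mul bU bU))
    (h2.mul (numc_in (h1.add (h1.mul em bT) (h1.cst 1)))
      (h2.mul (h2.mul (h1.pow bH bT) (h1.pow (h2.cst 2) (h1.add (h1.mul bT bD) (h1.mul em bR))))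
        (h1.pow (h2.mul (h1.pow (h2.cst 2) bR) (h1.pow bH er)) (h1.mul em bT))))
  obtain ⟨c, hc⟩ := h0.add (h0.add p1 p2) p3
  refine ⟨c, fun N' m' n' r' D' H a1 a2 a3 a4 a5 a6 => ?_⟩
  subst a5 a6
  let x : X := ⟨(N', m', n', r'), a1, a2, a3, a4⟩
  have hx : g1 x + g2 x + g3 x ≤ N' ^ c := hc x
  refine ⟨T x, R x, Γ x, ρ x, U x, rfl, rfl, rfl, rfl, numc_key rfl rfl,
    (q1 x).trans (Nat.pow_le_pow_right two_pos (by omega)),
    (q2 x).trans (Nat.pow_le_pow_right two_pos (by omega)),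
    (q4 x).trans (Nat.pow_le_pow_right two_pos ((q3 x).trans
      (Nat.pow_le_pow_right two_pos (by omega))))⟩

end Pool.Agent.Lib.MP_8b1d3b_lc.NG
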