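import Pool.Agent.Lib.MP_8b1d3b_lc.NG.Def

/-! Recovering a point from a root. -/

open MvPolynomial
open scoped Polynomial

namespace Pool.Agent.Lib.MP_8b1d3b_lc.NG

variable {τ σ : Type} [Fintype τ]

/-- The derivative of the coefficients in one variable. -/
noncomputable def cd {σ : Type} (i : σ) (Φ : (MvPolynomial σ ℤ)[X]) : (MvPolynomial σ ℤ)[X] :=
  Φ.sum fun n a => Polynomial.monomial n (pderiv i a)

/-- `Θ ^ D * f (G / Θ)`. -/
noncomputable def hom {A : Type} [CommRing A] (D : ℕ) (Θ : A) (G : τ → A) (f : MvPolynomial τ ℤ) :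
    A := ∑ γ ∈ f.support, ((coeff γ f : ℤ) : A) * Θ ^ (D - ∑ i, γ i) * ∏ i, G i ^ γ i

/-- The denominator. -/
noncomputable def Th (l : MvPolynomial (τ ⊕ σ) ℤ) (Φ : (MvPolynomial (τ ⊕ σ) ℤ)[X]) :
    (MvPolynomial (τ ⊕ σ) ℤ)[X] := Polynomial.C (l ^ 2) * Polynomial.derivative Φ

/-- The numerators. -/
noncomputable def Gi (l : MvPolynomial (τ ⊕ σ) ℤ) (Φ : (MvPolynomial (τ ⊕ σ) ℤ)[X]) (i : τ) :
    (MvPolynomial (τ ⊕ σ) ℤ)[X] := -(Polynomial.C l * cd (Sum.inl i) Φ +
      Polynomial.X * Polynomial.derivative Φ * Polynomial.C (pderiv (Sum.inl i) l))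

theorem hom_eq {A B : Type} [CommRing A] [CommRing B] (π : A →+* B) {D : ℕ} {Θ : A} {G : τ → A}
    {x : τ → B} (h : ∀ i, π (G i) = π Θ * x i) {f : MvPolynomial τ ℤ} (hf : f.totalDegree ≤ D) :
    π (hom D Θ G f) = π Θ ^ D * ev x f := by
  have e : ev x f = ∑ γ ∈ f.support, ((coeff γ f : ℤ) : B) * ∏ i, x i ^ γ i :=
    eval₂_eq' (Int.castRingHom B) x f
  rw [e, hom, map_sum, Finset.mul_sum]
  refine Finset.sum_congr rfl fun γ hγ => ?_
  have h1 : ∑ i, γ i ≤ D := by
    have h2 := le_totalDegree hγ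
    rw [Finsupp.sum_fintype _ _ fun _ => rfl] at h2
    exact h2.trans hf
  obtain ⟨k, rfl⟩ := Nat.exists_eq_add_of_le h1
  simp only [map_mul, map_intCast, map_pow, map_prod, h, mul_pow, Finset.prod_mul_distrib,
    Finset.prod_pow_eq_pow_sum, Nat.add_sub_cancel_left, pow_add]
  ring

omit [Fintype τ] in
theorem rec_sp {F : Type} [CommRing F] (z : σ → F) (i : τ) (a : MvPolynomial (τ ⊕ σ) ℤ) :
    pderiv i (sp z a) = sp z (pderiv (Sum.inl i) a) := by
  classical
  induction a using MvPolynomial.induction_on with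
  | C c =>
    rw [pderiv_C, map_zero, eq_intCast C c, map_intCast, Derivation.map_intCast]
  | add p q hp hq => simp only [map_add, hp, hq]
  | mul_X p j hp =>
    have h1 : pderiv i (sp z (X j)) = sp z (pderiv (Sum.inl i) (X j)) := by
      rcases j with j | j
      · rw [sp_inl]
        by_cases hj : j = i
        · rw [hj, pderiv_X_self, pderiv_X_self, map_one]
        · rw [pderiv_X_of_ne hj, pderiv_X_of_ne (fun h => hj (Sum.inl_injective h)), map_zero]
      · rw [sp_inr, pderiv_C, pderiv_X_of_ne Sum.inr_ne_inl, map_zero]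
    rw [map_mul, Derivation.leibniz, Derivation.leibniz, hp, h1]
    simp only [smul_eq_mul, map_add, map_mul]

omit [Fintype τ] in
theorem rec_eval {F : Type} [CommRing F] (z : σ → F) (i : τ) (y : MvPolynomial τ F)
    (Φ : (MvPolynomial (τ ⊕ σ) ℤ)[X]) : pderiv i (Φ.eval₂ (sp z) y) =
      (cd (Sum.inl i) Φ).eval₂ (sp z) y +
        (Polynomial.derivative Φ).eval₂ (sp z) y * pderiv i y := by
  induction Φ using Polynomial.induction_on' with
  | add p q hp hq =>
    have e : cd (Sum.inl i) (p + q) = cd (Sum.inl i) p + cd (Sum.inl i) q :=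
      Polynomial.sum_add_index p q _ (fun _ => by simp) fun _ _ _ => by simp
    rw [e, Polynomial.eval₂_add, map_add, hp, hq, map_add, Polynomial.eval₂_add,
      Polynomial.eval₂_add]
    ring
  | monomial n a =>
    have e : cd (Sum.inl i) (Polynomial.monomial n a) =
        Polynomial.monomial n (pderiv (Sum.inl i) a) :=
      Polynomial.sum_monomial_index a _ (by simp)
    rw [e, Polynomial.derivative_monomial, Polynomial.eval₂_monomial, Polynomial.eval₂_monomial,
      Polynomial.eval₂_monomial, Derivation.leibniz, Derivation.leibniz_pow, rec_sp, map_mul,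
      map_natCast]
    simp only [smul_eq_mul, nsmul_eq_mul]
    ring

/-- `pderiv i (sp z a) = sp z (pderiv (inl i) a)`; apply `pderiv i` to `h`, multiply by
`sp z l`. -/
theorem chain {F : Type} [CommRing F] (z : σ → F) (P : τ → F) (l : MvPolynomial (τ ⊕ σ) ℤ)
    (Φ : (MvPolynomial (τ ⊕ σ) ℤ)[X]) {y : MvPolynomial τ F} (hy : y = sp z l * ∑ i, X i * C (P i))
    (h : Φ.eval₂ (sp z) y = 0) (i : τ) :
    (Gi l Φ i).eval₂ (sp z) y = (Th l Φ).eval₂ (sp z) y * C (P i) := by
  classical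
  have h1 := rec_eval z i y Φ
  have h2 : pderiv i (∑ j, X j * C (P j) : MvPolynomial τ F) = C (P i) := by
    rw [map_sum, Finset.sum_eq_single i]
    · rw [Derivation.leibniz, pderiv_C, pderiv_X_self, smul_zero, zero_add, smul_eq_mul, mul_one]
    · intro j _ hj
      rw [Derivation.leibniz, pderiv_C, pderiv_X_of_ne hj, smul_zero, smul_zero, add_zero]
    · exact fun hi => absurd (Finset.mem_univ i) hi
  have h3 : pderiv i y = sp z l * C (P i) +
      (∑ j, X j * C (P j)) * sp z (pderiv (Sum.inl i) l) := by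
    rw [hy, Derivation.leibniz, h2, rec_sp, smul_eq_mul, smul_eq_mul]
  rw [h, map_zero, h3] at h1
  simp only [Gi, Th, Polynomial.eval₂_neg, Polynomial.eval₂_add, Polynomial.eval₂_mul,
    Polynomial.eval₂_C, Polynomial.eval₂_X, map_pow, Polynomial.eval₂_pow]
  linear_combination sp z l * h1 - (Polynomial.derivative Φ).eval₂ (sp z) y *
    sp z (pderiv (Sum.inl i) l) * hy

/-- Clear denominators with `hom_eq`. -/
theorem rat_point (S : Finset (MvPolynomial τ ℤ)) {x : τ → ℚ} (h : ∀ f ∈ S, ev x f = 0) :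
    ∃ q0, ∀ (q : ℕ) [Fact q.Prime], q0 ≤ q → ∃ x' : τ → ZMod q, ∀ f ∈ S, ev x' f = 0 := by
  obtain ⟨b, hb⟩ := IsLocalization.exist_integer_multiples_of_finite (nonZeroDivisors ℤ) x
  choose G hG using hb
  have hb0 : (b : ℤ) ≠ 0 := nonZeroDivisors.coe_ne_zero b
  have h1 : ∀ f ∈ S, hom f.totalDegree (b : ℤ) G f = 0 := fun f hf => by
    have h2 := hom_eq (Int.castRingHom ℚ) (Θ := (b : ℤ)) (G := G) (x := x)
      (fun i => (hG i).trans (zsmul_eq_mul _ _)) (le_refl f.totalDegree)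
    rw [h f hf, mul_zero] at h2
    exact Int.cast_eq_zero.1 h2
  refine ⟨(b : ℤ).natAbs + 1, fun q _ hq => ?_⟩
  have hq0 : ((b : ℤ) : ZMod q) ≠ 0 := fun h0 =>
    absurd (Nat.le_of_dvd (Int.natAbs_pos.2 hb0)
      (Int.natCast_dvd.1 ((ZMod.intCast_zmod_eq_zero_iff_dvd _ _).1 h0))) (by omega)
  refine ⟨fun i => (G i : ZMod q) / (b : ℤ), fun f hf => ?_⟩
  have h2 := hom_eq (Int.castRingHom (ZMod q)) (Θ := (b : ℤ)) (G := G)
    (x := fun i => (G i : ZMod q) / (b : ℤ)) (fun i => (mul_div_cancel₀ _ hq0).symm)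
    (le_refl f.totalDegree)
  rw [h1 f hf, map_zero] at h2
  exact (mul_eq_zero.1 h2.symm).resolve_left (pow_ne_zero _ hq0)

end Pool.Agent.Lib.MP_8b1d3b_lc.NG
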