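import Pool.Agent.Lib.MP_8b1d3b_lc.NG.Norm
import Pool.Agent.Lib.MP_8b1d3b_lc.NG.NormB

/-! A small relation with polynomial coefficients. -/

open MvPolynomial
open scoped Polynomial

namespace Pool.Agent.Lib.MP_8b1d3b_lc.NG

open scoped Matrix.Norms.Elementwise in
theorem siegel_int {α β : Type} [Fintype α] [Fintype β] (A : Matrix α β ℤ) {H : ℕ} (hH : 1 ≤ H)
    (hA : ∀ i j, (A i j).natAbs ≤ H) (h0 : 0 < Fintype.card β)
    (h : 2 * Fintype.card α ≤ Fintype.card β) :
    ∃ t : β → ℤ, t ≠ 0 ∧ A.mulVec t = 0 ∧ ∀ j, (t j).natAbs ≤ Fintype.card β * H := by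
  rcases Nat.eq_zero_or_pos (Fintype.card α) with hm | hm
  · have := Fintype.card_eq_zero_iff.1 hm
    have := Fintype.card_pos_iff.1 h0
    exact ⟨1, one_ne_zero, Subsingleton.elim _ _, fun j => Nat.mul_pos h0 hH⟩
  obtain ⟨t, h1, h2, h3⟩ := Int.Matrix.exists_ne_zero_int_vec_norm_le A (by omega) hm
  refine ⟨t, h1, h2, fun j => ?_⟩
  have hH' : (1 : ℝ) ≤ H := by exact_mod_cast hH
  have hn : (1 : ℝ) ≤ Fintype.card β := by exact_mod_cast h0
  have hm' : (1 : ℝ) ≤ Fintype.card α := by exact_mod_cast hm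
  have h' : 2 * (Fintype.card α : ℝ) ≤ Fintype.card β := by exact_mod_cast h
  have h4 : ‖A‖ ≤ H := (Matrix.norm_le_iff (by positivity)).2 fun i j => by
    rw [Int.norm_eq_abs, ← Int.cast_abs, Int.abs_eq_natAbs, Int.cast_natCast]
    exact_mod_cast hA i j
  have h5 : (1 : ℝ) ≤ Fintype.card β * max 1 ‖A‖ := one_le_mul_of_one_le_of_one_le hn (le_max_left _ _)
  have h6 := Real.rpow_le_rpow_of_exponent_le h5
    (show (Fintype.card α : ℝ) / (Fintype.card β - Fintype.card α) ≤ 1 from
      (div_le_one (by linarith)).2 (by linarith))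
  rw [Real.rpow_one] at h6
  have h7 := ((norm_le_pi_norm t j).trans (h3.trans h6)).trans
    (mul_le_mul_of_nonneg_left (max_le hH' h4) (by positivity))
  rw [Int.norm_eq_abs, ← Int.cast_abs, Int.abs_eq_natAbs, Int.cast_natCast] at h7
  exact_mod_cast h7

theorem siegel_bern (x g k e : ℕ) (h : k * g + e = x) : (x + g) ^ k * e ≤ x ^ (k + 1) := by
  induction k generalizing e with
  | zero => simp [← h]
  | succ k ih =>
    have h1 := ih (e + g) (by rw [← h]; ring)
    have h2 : (x + g) * e ≤ x * (e + g) := by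
      have : e ≤ x := by omega
      nlinarith
    calc (x + g) ^ (k + 1) * e = (x + g) ^ k * ((x + g) * e) := by ring
      _ ≤ (x + g) ^ k * (x * (e + g)) := Nat.mul_le_mul_left _ h2
      _ = x * ((x + g) ^ k * (e + g)) := by ring
      _ ≤ x * x ^ (k + 1) := Nat.mul_le_mul_left _ h1
      _ = _ := by ring

theorem siegel_two (n g : ℕ) : (2 * n * g + g + 1) ^ n ≤ 2 * (2 * n * g + 1) ^ n := by
  have h1 := siegel_bern (2 * n * g + 1) g n (n * g + 1) (by ring)
  refine Nat.le_of_mul_le_mul_right (c := 2 * n * g + 1) ?_ (by omega)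
  calc (2 * n * g + g + 1) ^ n * (2 * n * g + 1)
      ≤ (2 * n * g + g + 1) ^ n * (2 * (n * g + 1)) := Nat.mul_le_mul_left _ (by nlinarith)
    _ = 2 * ((2 * n * g + 1 + g) ^ n * (n * g + 1)) := by ring
    _ ≤ 2 * (2 * n * g + 1) ^ (n + 1) := Nat.mul_le_mul_left _ h1
    _ = _ := by ring

theorem siegel_rename {τ σ : Type} [Fintype τ] [Fintype σ] (b : σ → ℕ) (x : ℤ) :
    rename (Sum.inr : σ → τ ⊕ σ) (monomial (fs b) x) =
      x • monomial (fs (Sum.elim (fun _ => 0) b)) 1 := by
  rw [rename_monomial, smul_monomial, smul_eq_mul, mul_one]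
  congr 2
  ext i
  rcases i with i | i
  · exact Finsupp.mapDomain_of_notMem_range _ _ (by simp)
  · exact Finsupp.mapDomain_apply Sum.inr_injective _ _

/-- Paper A2. Unknowns: the integer coefficients of the `c i` at the exponents `σ → Fin (ρ + 1)`,
`U = card ι * (ρ + 1) ^ n` of them. Equations: `κ × (τ → Fin (Γ + 1)) × (σ → Fin (ρ + Γ + 1))`,
and `(ρ + Γ + 1) ^ n ≤ 2 * (ρ + 1) ^ n` because `(1 + 1 / (2 n)) ^ n ≤ exp (1 / 2) ≤ 2`. So there
are at least twice as many unknowns as equations, and `Int.Matrix.exists_ne_zero_int_vec_norm_le`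
gives a solution of size at most `U * H` (treat the case of no equations separately);
`bd_of_coeff`. -/
theorem siegel_poly {ι κ τ σ : Type} [Fintype ι] [Fintype κ] [Fintype τ] [Fintype σ]
    (W : ι → κ → MvPolynomial (τ ⊕ σ) ℤ) {Γ H ρ U : ℕ} (hW : ∀ i k, Bd (W i k) Γ H) (hH : 1 ≤ H)
    (h0 : 0 < Fintype.card ι)
    (hc : 4 * Fintype.card κ * (Γ + 1) ^ Fintype.card τ ≤ Fintype.card ι)
    (hρ : ρ = 2 * Fintype.card σ * Γ) (hU : U = Fintype.card ι * (ρ + 1) ^ Fintype.card σ) :
    ∃ c : ι → MvPolynomial σ ℤ, c ≠ 0 ∧ (∀ k, ∑ i, rename Sum.inr (c i) * W i k = 0) ∧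
      ∀ i, Bd (c i) (Fintype.card σ * ρ) (U * U * H) := by
  classical
  obtain ⟨t, ht0, ht, hb⟩ := siegel_int
    (α := κ × (τ → Fin (Γ + 1)) × (σ → Fin (ρ + Γ + 1))) (β := ι × (σ → Fin (ρ + 1)))
    (Matrix.of fun a b => coeff (fs (Sum.elim (fun i => (a.2.1 i : ℕ)) fun i => (a.2.2 i : ℕ)))
      (monomial (fs (Sum.elim (fun _ => 0) fun i => (b.2 i : ℕ))) 1 * W b.1 a.1)) hH
    (fun a b => (((bd_monomial _ 1).mul (hW b.1 a.1)).natAbs_coeff _).trans (by simp))
    (by simp [h0]) (by
      simp only [Fintype.card_prod, Fintype.card_pi, Fintype.card_fin, Finset.prod_const,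
        Finset.card_univ]
      have h1 := siegel_two (Fintype.card σ) Γ
      rw [← hρ] at h1
      calc _ ≤ 2 * (Fintype.card κ * ((Γ + 1) ^ Fintype.card τ * (2 * (ρ + 1) ^ Fintype.card σ))) := by
            gcongr
        _ = 4 * Fintype.card κ * (Γ + 1) ^ Fintype.card τ * (ρ + 1) ^ Fintype.card σ := by ring
        _ ≤ _ := Nat.mul_le_mul_right _ hc)
  have hcard : Fintype.card (ι × (σ → Fin (ρ + 1))) = U := by simp [hU]
  refine ⟨fun i => ∑ b : σ → Fin (ρ + 1), monomial (fs fun s => (b s : ℕ)) (t (i, b)),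
    fun h => ht0 (funext fun ⟨i, b⟩ => ?_), fun k => ?_, fun i => ?_⟩
  · have h1 := congrArg (coeff (fs fun s => (b s : ℕ))) (congrFun h i)
    rw [coeff_sum, Finset.sum_eq_single b (fun b' _ hne => ?_) (by simp), coeff_monomial,
      if_pos rfl] at h1
    · exact h1
    · rw [coeff_monomial, if_neg fun he => hne (funext fun s => Fin.ext ?_)]
      exact DFunLike.congr_fun he s
  · ext e
    simp only [map_sum, siegel_rename, Finset.sum_mul, smul_mul_assoc, coeff_sum, coeff_smul,
      coeff_zero, smul_eq_mul]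
    by_cases he : (∀ i, e (.inl i) < Γ + 1) ∧ ∀ i, e (.inr i) < ρ + Γ + 1
    · have h1 := congrFun ht (k, fun i => ⟨_, he.1 i⟩, fun i => ⟨_, he.2 i⟩)
      have h2 : fs (Sum.elim (fun i => e (.inl i)) fun i => e (.inr i)) = e := by
        ext i
        rcases i with i | i <;> rfl
      simp only [Matrix.mulVec, dotProduct, Matrix.of_apply, Fintype.sum_prod_type, h2,
        Pi.zero_apply] at h1
      simpa only [mul_comm] using h1
    · refine Finset.sum_eq_zero fun i _ => Finset.sum_eq_zero fun b _ => ?_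
      rw [coeff_monomial_mul']
      split_ifs with hle
      · rw [one_mul]
        refine mul_eq_zero_of_right _ (by_contra fun hne => he ?_)
        have h1 := fun j => (monomial_le_degreeOf j (mem_support_iff.2 hne)).trans
          ((degreeOf_le_totalDegree _ j).trans (hW i k).1)
        refine ⟨fun j => ?_, fun j => ?_⟩
        · have h2 : e (.inl j) - 0 ≤ Γ := h1 (.inl j)
          omega
        · have h2 : e (.inr j) - b j ≤ Γ := h1 (.inr j)
          have h3 := (b j).2
          omega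
      · exact mul_zero _
  · refine (bd_sum (d := Fintype.card σ * ρ) (h := U * H) Finset.univ fun b _ =>
      (bd_monomial _ _).mono ?_ (hcard ▸ hb _)).mono le_rfl ?_
    · rw [Finsupp.sum_fintype _ _ fun _ => rfl]
      exact (Finset.sum_le_card_nsmul _ _ ρ fun s _ => Nat.lt_succ_iff.1 (b s).2).trans (by simp)
    · rw [mul_assoc]
      refine Nat.mul_le_mul_right _ ?_
      rw [hU, Finset.card_univ, Fintype.card_pi]
      simp only [Fintype.card_fin, Finset.prod_const, Finset.card_univ]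
      exact Nat.le_mul_of_pos_left _ h0

end Pool.Agent.Lib.MP_8b1d3b_lc.NG
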