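import Pool.Agent.Lib.MP_8b1d3b_lc.NG.SliceA

/-! Small nonempty slices. -/

open MvPolynomial
open scoped Classical

namespace Pool.Agent.Lib.MP_8b1d3b_lc.NG

variable {F : Type} [Field F] [Fintype F] {m : ℕ}

theorem slice_one (Z : Finset (Fin m → F)) {e : ℕ} (he : e ≤ m) :
    ∑ y : (Fin m × Fin m) ⊕ Fin m → F, ((Z.filter (Lin e y)).card : ℝ) =
      Z.card / (Fintype.card F : ℝ) ^ e * (Fintype.card F : ℝ) ^ (m * m + m) := by
  have hq : (0 : ℝ) < Fintype.card F := by exact_mod_cast Fintype.card_pos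
  have h1 : ∀ P : Fin m → F, ∑ y : (Fin m × Fin m) ⊕ Fin m → F,
      (if Lin e y P then (1 : ℝ) else 0) =
      (Fintype.card F : ℝ) ^ (m * m + m) / (Fintype.card F : ℝ) ^ e := fun P => by
    rw [Finset.sum_boole, eq_div_iff (by positivity)]
    exact_mod_cast (lin_card he P P).1
  simp only [← Finset.sum_boole]
  rw [Finset.sum_comm, Finset.sum_congr rfl fun P _ => h1 P, Finset.sum_const, nsmul_eq_mul]
  ring

theorem slice_two (Z : Finset (Fin m → F)) {e : ℕ} (he : e ≤ m) :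
    ∑ y : (Fin m × Fin m) ⊕ Fin m → F, ((Z.filter (Lin e y)).card : ℝ) ^ 2 ≤
      Z.card / (Fintype.card F : ℝ) ^ e * (Fintype.card F : ℝ) ^ (m * m + m) *
        (1 + Z.card / (Fintype.card F : ℝ) ^ e) := by
  have hq : (0 : ℝ) < Fintype.card F := by exact_mod_cast Fintype.card_pos
  have h1 : ∀ P x : Fin m → F, ∑ y : (Fin m × Fin m) ⊕ Fin m → F,
      (if Lin e y P ∧ Lin e y x then (1 : ℝ) else 0) ≤
      (if P = x then (Fintype.card F : ℝ) ^ (m * m + m) / (Fintype.card F : ℝ) ^ e else 0) +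
        (Fintype.card F : ℝ) ^ (m * m + m) / (Fintype.card F : ℝ) ^ (2 * e) := fun P x => by
    rw [Finset.sum_boole]
    by_cases h : P = x
    · subst h
      simp only [and_self, if_true]
      refine le_add_of_le_of_nonneg (le_of_eq ?_) (by positivity)
      rw [eq_div_iff (by positivity)]
      exact_mod_cast (lin_card he P P).1
    · rw [if_neg h, zero_add]
      refine le_of_eq ?_
      rw [eq_div_iff (by positivity)]
      exact_mod_cast (lin_card he P x).2 (Ne.symm h)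
  have h2 : ∀ y : (Fin m × Fin m) ⊕ Fin m → F, ((Z.filter (Lin e y)).card : ℝ) ^ 2 =
      ∑ P ∈ Z, ∑ x ∈ Z, if Lin e y P ∧ Lin e y x then (1 : ℝ) else 0 := fun y => by
    rw [← Finset.sum_boole, sq, Finset.sum_mul_sum]
    simp only [ite_and, mul_ite, mul_one, mul_zero]
    refine Finset.sum_congr rfl fun P _ => Finset.sum_congr rfl fun x _ => ?_
    split_ifs <;> rfl
  rw [Finset.sum_congr rfl fun y _ => h2 y, Finset.sum_comm]
  have h3 : ∀ P ∈ Z, ∑ y : (Fin m × Fin m) ⊕ Fin m → F, ∑ x ∈ Z,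
      (if Lin e y P ∧ Lin e y x then (1 : ℝ) else 0) ≤
      (Fintype.card F : ℝ) ^ (m * m + m) / (Fintype.card F : ℝ) ^ e +
        Z.card * ((Fintype.card F : ℝ) ^ (m * m + m) / (Fintype.card F : ℝ) ^ (2 * e)) := by
    intro P hP
    rw [Finset.sum_comm]
    refine (Finset.sum_le_sum fun x _ => h1 P x).trans (le_of_eq ?_)
    rw [Finset.sum_add_distrib, Finset.sum_ite_eq, if_pos hP, Finset.sum_const, nsmul_eq_mul]
  refine (Finset.sum_le_sum h3).trans (le_of_eq ?_)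
  rw [Finset.sum_const, nsmul_eq_mul]
  field_simp
  ring

/-- Paper S. Take `e` least with `card Z ≤ q ^ e * w`, `μ = card Z / q ^ e`, so `w / q ≤ μ ≤ w`.
For `P ∈ Z` at least half of the `y` with `Lin e y P` have a slice of size `≤ 2 (1 + μ)` (Markov,
`lin_card`). Count the pairs `(P, y)`: the good `y` are a fraction
`≥ μ / (4 (1 + μ)) ≥ w / (8 q)`. -/
theorem slice_lin (Z : Finset (Fin m → F)) (hZ : Z.Nonempty) {w : ℕ} (h1 : 1 ≤ w)
    (h2 : w ≤ Fintype.card F) : ∃ e ≤ m, w * Fintype.card F ^ (m * m + m) ≤ 8 * Fintype.card F *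
      (Finset.univ.filter fun y : (Fin m × Fin m) ⊕ Fin m → F => (∃ P ∈ Z, Lin e y P) ∧
        (Z.filter (Lin e y)).card ≤ 2 * (1 + w)).card := by
  obtain ⟨q, hq⟩ : ∃ q, q = Fintype.card F := ⟨_, rfl⟩
  have hn : 1 ≤ Z.card := hZ.card_pos
  have hm : Z.card ≤ q ^ m * w := by
    have h3 := Finset.card_le_univ Z
    rw [Fintype.card_fun, Fintype.card_fin, ← hq] at h3
    exact h3.trans (Nat.le_mul_of_pos_right _ h1)
  have hex : ∃ e, Z.card ≤ q ^ e * w := ⟨m, hm⟩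
  obtain ⟨e, he, hu, hl⟩ : ∃ e ≤ m, Z.card ≤ q ^ e * w ∧ q ^ e * w ≤ Z.card * q := by
    refine ⟨Nat.find hex, Nat.find_min' hex hm, Nat.find_spec hex, ?_⟩
    rcases h : Nat.find hex with _ | k
    · rw [pow_zero, one_mul, hq]
      exact h2.trans (Nat.le_mul_of_pos_left _ hn)
    · have h3 := not_le.1 (Nat.find_min hex (m := k) (by omega))
      rw [pow_succ, mul_right_comm]
      exact Nat.mul_le_mul_right _ h3.le
  refine ⟨e, he, ?_⟩
  have e1 := slice_one Z he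
  have e2 := slice_two Z he
  rw [← hq] at e1 e2 h2 ⊢
  have hq0 : (0 : ℝ) < q := by exact_mod_cast (h1.trans h2 : 1 ≤ q)
  have hQ : (0 : ℝ) < (q : ℝ) ^ e := by positivity
  obtain ⟨μ, hμ⟩ : ∃ μ : ℝ, μ = Z.card / (q : ℝ) ^ e := ⟨_, rfl⟩
  rw [← hμ] at e1 e2
  have hμ0 : 0 ≤ μ := by rw [hμ]; positivity
  have hμ1 : μ ≤ w := by
    rw [hμ, div_le_iff₀' hQ]
    exact_mod_cast hu
  have hμ2 : (w : ℝ) ≤ μ * q := by
    rw [hμ, div_mul_eq_mul_div, le_div_iff₀' hQ]
    exact_mod_cast hl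
  have hw : (w : ℝ) ≤ q := by exact_mod_cast h2
  have hT : 0 < 2 * (1 + μ) := by positivity
  have key : ∀ y : (Fin m × Fin m) ⊕ Fin m → F,
      2 * (1 + μ) * ((Z.filter (Lin e y)).card : ℝ) ≤
      (2 * (1 + μ)) ^ 2 * (if (∃ P ∈ Z, Lin e y P) ∧ (Z.filter (Lin e y)).card ≤ 2 * (1 + w)
        then (1 : ℝ) else 0) + ((Z.filter (Lin e y)).card : ℝ) ^ 2 := by
    intro y
    have hs : (0 : ℝ) ≤ (Z.filter (Lin e y)).card := Nat.cast_nonneg _
    split_ifs with h
    · nlinarith [sq_nonneg (2 * (1 + μ) - ((Z.filter (Lin e y)).card : ℝ)), mul_nonneg hT.le hs]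
    · rw [mul_zero, zero_add]
      rcases not_and_or.1 h with h | h
      · rw [Finset.filter_eq_empty_iff.2 fun P hP hL => h ⟨P, hP, hL⟩]
        simp
      · have h3 : 2 * (1 + (w : ℝ)) ≤ (Z.filter (Lin e y)).card := by
          exact_mod_cast (not_le.1 h).le
        rw [sq]
        exact mul_le_mul_of_nonneg_right (by linarith) hs
  have e3 := Finset.sum_le_sum fun y (_ : y ∈ Finset.univ) => key y
  rw [Finset.sum_add_distrib, ← Finset.mul_sum, ← Finset.mul_sum, e1, Finset.sum_boole] at e3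
  generalize (Finset.univ.filter fun y : (Fin m × Fin m) ⊕ Fin m → F => (∃ P ∈ Z, Lin e y P) ∧
    (Z.filter (Lin e y)).card ≤ 2 * (1 + w)).card = G at e3 ⊢
  have hN : (0 : ℝ) < (q : ℝ) ^ (m * m + m) := by positivity
  have e4 : μ * (q : ℝ) ^ (m * m + m) ≤ 4 * (1 + μ) * G := by
    refine le_of_mul_le_mul_left ?_ (show 0 < 1 + μ by positivity)
    nlinarith
  have e5 : (w : ℝ) * (1 + μ) ≤ 2 * (μ * q) := by nlinarith
  have e6 : (w : ℝ) * (q : ℝ) ^ (m * m + m) ≤ 8 * q * G := by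
    refine le_of_mul_le_mul_left ?_ (show 0 < 1 + μ by positivity)
    calc (1 + μ) * ((w : ℝ) * (q : ℝ) ^ (m * m + m))
        = (w : ℝ) * (1 + μ) * (q : ℝ) ^ (m * m + m) := by ring
      _ ≤ 2 * (μ * q) * (q : ℝ) ^ (m * m + m) := mul_le_mul_of_nonneg_right e5 hN.le
      _ = 2 * q * (μ * (q : ℝ) ^ (m * m + m)) := by ring
      _ ≤ 2 * q * (4 * (1 + μ) * G) := mul_le_mul_of_nonneg_left e4 (by positivity)
      _ = _ := by ring
  exact_mod_cast e6

end Pool.Agent.Lib.MP_8b1d3b_lc.NG
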