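import Pool.Agent.Lib.MP_8b1d3b_lc.NG.SZ

/-! Counting linear conditions. -/

open MvPolynomial
open scoped Classical

namespace Pool.Agent.Lib.MP_8b1d3b_lc.NG

variable {F : Type} [Field F] [Fintype F] {m : ℕ}

theorem slicea_card {α β : Type} [Fintype α] [Fintype β] (φ : (α → F) →ₗ[F] β → F)
    (hφ : Function.Surjective φ) (s : Finset (α → F)) (hs : ∀ y, y ∈ s ↔ φ y = 0) :
    s.card * Fintype.card F ^ Fintype.card β = Fintype.card F ^ Fintype.card α := by
  have h1 := φ.finrank_range_add_finrank_ker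
  rw [LinearMap.range_eq_top.2 hφ, finrank_top, Module.finrank_fintype_fun_eq_card,
    Module.finrank_fintype_fun_eq_card] at h1
  have h2 : s.card = Fintype.card (LinearMap.ker φ) :=
    (Fintype.card_of_subtype s fun y => (hs y).trans LinearMap.mem_ker.symm).symm
  rw [h2, Module.card_eq_pow_finrank (K := F), ← pow_add, add_comm, h1]

/-- The linear forms that define `Lin`. -/
noncomputable def slicea_L {e : ℕ} (he : e ≤ m) (x : Fin m → F) (i : Fin e) :
    ((Fin m × Fin m) ⊕ Fin m → F) →ₗ[F] F :=
  ∑ k, x k • LinearMap.proj (Sum.inl (Fin.castLE he i, k)) -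
    LinearMap.proj (Sum.inr (Fin.castLE he i))

omit [Fintype F] in
theorem slicea_apply {e : ℕ} (he : e ≤ m) (x : Fin m → F) (i : Fin e)
    (y : (Fin m × Fin m) ⊕ Fin m → F) : slicea_L he x i y =
      ∑ k, y (.inl (Fin.castLE he i, k)) * x k - y (.inr (Fin.castLE he i)) := by
  simp [slicea_L, LinearMap.sum_apply, mul_comm]

omit [Fintype F] in
theorem slicea_iff {e : ℕ} (he : e ≤ m) (x : Fin m → F) (y : (Fin m × Fin m) ⊕ Fin m → F) :
    Lin e y x ↔ ∀ i, slicea_L he x i y = 0 := by
  simp only [slicea_apply, sub_eq_zero]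
  exact ⟨fun h i => h _ i.2, fun h i hi => h ⟨i, hi⟩⟩

/-- For `x ≠ P` the `y` with `Lin e y P` and `Lin e y x` are a fraction `q ^ (-e)` of those with
`Lin e y P`, and these are a fraction `q ^ (-e)` of all `y`. -/
theorem lin_card {e : ℕ} (he : e ≤ m) (P x : Fin m → F) :
    (Finset.univ.filter fun y => Lin e y P).card * Fintype.card F ^ e =
      Fintype.card F ^ (m * m + m) ∧ (x ≠ P →
    (Finset.univ.filter fun y => Lin e y P ∧ Lin e y x).card * Fintype.card F ^ (2 * e) =
      Fintype.card F ^ (m * m + m)) := by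
  refine ⟨?_, fun hx => ?_⟩
  · have h := slicea_card (LinearMap.pi (slicea_L he P)) (fun t =>
      ⟨Sum.elim 0 fun i => if h : (i : ℕ) < e then -t ⟨i, h⟩ else 0, funext fun i => by
        simp [slicea_apply]⟩) (Finset.univ.filter fun y => Lin e y P) fun y => by
      simp [slicea_iff he, funext_iff]
    simpa using h
  · obtain ⟨k0, hk⟩ := Function.ne_iff.1 hx
    have hk' : x k0 - P k0 ≠ 0 := sub_ne_zero.2 hk
    have h := slicea_card (LinearMap.pi (Sum.elim (slicea_L he P) (slicea_L he x))) (fun t => by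
      let a : Fin m → F := fun i =>
        if h : (i : ℕ) < e then (t (.inr ⟨i, h⟩) - t (.inl ⟨i, h⟩)) / (x k0 - P k0) else 0
      let b : Fin m → F := fun i => if h : (i : ℕ) < e then t (.inl ⟨i, h⟩) else 0
      refine ⟨Sum.elim (fun j => if j.2 = k0 then a j.1 else 0) fun i => a i * P k0 - b i,
        funext fun i => ?_⟩
      rcases i with i | i
      · simp [slicea_apply, b]
      · simp only [LinearMap.pi_apply, Sum.elim_inr, slicea_apply, Sum.elim_inl, ite_mul, zero_mul,
          Finset.sum_ite_eq', Finset.mem_univ, if_true, a, b, Fin.val_castLE, i.2, dif_pos,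
          Fin.eta]
        field_simp
        ring) (Finset.univ.filter fun y => Lin e y P ∧ Lin e y x) fun y => by
      simp [slicea_iff he, funext_iff]
    simpa [two_mul] using h

end Pool.Agent.Lib.MP_8b1d3b_lc.NG
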