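import Pool.Agent.Lib.MP_8b1d3b_lc.NG.GDef
import Pool.Agent.Lib.MP_8b1d3b_lc.NG.CopA

/-! Absolutely irreducible factors. -/

open Polynomial NumberField

namespace Pool.Agent.Lib.MP_8b1d3b_lc.NG

/-- The algebraic closure of the rationals is Galois. -/
theorem split_gal : IsGalois ℚ (AlgebraicClosure ℚ) :=
  @IsAlgClosure.isGalois ℚ (AlgebraicClosure ℚ) _ _ (AlgebraicClosure.instAlgebra ℚ) _ _

/-- An automorphism of `L` extends along an embedding into the algebraic closure. -/
theorem split_lift {L : Type} [Field L] [NumberField L] (j : L →+* AlgebraicClosure ℚ)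
    (φ : L ≃ₐ[ℚ] L) :
    ∃ τ : AlgebraicClosure ℚ ≃+* AlgebraicClosure ℚ, ∀ x, τ (j x) = j (φ x) := by
  let : Algebra L (AlgebraicClosure ℚ) := j.toAlgebra
  have : IsScalarTower ℚ L (AlgebraicClosure ℚ) :=
    IsScalarTower.of_algebraMap_eq' (RingHom.ext_rat _ _)
  have := split_gal
  exact ⟨(φ.liftNormal (AlgebraicClosure ℚ)).toRingEquiv,
    fun x => φ.liftNormal_commutes (AlgebraicClosure ℚ) x⟩

/-- A finite set of algebraic numbers lies in a finite Galois extension. -/
theorem split_field (T : Set (AlgebraicClosure ℚ)) (hT : T.Finite) :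
    ∃ (L : Type) (_ : Field L) (_ : NumberField L) (_ : IsGalois ℚ L)
      (j : L →+* AlgebraicClosure ℚ), T ⊆ Set.range j := by
  have : Finite T := hT.to_subtype
  have := split_gal
  let E := FiniteGaloisIntermediateField.adjoin ℚ T
  have hE : T ⊆ E.toIntermediateField := FiniteGaloisIntermediateField.subset_adjoin ℚ T
  have hN : NumberField E.toIntermediateField := {}
  refine ⟨E.toIntermediateField, inferInstance, hN, E.isGalois,
    (E.toIntermediateField.val : E.toIntermediateField →+* AlgebraicClosure ℚ), fun x hx => ?_⟩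
  exact ⟨⟨x, hE hx⟩, rfl⟩

/-- The coefficients of a monic factor are algebraic integers. -/
theorem split_int {σ : Type} {f : (MvPolynomial σ ℤ)[X]} (hm : f.Monic)
    {Φ : (MvPolynomial σ (AlgebraicClosure ℚ))[X]} (hΦ : Φ.Monic)
    (hd : Φ ∣ f.map (MvPolynomial.map (Int.castRingHom (AlgebraicClosure ℚ)))) (i : ℕ)
    (n : σ →₀ ℕ) : IsIntegral ℤ ((Φ.coeff i).coeff n) := by
  let : Algebra (MvPolynomial σ ℤ) (MvPolynomial σ (AlgebraicClosure ℚ)) :=
    MvPolynomial.algebraMvPolynomial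
  exact MvPolynomial.isIntegral_iff_isIntegral_coeff.mp
    (Polynomial.isIntegral_coeff_of_dvd f Φ hm hΦ hd i) n

/-- A monic polynomial with coefficients in the image lifts to a monic polynomial. -/
theorem split_desc {σ A B : Type} [CommRing A] [CommRing B] (ι : A →+* B)
    {Φ : (MvPolynomial σ B)[X]} (hΦ : Φ.Monic)
    (h : ∀ i n, (Φ.coeff i).coeff n ∈ Set.range ι) :
    ∃ Ψ : (MvPolynomial σ A)[X], Ψ.Monic ∧ Ψ.map (MvPolynomial.map ι) = Φ := by
  have hl : Φ ∈ lifts (MvPolynomial.map ι : MvPolynomial σ A →+* MvPolynomial σ B) := by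
    rw [lifts_iff_coeff_lifts]
    intro i
    rw [MvPolynomial.mem_range_map_iff_coeffs_subset]
    intro c hc
    obtain ⟨n, -, rfl⟩ := MvPolynomial.mem_coeffs_iff.mp (Finset.mem_coe.mp hc)
    exact h i n
  obtain ⟨Ψ, h1, -, h2⟩ := lifts_and_natDegree_eq_and_monic hl hΦ
  exact ⟨Ψ, h2, h1⟩

/-- The set of all coefficients of finitely many polynomials is finite. -/
theorem split_fin {σ B : Type} [CommRing B] {κ : ℕ} (Φ : Fin κ → (MvPolynomial σ B)[X]) :
    {c : B | ∃ k i n, ((Φ k).coeff i).coeff n = c}.Finite := by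
  classical
  refine Set.Finite.subset (Finset.finite_toSet (insert 0 (Finset.univ.biUnion fun k =>
    (Φ k).support.biUnion fun i => ((Φ k).coeff i).coeffs))) ?_
  rintro c ⟨k, i, n, rfl⟩
  by_cases h0 : ((Φ k).coeff i).coeff n = 0
  · simp [h0]
  · refine Finset.mem_coe.mpr (Finset.mem_insert_of_mem (Finset.mem_biUnion.mpr
      ⟨k, Finset.mem_univ _, Finset.mem_biUnion.mpr ⟨i, ?_, MvPolynomial.coeff_mem_coeffs n h0⟩⟩))
    rw [mem_support_iff]
    intro h
    exact h0 (by rw [h, MvPolynomial.coeff_zero])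

/-- An automorphism that fixes the product permutes the monic irreducible factors. -/
theorem split_perm {R : Type} [CommRing R] [IsDomain R] [UniqueFactorizationMonoid R] {κ : ℕ}
    (Φ : Fin κ → R[X]) (hΦ : ∀ k, (Φ k).Monic ∧ Irreducible (Φ k)) (e : R ≃+* R)
    (he : (∏ k, Φ k).map (e : R →+* R) = ∏ k, Φ k) (k : Fin κ) :
    ∃ k', (Φ k).map (e : R →+* R) = Φ k' := by
  have hi : Irreducible ((Φ k).map (e : R →+* R)) :=
    (MulEquiv.irreducible_iff (mapEquiv e)).mpr (hΦ k).2
  have hd : (Φ k).map (e : R →+* R) ∣ ∏ k, Φ k := by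
    rw [← he]
    exact Polynomial.map_dvd _ (Finset.dvd_prod_of_mem _ (Finset.mem_univ k))
  obtain ⟨k', -, hk'⟩ := (hi.prime.dvd_finsetProd_iff _).mp hd
  exact ⟨k', eq_of_monic_of_associated ((hΦ k).1.map _) (hΦ k').1
    (hi.associated_of_dvd (hΦ k').2 hk')⟩

/-- Factor over `Ω` (`monic_factors`). The coefficients of the
monic factors are integral over `MvPolynomial σ ℤ` (`isIntegral_coeff_of_dvd`), so their
coefficients are algebraic integers (`MvPolynomial.isIntegral_iff_isIntegral_coeff`); `L` is a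
finite Galois subextension containing them. An automorphism of `L` lifts to `Ω`
(`AlgEquiv.liftNormal`) and permutes the monic prime factors. -/
theorem split {σ : Type} {f : (MvPolynomial σ ℤ)[X]} (hm : f.Monic) :
    ∃ (L : Type) (_ : Field L) (_ : NumberField L) (_ : IsGalois ℚ L)
      (ι : 𝓞 L →+* AlgebraicClosure ℚ) (κ : ℕ) (Ψ : Fin κ → (MvPolynomial σ (𝓞 L))[X]),
      (∀ k, (Ψ k).Monic ∧ Irreducible ((Ψ k).map (MvPolynomial.map ι))) ∧
      ∏ k, Ψ k = f.map (MvPolynomial.map (Int.castRingHom (𝓞 L))) ∧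
      ∀ (φ : L ≃ₐ[ℚ] L) (k : Fin κ), ∃ k', (Ψ k).map (MvPolynomial.map (act φ)) = Ψ k' := by
  classical
  obtain ⟨s, hs, hp⟩ := monic_factors
    (hm.map (MvPolynomial.map (Int.castRingHom (AlgebraicClosure ℚ))))
  let Φ : Fin s.toList.length → (MvPolynomial σ (AlgebraicClosure ℚ))[X] := s.toList.get
  have hΦ : ∀ k, (Φ k).Monic ∧ Irreducible (Φ k) := fun k =>
    hs _ (Multiset.mem_toList.mp (List.get_mem _ k))
  have hprod : ∏ k, Φ k = f.map (MvPolynomial.map (Int.castRingHom (AlgebraicClosure ℚ))) := by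
    rw [← hp, ← Multiset.prod_toList, ← List.prod_ofFn, List.ofFn_get]
  obtain ⟨L, iF, iN, iG, j, hj⟩ := split_field _ (split_fin Φ)
  let ι : 𝓞 L →+* AlgebraicClosure ℚ := j.comp (algebraMap (𝓞 L) L)
  have hι : Function.Injective ι := j.injective.comp RingOfIntegers.coe_injective
  have hinj : Function.Injective (Polynomial.map
      (MvPolynomial.map ι : MvPolynomial σ (𝓞 L) →+* MvPolynomial σ (AlgebraicClosure ℚ))) :=
    map_injective _ (MvPolynomial.map_injective ι hι)
  have hex : ∀ k, ∃ Ψ : (MvPolynomial σ (𝓞 L))[X], Ψ.Monic ∧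
      Ψ.map (MvPolynomial.map ι) = Φ k := by
    intro k
    refine split_desc ι (hΦ k).1 fun i n => ?_
    obtain ⟨x, hx⟩ := hj ⟨k, i, n, rfl⟩
    have hi := split_int hm (hΦ k).1
      (hprod ▸ Finset.dvd_prod_of_mem _ (Finset.mem_univ k)) i n
    rw [← hx] at hi
    have hx' : IsIntegral ℤ x := (isIntegral_algHom_iff j.toIntAlgHom j.injective).mp hi
    exact ⟨⟨x, hx'⟩, hx⟩
  choose Ψ hΨm hΨ using hex
  refine ⟨L, iF, iN, iG, ι, _, Ψ, fun k => ⟨hΨm k, (hΨ k).symm ▸ (hΦ k).2⟩, ?_, ?_⟩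
  · apply hinj
    rw [Polynomial.map_prod, Finset.prod_congr rfl fun k _ => hΨ k, hprod, Polynomial.map_map]
    congr 1
    refine RingHom.ext fun p => ?_
    rw [RingHom.comp_apply, MvPolynomial.map_map, RingHom.ext_int (ι.comp _) (Int.castRingHom _)]
  · intro φ k
    obtain ⟨τ, hτ⟩ := split_lift j φ
    have hc : ∀ {A : Type} [CommRing A] (g : A →+* AlgebraicClosure ℚ),
        ((MvPolynomial.mapEquiv σ τ : MvPolynomial σ (AlgebraicClosure ℚ) ≃+* _) :
          MvPolynomial σ (AlgebraicClosure ℚ) →+* MvPolynomial σ (AlgebraicClosure ℚ)).comp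
          (MvPolynomial.map g) = MvPolynomial.map ((τ : _ →+* _).comp g) := by
      intro A _ g
      refine RingHom.ext fun p => ?_
      rw [← MvPolynomial.map_map]
      rfl
    obtain ⟨k', hk'⟩ := split_perm Φ hΦ (MvPolynomial.mapEquiv σ τ) (by
      rw [hprod, Polynomial.map_map, hc]
      congr 2
      exact RingHom.ext_int _ _) k
    refine ⟨k', hinj ?_⟩
    rw [hΨ, ← hk', ← hΨ, Polynomial.map_map, Polynomial.map_map, hc]
    congr 1
    refine RingHom.ext fun p => ?_
    rw [RingHom.comp_apply, MvPolynomial.map_map]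
    congr 2
    refine RingHom.ext fun x => ?_
    exact (hτ (x : L)).symm

end Pool.Agent.Lib.MP_8b1d3b_lc.NG
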