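import Pool.Agent.Lib.MP_8b1d3b_lc.NG.Siegel
import Pool.Agent.Lib.MP_8b1d3b_lc.NG.Annih
import Pool.Agent.Lib.MP_8b1d3b_lc.NG.SZ
import Pool.Agent.Lib.MP_8b1d3b_lc.NG.NumA

/-! Few points are roots of one small polynomial. -/

open MvPolynomial
open scoped Polynomial

namespace Pool.Agent.Lib.MP_8b1d3b_lc.NG

theorem stagea_inr {τ σ A : Type} [CommRing A] (z : σ → A) (f : MvPolynomial σ ℤ) :
    sp (τ := τ) z (rename Sum.inr f) = C (ev z f) :=
  RingHom.congr_fun (hom_ext (f := (sp (τ := τ) z).comp (rename Sum.inr).toRingHom)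
    (g := C.comp (ev z)) fun i => by simp) f

theorem stagea_inl {τ σ A : Type} [CommRing A] (z : σ → A) (f : MvPolynomial τ ℤ) :
    sp z (rename Sum.inl f) = map (Int.castRingHom A) f :=
  RingHom.congr_fun (hom_ext (f := (sp z).comp (rename Sum.inl).toRingHom)
    (g := map (Int.castRingHom A)) fun i => by simp) f

theorem stagea_sum {τ : Type} [Fintype τ] {k : ℕ} (b : τ → Fin (k + 1)) :
    ∑ i, fs (fun i => (b i : ℕ)) i ≤ Fintype.card τ * k :=
  Finset.sum_le_card_nsmul _ _ _ fun i _ => Nat.lt_succ_iff.1 (b i).2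

/-- Paper A. `num_a` with `m = card τ`, `n = card σ`, `r = card J`. Unknowns
`ι = Fin (T + 1) × (τ → Fin (T + 1))`, equations `κ = Finset J × (τ → Fin R)`,
`W (i, a) (I, b)` from `w_ex (m * T)` with `w = l ^ i * monomial b` (variables `inl`) and
`g = ∏ j ∈ I, g j`; `siegel_poly`. Take `a₁` with maximal sum among the `a` with some
`c (i, a) ≠ 0`, `Δ = ∑ i, monomial i (c (i, a₁))`. Apply `sp z` to the relation, multiply by
`g ^ (q - 1 - m * T)` (`hasse_pow`), `annih` with `ψ` from `jet`. -/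
theorem stageA : ∃ c : ℕ, ∀ (N : ℕ) (τ σ J : Type) [Fintype τ] [Fintype σ] [Fintype J], 2 ≤ N →
    Fintype.card τ ≤ N → Fintype.card σ ≤ N → Fintype.card J ≤ N →
    ∀ (g : J → MvPolynomial (τ ⊕ σ) ℤ) (l : MvPolynomial (τ ⊕ σ) ℤ),
      (∀ j, Bd (g j) (2 ^ N) (2 ^ 2 ^ N)) → Bd l (2 ^ N) (2 ^ 2 ^ N) →
      ∃ Δ : (MvPolynomial σ ℤ)[X], Δ ≠ 0 ∧ PBd Δ (2 ^ N ^ c) (2 ^ 2 ^ N ^ c) ∧ ∃ κ : ℕ,
        ∀ (q : ℕ) [Fact q.Prime] (z : σ → ZMod q) (Z : Set (τ → ZMod q)),
          (∀ x, x ∈ Z ↔ ∀ j, ev (Sum.elim x z) (g j) = 0) → κ * (Z.ncard + 1) ≤ q →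
          ∀ P ∈ Z, Δ.eval₂ (ev z) (ev (Sum.elim P z) l) = 0 := by
  classical
  obtain ⟨c0, hc0⟩ := num_a
  refine ⟨c0, fun N τ σ J _ _ _ hN hτ hσ hJ g l hg hl => ?_⟩
  obtain ⟨T, R, Γ, ρ, U, hR, hΓ, hρ, hU, n1, n2, n3, n4⟩ := hc0 N _ _ _ _ _ hN hτ hσ hJ rfl rfl
  have hH : 1 ≤ 2 ^ 2 ^ N := Nat.one_le_two_pow
  generalize 2 ^ 2 ^ N = H at hg hl n4 hH
  generalize 2 ^ N = D at hg hl hR hΓ n4
  have hw : ∀ (i : Fin (T + 1)) (b : τ → Fin R),
      Bd (l ^ (i : ℕ) * rename Sum.inl (monomial (fs fun t => (b t : ℕ)) (1 : ℤ)))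
        (T * D + Fintype.card τ * R) (H ^ T) := fun i b => by
    have hi : (i : ℕ) ≤ T := Nat.lt_succ_iff.1 i.2
    refine ((hl.pow i).mul ((bd_monomial _ _).rename _)).mono
      (add_le_add (Nat.mul_le_mul_right _ hi) ?_) ?_
    · rw [Finsupp.sum_fintype _ _ fun _ => rfl]
      exact Finset.sum_le_card_nsmul _ _ _ fun t _ => (b t).2.le
    · simpa using Nat.pow_le_pow_right hH hi
  have hG : ∀ I : Finset J, Bd (∏ j ∈ I, g j) (Fintype.card J * D) (H ^ Fintype.card J) :=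
    fun I => (bd_prod I fun j _ => hg j).mono (Nat.mul_le_mul_right _ I.card_le_univ)
      (Nat.pow_le_pow_right hH I.card_le_univ)
  choose W hW hW' using fun (i : Fin (T + 1)) (b : τ → Fin R) (I : Finset J) =>
    w_ex (Fintype.card τ * T) (hw i b) (hG I)
  obtain ⟨c, hc, hrel, hcb⟩ := siegel_poly (ι := Fin (T + 1) × (τ → Fin (T + 1)))
    (κ := Finset J × (τ → Fin R)) (fun u k => W u.1 k.2 k.1 (fs fun t => u.2 t)) (Γ := Γ) (U := U)
    (fun u k => hΓ ▸ hW _ _ _ _) (Nat.succ_le_of_lt (by positivity)) (by simp)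
    (by simpa using n1) hρ (by simpa using hU)
  obtain ⟨⟨i₁, a₁⟩, hu₁, hmax⟩ := Finset.exists_max_image (Finset.univ.filter fun u => c u ≠ 0)
    (fun u => ∑ t, fs (fun t => (u.2 t : ℕ)) t) (by
      obtain ⟨u, hu⟩ := Function.ne_iff.1 hc
      exact ⟨u, Finset.mem_filter.2 ⟨Finset.mem_univ _, hu⟩⟩)
  have co : ∀ i : Fin (T + 1), (∑ i : Fin (T + 1),
      Polynomial.monomial (i : ℕ) (c (i, a₁))).coeff i = c (i, a₁) := fun i => by
    simp [Polynomial.coeff_monomial, Fin.val_inj]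
  have hdeg : (∑ i : Fin (T + 1), Polynomial.monomial (i : ℕ) (c (i, a₁))).natDegree ≤ T :=
    Polynomial.natDegree_sum_le_of_forall_le _ _ fun i _ =>
      (Polynomial.natDegree_monomial_le _).trans (Nat.lt_succ_iff.1 i.2)
  refine ⟨∑ i : Fin (T + 1), Polynomial.monomial (i : ℕ) (c (i, a₁)), fun e => ?_,
    ⟨hdeg.trans n2, fun k => ?_⟩, Fintype.card τ * T + T * D + T + 1,
    fun q _ z Z hZ hq P hP => ?_⟩
  · have h1 := co i₁
    rw [e, Polynomial.coeff_zero] at h1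
    exact (Finset.mem_filter.1 hu₁).2 h1.symm
  · by_cases hk : k < T + 1
    · rw [co ⟨k, hk⟩]
      exact (hcb _).mono n3 n4
    · rw [Polynomial.coeff_eq_zero_of_natDegree_lt (by omega)]
      exact bd_zero _ _
  rw [Set.ncard_eq_toFinset_card Z, mul_add, mul_one] at hq
  obtain ⟨ψ, p1, p2, p3, p4⟩ := jet (Set.toFinite Z).toFinset P _ (stagea_sum a₁)
  have h1 := annih q (fun j => sp z (g j))
    (fun u : Fin (T + 1) × (τ → Fin (T + 1)) => sp z l ^ (u.1 : ℕ))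
    (fun u => fs fun t => u.2 t) (fun u => ev z (c u)) (R := R) (D := D) (n := T * D)
    (fun u t => by have := (u.2 t).2; rw [fs_apply]; omega)
    (fun j => (sp_degree z _).trans (hg j).1)
    (fun u => (totalDegree_pow _ _).trans
      (Nat.mul_le_mul (Nat.lt_succ_iff.1 u.1.2) ((sp_degree z _).trans hl.1)))
    (fun I b => by
      have h2 := congrArg (fun f => sp z f * (∏ j ∈ I, sp z (g j)) ^ (q - 1 - Fintype.card τ * T))
        (hrel (I, b))
      simp only [map_sum, map_mul, map_zero, zero_mul, Finset.sum_mul, stagea_inr, hW', map_pow,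
        stagea_inl, map_monomial, map_one, map_prod] at h2
      rw [← h2]
      refine Finset.sum_congr rfl fun u _ => ?_
      rw [hasse_pow q (T := Fintype.card τ * T) (by omega) _ _ (stagea_sum u.2), mul_assoc])
    ψ (by
      have h2 : (Fintype.card τ * T + 1) * (Set.toFinite Z).toFinset.card ≤
          (Fintype.card τ * T + T * D + T + 1) * (Set.toFinite Z).toFinset.card :=
        Nat.mul_le_mul_right _ (by omega)
      rw [hR, add_mul, one_mul]
      omega)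
    (Set.toFinite Z).toFinset (fun x => by simp only [Set.Finite.mem_toFinset, hZ, eval_sp])
  rw [Finset.sum_eq_single_of_mem P ((Set.toFinite Z).mem_toFinset.2 hP) fun x hx hxP =>
    Finset.sum_eq_zero fun u _ => by rw [p2 x hx hxP _ (stagea_sum u.2), mul_zero],
    Fintype.sum_prod_type] at h1
  rw [Polynomial.eval₂_finsetSum]
  refine mul_right_cancel₀ p4 ?_
  rw [zero_mul, ← h1, Finset.sum_mul]
  refine Finset.sum_congr rfl fun i _ => ?_
  rw [Finset.sum_eq_single_of_mem a₁ (Finset.mem_univ _) fun a _ ha => ?_,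
    Polynomial.eval₂_monomial, map_pow, eval_sp]
  by_cases h2 : c (i, a) = 0
  · rw [h2, map_zero, zero_mul, zero_mul]
  · rw [p3 _ (hmax (i, a) (Finset.mem_filter.2 ⟨Finset.mem_univ _, h2⟩)) fun e =>
      ha (funext fun t => Fin.ext (DFunLike.congr_fun e t)), mul_zero]

end Pool.Agent.Lib.MP_8b1d3b_lc.NG
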