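import Pool.Agent.Lib.MP_8b1d3b_lc.NG.Norm

/-! The shape of a program. -/

open MvPolynomial
open scoped Polynomial

namespace Pool.Agent.Lib.MP_8b1d3b_lc.NG

/-- A program without divisions. -/
def Slp {υ K : Type} [CommRing K] {m : ℕ} (g : Fin (m + 1) → MvPolynomial υ K) : Prop :=
  ∀ i, (∃ v, g i = X v) ∨ (∃ a, g i = C a) ∨
    ∃ a b, a < i ∧ b < i ∧ (g i = g a + g b ∨ g i = g a * g b)

/-- The generic permanent. -/
noncomputable abbrev per (n : ℕ) (K : Type) [CommRing K] : MvPolynomial (Fin n × Fin n) K :=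
  Matrix.permanent (Matrix.of fun i j : Fin n => (X (i, j) : MvPolynomial (Fin n × Fin n) K))

theorem univa_fix {α M : Type} [LinearOrder α] [WellFoundedLT α] [Zero M] (F : α → (α → M) → M) :
    ∃ P : α → M, ∀ i, P i = F i fun j => if j < i then P j else 0 := by
  refine ⟨(wellFounded_lt (α := α)).fix fun i r => F i fun j => if h : j < i then r j h else 0,
    fun i => ?_⟩
  rw [WellFounded.fix_eq]
  simp only [dite_eq_ite]

theorem univa_shape {υ : Type} {m : ℕ} {g : Fin (m + 1) → MvPolynomial υ ℚ} (h : Slp g) :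
    ∃ (x : Fin (m + 1) → ℚ) (P : Fin (m + 1) → MvPolynomial (υ ⊕ Fin (m + 1)) ℤ), ∀ i,
      (∃ v, g i = X v ∧ P i = X (.inl v)) ∨ (g i = C (x i) ∧ P i = X (.inr i)) ∨
        ∃ a b, a < i ∧ b < i ∧
          ((g i = g a + g b ∧ P i = P a + P b) ∨ (g i = g a * g b ∧ P i = P a * P b)) := by
  have key : ∀ i, ∃ (c : ℚ) (F : (Fin (m + 1) → MvPolynomial (υ ⊕ Fin (m + 1)) ℤ) →
      MvPolynomial (υ ⊕ Fin (m + 1)) ℤ), ∀ P : Fin (m + 1) → MvPolynomial (υ ⊕ Fin (m + 1)) ℤ,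
      (∃ v, g i = X v ∧ F (fun j => if j < i then P j else 0) = X (.inl v)) ∨
        (g i = C c ∧ F (fun j => if j < i then P j else 0) = X (.inr i)) ∨
        ∃ a b, a < i ∧ b < i ∧
          ((g i = g a + g b ∧ F (fun j => if j < i then P j else 0) = P a + P b) ∨
            (g i = g a * g b ∧ F (fun j => if j < i then P j else 0) = P a * P b)) := by
    intro i
    rcases h i with ⟨v, hv⟩ | ⟨c, hc⟩ | ⟨a, b, ha, hb, hab | hab⟩
    · exact ⟨0, fun _ => X (.inl v), fun _ => .inl ⟨v, hv, rfl⟩⟩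
    · exact ⟨c, fun _ => X (.inr i), fun _ => .inr (.inl ⟨hc, rfl⟩)⟩
    · exact ⟨0, fun Q => Q a + Q b, fun P => .inr (.inr ⟨a, b, ha, hb, .inl ⟨hab, by
        simp only [if_pos ha, if_pos hb]⟩⟩)⟩
    · exact ⟨0, fun Q => Q a * Q b, fun P => .inr (.inr ⟨a, b, ha, hb, .inr ⟨hab, by
        simp only [if_pos ha, if_pos hb]⟩⟩)⟩
  choose x F hF using key
  obtain ⟨P, hP⟩ := univa_fix F
  refine ⟨x, P, fun i => ?_⟩
  have h1 := hF i P
  rwa [← hP i] at h1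

theorem univa_bd {σ : Type} {f g : MvPolynomial σ ℤ} {a b i : ℕ} (ha : a < i) (hb : b < i)
    (hf : Bd f (2 ^ a) (2 ^ 2 ^ a)) (hg : Bd g (2 ^ b) (2 ^ 2 ^ b)) :
    Bd (f + g) (2 ^ i) (2 ^ 2 ^ i) ∧ Bd (f * g) (2 ^ i) (2 ^ 2 ^ i) := by
  obtain ⟨n, rfl⟩ : ∃ n, i = n + 1 := ⟨i - 1, by omega⟩
  have h1 : ∀ c, c < n + 1 → 2 ^ c ≤ 2 ^ n := fun c hc =>
    Nat.pow_le_pow_right two_pos (by omega)
  have hf' := hf.mono (h1 a ha) (Nat.pow_le_pow_right two_pos (h1 a ha))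
  have hg' := hg.mono (h1 b hb) (Nat.pow_le_pow_right two_pos (h1 b hb))
  have h2 : 2 ^ n + 2 ^ n = 2 ^ (n + 1) := by ring
  have h3 : 1 ≤ 2 ^ n := Nat.one_le_two_pow
  refine ⟨(hf'.add hg').mono (by omega) ?_, (hf'.mul hg').mono h2.le ?_⟩
  · calc 2 ^ 2 ^ n + 2 ^ 2 ^ n = 2 ^ (2 ^ n + 1) := by ring
      _ ≤ 2 ^ 2 ^ (n + 1) := Nat.pow_le_pow_right two_pos (by omega)
  · rw [← pow_add, h2]

/-- Replace the constant of step `i` by the variable `inr i`. Choose the kind of each step first,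
then define `P` by strong recursion (or prove the existence of `P` on initial segments). -/
theorem univ_ex {υ : Type} {m : ℕ} {g : Fin (m + 1) → MvPolynomial υ ℚ} (h : Slp g) :
    ∃ P : Fin (m + 1) → MvPolynomial (υ ⊕ Fin (m + 1)) ℤ,
      (∀ i : Fin (m + 1), Bd (P i) (2 ^ (i : ℕ)) (2 ^ 2 ^ (i : ℕ))) ∧
      (∃ x : Fin (m + 1) → ℚ, ∀ i, sp x (P i) = g i) ∧
      ∀ (K : Type) [CommRing K] (x : Fin (m + 1) → K), Slp fun i => sp x (P i) := by
  obtain ⟨x, P, H⟩ := univa_shape h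
  refine ⟨P, fun i => ?_, ⟨x, fun i => ?_⟩, fun K _ y i => ?_⟩
  · induction i using WellFoundedLT.induction with
    | _ i ih =>
      rcases H i with ⟨v, -, hv⟩ | ⟨-, hc⟩ | ⟨a, b, ha, hb, ⟨-, hab⟩ | ⟨-, hab⟩⟩
      · rw [hv]
        exact (bd_X _).mono Nat.one_le_two_pow Nat.one_le_two_pow
      · rw [hc]
        exact (bd_X _).mono Nat.one_le_two_pow Nat.one_le_two_pow
      · rw [hab]
        exact (univa_bd ha hb (ih a ha) (ih b hb)).1
      · rw [hab]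
        exact (univa_bd ha hb (ih a ha) (ih b hb)).2
  · induction i using WellFoundedLT.induction with
    | _ i ih =>
      rcases H i with ⟨v, hg, hv⟩ | ⟨hg, hc⟩ | ⟨a, b, ha, hb, ⟨hg, hab⟩ | ⟨hg, hab⟩⟩
      · rw [hv, hg, sp_inl]
      · rw [hc, hg, sp_inr]
      · rw [hab, hg, map_add, ih a ha, ih b hb]
      · rw [hab, hg, map_mul, ih a ha, ih b hb]
  · rcases H i with ⟨v, -, hv⟩ | ⟨-, hc⟩ | ⟨a, b, ha, hb, ⟨-, hab⟩ | ⟨-, hab⟩⟩
    · exact .inl ⟨v, by simp only [hv, sp_inl]⟩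
    · exact .inr (.inl ⟨y i, by simp only [hc, sp_inr]⟩)
    · exact .inr (.inr ⟨a, b, ha, hb, .inl (by simp only [hab, map_add])⟩)
    · exact .inr (.inr ⟨a, b, ha, hb, .inr (by simp only [hab, map_mul])⟩)

end Pool.Agent.Lib.MP_8b1d3b_lc.NG
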